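import Pool.Agent.Helper813.AF.Basic

set_option autoImplicit false
set_option linter.unusedSectionVars false

namespace Pool.Agent.Helper813.AF

open scoped commutatorElement Pointwise

section

variable {G : Type} [Group G]

/-- the join in the definition of abnormality -/
def Jn (A : Subgroup G) (g : G) : Subgroup G := A ⊔ A.map (MulAut.conj g).toMonoidHom

lemma le_Jn (A : Subgroup G) (g : G) : A ≤ Jn A g := le_sup_left

lemma conj_mem_Jn {A : Subgroup G} {g a : G} (ha : a ∈ A) : g * a * g⁻¹ ∈ Jn A g :=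
  (le_sup_right : _ ≤ Jn A g) ⟨a, ha, rfl⟩

lemma Jn_le {A M : Subgroup G} {g : G} (h1 : A ≤ M) (h2 : ∀ a ∈ A, g * a * g⁻¹ ∈ M) :
    Jn A g ≤ M := by
  refine sup_le h1 ?_
  rintro _ ⟨a, ha, rfl⟩
  exact h2 a ha

/-- maximal subgroups that are not normal are abnormal -/
lemma abn_of_max [Finite G] {A : Subgroup G} (hA : IsCoatom A) (hn : ¬ A.Normal) : Abn A := by
  intro g
  by_cases hg : g ∈ A
  · exact le_Jn A g hg
  · show g ∈ Jn A g
    by_cases htop : Jn A g = ⊤
    · rw [htop]; trivial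
    · exfalso
      have h1 : Jn A g = A := by
        by_contra hne
        exact htop (hA.2 _ (lt_of_le_of_ne (le_Jn A g) (Ne.symm hne)))
      have h2 : A.map (MulAut.conj g).toMonoidHom ≤ A := by
        calc A.map (MulAut.conj g).toMonoidHom ≤ Jn A g := le_sup_right
          _ = A := h1
      have h3 : A.map (MulAut.conj g).toMonoidHom = A := by
        refine Subgroup.eq_of_le_of_card_ge h2 ?_
        rw [Subgroup.card_map_of_injective (MulAut.conj g).injective]
      have h4 : g ∈ Subgroup.normalizer (A : Set G) := by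
        rw [Subgroup.mem_normalizer_iff]
        intro x
        constructor
        · intro hx
          exact h2 ⟨x, hx, rfl⟩
        · intro hx
          rw [← h3] at hx
          obtain ⟨y, hy, hxy⟩ := hx
          have : y = x := by
            have h5 : g * y * g⁻¹ = g * x * g⁻¹ := hxy
            exact mul_left_cancel (mul_right_cancel h5)
          rw [← this]; exact hy
      have h5 : Subgroup.normalizer (A : Set G) = ⊤ :=
        hA.2 _ (lt_of_le_of_ne Subgroup.le_normalizer (fun h => hg (by rw [h]; exact h4)))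
      exact hn (Subgroup.normalizer_eq_top_iff.1 h5)

lemma abn_comap {H : Type} [Group H] (f : G →* H) (hf : Function.Surjective f) {A : Subgroup H}
    (hA : Abn A) : Abn (A.comap f) := by
  intro g
  show g ∈ Jn (A.comap f) g
  have h1 : Jn A (f g) ≤ (Jn (A.comap f) g).map f := by
    refine Jn_le ?_ ?_
    · intro a ha
      obtain ⟨x, rfl⟩ := hf a
      exact ⟨x, le_Jn _ _ ha, rfl⟩
    · intro a ha
      obtain ⟨x, rfl⟩ := hf a
      exact ⟨g * x * g⁻¹, conj_mem_Jn ha, by simp⟩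
  obtain ⟨j, hj, hjg⟩ := h1 (hA (f g))
  have h2 : j⁻¹ * g ∈ A.comap f := by
    rw [Subgroup.mem_comap, map_mul, map_inv, hjg, inv_mul_cancel]; exact one_mem _
  have e : j * (j⁻¹ * g) = g := by group
  have h3 := mul_mem hj (le_Jn (A.comap f) g h2)
  rw [e] at h3
  exact h3

lemma abn_sylow [Finite G] {p : ℕ} [Fact p.Prime] (P : Sylow p G) :
    Abn (Subgroup.normalizer (P : Set G)) := by
  intro g
  set A := Subgroup.normalizer (P : Set G) with hA
  show g ∈ Jn A g
  have hP : (P : Subgroup G) ≤ Jn A g := le_trans Subgroup.le_normalizer (le_Jn A g)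
  have hgP : ((g • P : Sylow p G) : Subgroup G) ≤ Jn A g := by
    rw [Sylow.coe_subgroup_smul]
    rintro _ ⟨x, hx, rfl⟩
    have h1 : x ∈ A := Subgroup.le_normalizer hx
    exact conj_mem_Jn h1
  obtain ⟨j, hj⟩ := MulAction.exists_smul_eq (Jn A g) (P.subtype hP) ((g • P).subtype hgP)
  rw [Sylow.smul_subtype hP j] at hj
  have h2 : (j : G) • P = g • P := Sylow.subtype_injective hj
  have h3 : ((j : G)⁻¹ * g) • P = P := by
    rw [mul_smul, ← h2, inv_smul_smul]
  rw [Sylow.smul_eq_iff_mem_normalizer] at h3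
  have e : (j : G) * ((j : G)⁻¹ * g) = g := by group
  have h4 := mul_mem j.2 (le_Jn A g h3)
  rw [e] at h4
  exact h4

end

section

variable {G : Type} [Group G] [Finite G]

/-- averaging argument, abelian normal subgroup -/
lemma abn_avg (A N L V : Subgroup G) (hN : N.Normal) (hL : L.Normal) (hLN : L ≤ N) (hLA : L ≤ A)
    (hVA : V ≤ A) (hNA : ∀ g : G, ∃ n ∈ N, ∃ a ∈ A, g = n * a)
    (hcomm : ∀ x ∈ N, ∀ y ∈ N, x * y * x⁻¹ * y⁻¹ ∈ L)
    (hfix : ∀ n ∈ N, (∀ v ∈ V, v * n * v⁻¹ * n⁻¹ ∈ L) → n ∈ L)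
    (m : ℕ) (hm : ∀ n ∈ N, n ^ m ∈ L) (hcop : (Nat.card V).Coprime m) : Abn A := by
  classical
  have := Fintype.ofFinite V
  intro g
  show g ∈ Jn A g
  obtain ⟨n, hn, a, ha, rfl⟩ := hNA g
  suffices h : n ∈ Jn A (n * a) from mul_mem h (le_Jn _ _ ha)
  set J := Jn A (n * a) with hJ
  have hJ1 : ∀ v ∈ A, n * v * n⁻¹ ∈ J := by
    intro v hv
    have h1 : (n * a) * (a⁻¹ * v * a) * (n * a)⁻¹ ∈ J :=
      conj_mem_Jn (mul_mem (mul_mem (inv_mem ha) hv) ha)
    convert h1 using 1; group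
  -- the quotient
  let q := QuotientGroup.mk' L
  have hq : ∀ x, q x = 1 ↔ x ∈ L := fun x => QuotientGroup.eq_one_iff x
  let Nb : Subgroup (G ⧸ L) := N.map q
  have hNbc : ∀ x y : Nb, x * y = y * x := by
    rintro ⟨_, x, hx, rfl⟩ ⟨_, y, hy, rfl⟩
    apply Subtype.ext
    show q x * q y = q y * q x
    have h1 := (hq _).2 (hcomm x hx y hy)
    rw [map_mul, map_mul, map_mul, map_inv, map_inv, mul_inv_eq_one, mul_inv_eq_iff_eq_mul] at h1
    exact h1
  let _ : CommGroup Nb := { (inferInstance : Group Nb) with mul_comm := hNbc }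
  let f : V → Nb := fun v => ⟨q (v * n * (v : G)⁻¹), _, hN.conj_mem n hn v, rfl⟩
  let S : Nb := ∏ v : V, f v
  obtain ⟨s, hs, hsS⟩ : ∃ s ∈ N, q s = (S : G ⧸ L) := by
    obtain ⟨s, hs, h1⟩ := S.2
    exact ⟨s, hs, h1⟩
  -- conjugation by w permutes the factors
  have hconj : ∀ w : V, q w * (S : G ⧸ L) * (q w)⁻¹ = S := by
    intro w
    let c : Nb →* Nb :=
      { toFun := fun x => ⟨q w * x * (q w)⁻¹, by
          obtain ⟨y, hy, h1⟩ := x.2
          exact ⟨w * y * (w : G)⁻¹, hN.conj_mem y hy w, by simp [h1]⟩⟩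
        map_one' := by apply Subtype.ext; simp
        map_mul' := by
          intro x y
          apply Subtype.ext
          show q w * (x * y) * (q w)⁻¹ = (q w * x * (q w)⁻¹) * (q w * y * (q w)⁻¹)
          group }
    have h1 : c S = ∏ v : V, c (f v) := map_prod c _ _
    have h2 : ∀ v : V, c (f v) = f (w * v) := by
      intro v
      apply Subtype.ext
      show q w * q (v * n * (v : G)⁻¹) * (q w)⁻¹ = q ((w * v : V) * n * ((w * v : V) : G)⁻¹)
      rw [← map_mul, ← map_inv, ← map_mul]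
      congr 1
      simp only [Subgroup.coe_mul]
      group
    have h3 : ∏ v : V, c (f v) = S := by
      simp only [h2]
      exact Fintype.prod_equiv (Equiv.mulLeft w) _ _ (fun _ => rfl)
    rw [h3] at h1
    exact congrArg Subtype.val h1
  have hsL : s ∈ L := by
    refine hfix s hs ?_
    intro v hv
    rw [← hq]
    have h1 := hconj ⟨v, hv⟩
    rw [← hsS] at h1
    rw [map_mul, map_mul, map_mul, map_inv, map_inv]
    rw [show q v * q s * (q v)⁻¹ = q s from h1, mul_inv_cancel]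
  have hS1 : S = 1 := by
    apply Subtype.ext
    rw [← hsS, (hq s).2 hsL]; rfl
  -- products in J
  let nb : Nb := ⟨q n, n, hn, rfl⟩
  let Jb : Subgroup Nb := (J.map q).comap Nb.subtype
  have h1 : ∀ v : V, nb * (f v)⁻¹ ∈ Jb := by
    intro v
    refine ⟨n * v * n⁻¹ * (v : G)⁻¹, mul_mem (hJ1 v (hVA v.2)) (inv_mem (le_Jn _ _ (hVA v.2))), ?_⟩
    show q (n * v * n⁻¹ * (v : G)⁻¹) = q n * (q (v * n * (v : G)⁻¹))⁻¹
    rw [← map_inv, ← map_mul]
    congr 1; group
  have h2 : ∏ v : V, (nb * (f v)⁻¹) ∈ Jb := Subgroup.prod_mem _ (fun v _ => h1 v)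
  have h3 : ∏ v : V, (nb * (f v)⁻¹) = nb ^ (Nat.card V) := by
    rw [Finset.prod_mul_distrib, Finset.prod_inv_distrib, Finset.prod_const, Finset.card_univ,
      Nat.card_eq_fintype_card]
    show nb ^ _ * S⁻¹ = _
    rw [hS1, inv_one, mul_one]
  have h4 : nb ^ m = 1 := by
    apply Subtype.ext
    show (q n) ^ m = 1
    rw [← map_pow, hq]
    exact hm n hn
  have h5 : nb ∈ Jb := by
    rw [h3] at h2
    have h6 : nb ^ (Nat.gcd (Nat.card V) m : ℤ) ∈ Jb := by
      rw [Nat.gcd_eq_gcd_ab, zpow_add, zpow_mul, zpow_mul, zpow_natCast, zpow_natCast, h4, one_zpow,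
        mul_one]
      exact zpow_mem h2 _
    rw [hcop] at h6
    simpa using h6
  obtain ⟨j, hj, hjn⟩ := h5
  have h6 : j⁻¹ * n ∈ L := by
    rw [← hq, map_mul, map_inv]
    rw [show q j = q n from hjn, inv_mul_cancel]
  have e : n = j * (j⁻¹ * n) := by group
  rw [e]
  exact mul_mem hj (le_Jn _ _ (hLA h6))

end

end Pool.Agent.Helper813.AF
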