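import Mathlib

set_option autoImplicit false
set_option linter.unusedSectionVars false

namespace Pool.Agent.Helper813.AF

open scoped commutatorElement

/-- abnormal subgroups -/
def Abn {G : Type} [Group G] (A : Subgroup G) : Prop :=
  ∀ g : G, g ∈ A ⊔ A.map (MulAut.conj g).toMonoidHom

/-- a Fitting class closed under products of abnormal subgroups -/
structure FC (F : (G : Type) → [Group G] → Prop) : Prop where
  fin : ∀ (G : Type) [Group G], F G → Finite G ∧ Group.IsSolvable G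
  iso : ∀ (G H : Type) [Group G] [Group H], Nonempty (G ≃* H) → F G → F H
  sn : ∀ (G : Type) [Group G] (N : Subgroup G), N.Normal → F G → F ↥N
  n0 : ∀ (G : Type) [Group G] [Finite G] (N M : Subgroup G), N.Normal → M.Normal →
          F ↥N → F ↥M → F ↥(N ⊔ M)
  af : ∀ (G : Type) [Group G] [Finite G], Group.IsSolvable G →
          ∀ A B : Subgroup G, Abn A → Abn B → F ↥A → F ↥B →
            (∀ g : G, ∃ a ∈ A, ∃ b ∈ B, a * b = g) → F G

section

variable {F : (G : Type) → [Group G] → Prop} (h : FC F)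

include h

lemma FC.of_equiv {G H : Type} [Group G] [Group H] (e : G ≃* H) (hG : F G) : F H :=
  h.iso G H ⟨e⟩ hG

lemma FC.of_top {G : Type} [Group G] (hG : F ↥(⊤ : Subgroup G)) : F G :=
  h.of_equiv Subgroup.topEquiv hG

lemma FC.prod_top {G : Type} [Group G] [Finite G] {N M : Subgroup G} (hN : N.Normal)
    (hM : M.Normal) (hFN : F ↥N) (hFM : F ↥M) (hNM : N ⊔ M = ⊤) : F G := by
  have h1 := h.n0 G N M hN hM hFN hFM
  rw [hNM] at h1
  exact h.of_top h1

/-- injective maps with normal range -/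
lemma FC.of_inj {G H : Type} [Group G] [Group H] (f : G →* H) (hf : Function.Injective f)
    (hn : f.range.Normal) (hH : F H) : F G :=
  h.of_equiv (MonoidHom.ofInjective hf).symm (h.sn H f.range hn hH)

lemma FC.range {G H : Type} [Group G] [Group H] (f : G →* H) (hf : Function.Injective f)
    (hG : F G) : F f.range :=
  h.of_equiv (MonoidHom.ofInjective hf) hG

/-- direct products -/
lemma FC.prod {G H : Type} [Group G] [Group H] (hG : F G) (hH : F H) : F (G × H) := by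
  have f1 := (h.fin G hG).1
  have f2 := (h.fin H hH).1
  have e1 : F (MonoidHom.inl G H).range := h.range _ (fun x y hxy => (Prod.ext_iff.1 hxy).1) hG
  have e2 : F (MonoidHom.inr G H).range := h.range _ (fun x y hxy => (Prod.ext_iff.1 hxy).2) hH
  refine h.prod_top (N := (MonoidHom.inl G H).range) (M := (MonoidHom.inr G H).range) ?_ ?_ e1 e2 ?_
  · constructor
    rintro _ ⟨x, rfl⟩ ⟨a, b⟩
    exact ⟨a * x * a⁻¹, by simp⟩
  · constructor
    rintro _ ⟨x, rfl⟩ ⟨a, b⟩
    exact ⟨b * x * b⁻¹, by simp⟩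
  · rw [eq_top_iff]
    rintro ⟨a, b⟩ _
    have : ((a, b) : G × H) = (MonoidHom.inl G H a) * (MonoidHom.inr G H b) := by simp
    rw [this]
    exact Subgroup.mul_mem_sup ⟨a, rfl⟩ ⟨b, rfl⟩

lemma FC.of_prod_left {G H : Type} [Group G] [Group H] (hGH : F (G × H)) : F G := by
  refine h.of_inj (MonoidHom.inl G H) (fun x y hxy => (Prod.ext_iff.1 hxy).1) ?_ hGH
  constructor
  rintro _ ⟨x, rfl⟩ ⟨a, b⟩
  exact ⟨a * x * a⁻¹, by simp⟩

lemma FC.of_prod_right {G H : Type} [Group G] [Group H] (hGH : F (G × H)) : F H := by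
  refine h.of_inj (MonoidHom.inr G H) (fun x y hxy => (Prod.ext_iff.1 hxy).2) ?_ hGH
  constructor
  rintro _ ⟨x, rfl⟩ ⟨a, b⟩
  exact ⟨b * x * b⁻¹, by simp⟩

omit h in
/-- the range of a pair of surjections with commutators in the join of kernels is normal -/
lemma range_normal {G G₁ G₂ : Type} [Group G] [Group G₁] [Group G₂] (f₁ : G →* G₁) (f₂ : G →* G₂)
    (h1 : Function.Surjective f₁) (h2 : Function.Surjective f₂)
    (hc : ∀ x y : G, x * y * x⁻¹ * y⁻¹ ∈ f₁.ker ⊔ f₂.ker) : (f₁.prod f₂).range.Normal := by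
  constructor
  rintro _ ⟨g, rfl⟩ ⟨a, b⟩
  obtain ⟨x, rfl⟩ := h1 a
  obtain ⟨y, rfl⟩ := h2 b
  -- find an element mapping to the conjugate
  obtain ⟨k₁, hk₁, k₂, hk₂, hx⟩ := Subgroup.mem_sup_of_normal_left.1 (hc x g)
  obtain ⟨l₁, hl₁, l₂, hl₂, hy⟩ := Subgroup.mem_sup_of_normal_left.1 (hc y g)
  rw [MonoidHom.mem_ker] at hk₁ hk₂ hl₁ hl₂
  refine ⟨k₂ * l₁ * g, ?_⟩
  apply Prod.ext
  · simp only [MonoidHom.prod_apply, map_mul, Prod.fst_mul, Prod.fst_inv, hl₁, mul_one]
    have := congrArg f₁ hx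
    simp only [map_mul, hk₁, one_mul, map_inv] at this
    rw [this]; group
  · simp only [MonoidHom.prod_apply, map_mul, Prod.snd_mul, Prod.snd_inv, hk₂, one_mul]
    have := congrArg f₂ hy
    simp only [map_mul, hl₂, mul_one, map_inv] at this
    rw [this]; group

/-- subdirect products with abelian amalgamated quotient -/
lemma FC.sub {G G₁ G₂ : Type} [Group G] [Group G₁] [Group G₂] (f₁ : G →* G₁) (f₂ : G →* G₂)
    (h1 : Function.Surjective f₁) (h2 : Function.Surjective f₂)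
    (hk : ∀ x, f₁ x = 1 → f₂ x = 1 → x = 1)
    (hc : ∀ x y : G, x * y * x⁻¹ * y⁻¹ ∈ f₁.ker ⊔ f₂.ker) (hF1 : F G₁) (hF2 : F G₂) : F G := by
  refine h.of_inj (f₁.prod f₂) ?_ (range_normal f₁ f₂ h1 h2 hc) (h.prod hF1 hF2)
  rw [injective_iff_map_eq_one]
  intro x hx
  exact hk x (congrArg Prod.fst hx) (congrArg Prod.snd hx)

/-- the quasi-R0 lemma with abelian amalgamated quotient -/
lemma FC.quasi {G G₁ G₂ : Type} [Group G] [Group G₁] [Group G₂] (f₁ : G →* G₁) (f₂ : G →* G₂)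
    (h1 : Function.Surjective f₁) (h2 : Function.Surjective f₂)
    (hk : ∀ x, f₁ x = 1 → f₂ x = 1 → x = 1)
    (hc : ∀ x y : G, x * y * x⁻¹ * y⁻¹ ∈ f₁.ker ⊔ f₂.ker) (hF : F G) (hF1 : F G₁) : F G₂ := by
  have fG := (h.fin G hF).1
  have fG1 : Finite G₁ := Finite.of_surjective f₁ h1
  have fG2 : Finite G₂ := Finite.of_surjective f₂ h2
  have hinj : Function.Injective (f₁.prod f₂) := by
    rw [injective_iff_map_eq_one]
    intro x hx
    exact hk x (congrArg Prod.fst hx) (congrArg Prod.snd hx)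
  have e1 : F (f₁.prod f₂).range := h.range _ hinj hF
  have e2 : F (MonoidHom.inl G₁ G₂).range :=
    h.range _ (fun x y hxy => (Prod.ext_iff.1 hxy).1) hF1
  have n2 : (MonoidHom.inl G₁ G₂).range.Normal := by
    constructor
    rintro _ ⟨x, rfl⟩ ⟨a, b⟩
    exact ⟨a * x * a⁻¹, by simp⟩
  refine h.of_prod_right (G := G₁) (h.prod_top (range_normal f₁ f₂ h1 h2 hc) n2 e1 e2 ?_)
  rw [eq_top_iff]
  rintro ⟨a, b⟩ _
  obtain ⟨x, rfl⟩ := h2 b
  have : ((a, f₂ x) : G₁ × G₂) = (f₁.prod f₂ x) * (MonoidHom.inl G₁ G₂ ((f₁ x)⁻¹ * a)) := by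
    simp
  rw [this]
  exact Subgroup.mul_mem_sup ⟨x, rfl⟩ ⟨_, rfl⟩

/-- abelian quotients -/
lemma FC.abq {G Q : Type} [Group G] [Group Q] (f : G →* Q) (hf : Function.Surjective f)
    (hc : ∀ x y : Q, x * y = y * x) (hF : F G) : F Q := by
  refine h.quasi (MonoidHom.id G) f Function.surjective_id hf (fun x hx _ => hx) ?_ hF hF
  intro x y
  refine Subgroup.mem_sup_right ?_
  rw [MonoidHom.mem_ker]
  simp only [map_mul, map_inv]
  rw [hc (f x) (f y)]; group

end

end Pool.Agent.Helper813.AF
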