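import Pool.Agent.Helper813.AF.PG

set_option autoImplicit false
set_option linter.unusedSectionVars false
set_option linter.unusedVariables false

namespace Pool.Agent.Helper813.AF

open scoped commutatorElement

lemma solv_pi {Ω S : Type} [Group S] [hS : Group.IsSolvable S] : Group.IsSolvable (Ω → S) := by
  obtain ⟨n, hn⟩ := hS.solvable
  refine ⟨n, ?_⟩
  rw [eq_bot_iff]
  intro f hf
  rw [Subgroup.mem_bot]
  funext ω
  have h1 := map_derivedSeries_le_derivedSeries (f := Pi.evalMonoidHom (fun _ : Ω => S) ω) n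
    ⟨f, hf, rfl⟩
  rw [hn] at h1
  exact h1

section

variable {Y Ω S : Type} [Group Y] [Group S] [MulAction Y Ω]

/-- functions -/
def X.fn : (Ω → S) →* X Y Ω S where
  toFun f := ⟨f, 1⟩
  map_one' := rfl
  map_mul' a b := by
    apply X.ext
    · funext ω; simp
    · simp

/-- the top group -/
def X.inY : Y →* X Y Ω S where
  toFun y := ⟨fun _ => 1, y⟩
  map_one' := rfl
  map_mul' a b := by
    apply X.ext
    · funext ω; simp
    · rfl

@[simp] lemma X.inY_k (y : Y) (ω : Ω) : (X.inY y : X Y Ω S).k ω = 1 := rfl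
@[simp] lemma X.inY_y (y : Y) : (X.inY y : X Y Ω S).y = y := rfl

lemma X.inY_inj : Function.Injective (X.inY : Y →* X Y Ω S) := by
  intro a b hab
  exact congrArg X.y hab

lemma solv_X [Group.IsSolvable S] [Group.IsSolvable Y] : Group.IsSolvable (X Y Ω S) := by
  have := solv_pi (Ω := Ω) (S := S)
  refine Group.isSolvable_of_ker_le_range (X.fn : (Ω → S) →* X Y Ω S) (X.pr : X Y Ω S →* Y) ?_
  intro x hx
  refine ⟨x.k, ?_⟩
  apply X.ext
  · rfl
  · exact (X.mem_ker.1 hx).symm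

/-- constants times the top group -/
def X.cg : S × Y →* X Y Ω S where
  toFun p := ⟨fun _ => p.1, p.2⟩
  map_one' := rfl
  map_mul' a b := by
    apply X.ext
    · funext ω; rfl
    · rfl

lemma X.mem_cg {x : X Y Ω S} : x ∈ (X.cg : S × Y →* X Y Ω S).range ↔ ∃ s, ∀ ω, x.k ω = s := by
  constructor
  · rintro ⟨p, rfl⟩
    exact ⟨p.1, fun ω => rfl⟩
  · rintro ⟨s, hs⟩
    refine ⟨(s, x.y), ?_⟩
    apply X.ext
    · funext ω; exact (hs ω).symm
    · rfl

end

/-- `t`-wreath products with a regular group of order `s` -/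
def E (F : (G : Type) → [Group G] → Prop) (t s : ℕ) : Prop :=
  ∃ (Ω : Type) (_ : Finite Ω) (_ : Nonempty Ω) (C : Subgroup (Equiv.Perm Ω)), Nat.card C = s ∧
    (∀ c ∈ C, ∀ ω, c ω = ω → c = 1) ∧ F (X C Ω (Cyc t))

section

variable {F : (G : Type) → [Group G] → Prop} (h : FC F)

include h

/-- the wreath product is in the class -/
lemma FC.core {r t : ℕ} [Fact r.Prime] [Fact t.Prime] {G : Type} [Group G] [Finite G]
    (hsol : Group.IsSolvable G) (H N : Subgroup G) (R : Sylow r G) (hF : F G) (ht : F (Cyc t))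
    (hW : ∀ (W : Type) [Group W] [Finite W] (T : Subgroup W), T.Normal → IsPGroup t T →
      T.index = r → F W)
    (hN : N.Normal) (hNH : N ≤ H) (hR : Nat.card R = r)
    (hHR : ∀ g : G, ∃ x ∈ H, ∃ y ∈ (R : Subgroup G), g = x * y)
    (htH : ¬ t ∣ Nat.card H) (hcop : (Nat.card (G ⧸ (N ⊔ R))).Coprime t)
    (hC : ∀ x ∈ H, x ∈ Subgroup.normalizer (R : Set G) → x ∈ N)
    (hCn : ∀ x ∈ H, x ∈ Subgroup.normalizer (R : Set G) → ∀ y ∈ Subgroup.normalizer (R : Set G),
      y * x * y⁻¹ ∈ H)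
    (hFC : F ↥(H ⊓ Subgroup.normalizer (R : Set G))) :
    F (X G (G ⧸ (N ⊔ (R : Subgroup G))) (Cyc t)) := by
  classical
  set Ω := G ⧸ (N ⊔ (R : Subgroup G)) with hΩ
  have htp : t.Prime := Fact.out
  have : NeZero t := ⟨htp.pos.ne'⟩
  have := Fintype.ofFinite Ω
  have hNt : ∀ n ∈ N, ∀ ω : Ω, n • ω = ω := by
    intro n hn ω
    induction ω using QuotientGroup.induction_on with
    | _ x =>
      show ((n * x : G) : Ω) = (x : Ω)
      rw [eq_comm, QuotientGroup.eq]
      have e : x⁻¹ * (n * x) = x⁻¹ * n * (x⁻¹)⁻¹ := by group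
      rw [e]
      exact (le_sup_left : N ≤ _) (hN.conj_mem n hn x⁻¹)
  have htr : ∀ ω : Ω, ∃ x ∈ H, ω = x • ((1 : G) : Ω) := by
    intro ω
    induction ω using QuotientGroup.induction_on with
    | _ g =>
      obtain ⟨x, hx, y, hy, rfl⟩ := hHR g
      refine ⟨x, hx, ?_⟩
      show ((x * y : G) : Ω) = ((x * 1 : G) : Ω)
      rw [eq_comm, QuotientGroup.eq]
      have e : (x * 1)⁻¹ * (x * y) = y := by group
      rw [e]
      exact (le_sup_right : (R : Subgroup G) ≤ _) hy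
  have hcard : Fintype.card Ω = Nat.card Ω := (Nat.card_eq_fintype_card).symm
  have hSt : ∀ s : Cyc t, s ^ t = 1 := by
    intro s
    have : s ^ Nat.card (Cyc t) = 1 := pow_card_eq_one'
    rw [card_Cyc] at this
    exact this
  have hcop' : (Nat.card (Cyc t)).Coprime (Nat.card Ω) := by
    rw [card_Cyc]; exact hcop.symm
  have solX : Group.IsSolvable (X G Ω (Cyc t)) := solv_X
  have hfncomm : ∀ x y : X G Ω (Cyc t), x.y = 1 → y.y = 1 → x * y * x⁻¹ * y⁻¹ = 1 := by
    intro x y hx hy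
    apply X.ext
    · funext ω
      simp only [X.mul_k, X.inv_k, X.mul_y, X.inv_y, hx, hy, one_smul, mul_one, inv_one, X.one_k]
      rw [mul_comm (x.k ω) (y.k ω)]; group
    · simp [hx, hy]
  -- the subgroup of constants
  let A : Subgroup (X G Ω (Cyc t)) := (X.cg : Cyc t × G →* X G Ω (Cyc t)).range
  have hFA : F A := by
    refine h.range _ ?_ (h.prod ht hF)
    intro p q hpq
    apply Prod.ext
    · exact congrArg (fun z : X G Ω (Cyc t) => z.k ((1 : G) : Ω)) hpq
    · exact congrArg (fun z : X G Ω (Cyc t) => z.y) hpq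
  have hA : Abn A := by
    refine abn_avg A ((X.pr : X G Ω (Cyc t) →* G).ker ⊓ (X.tot : X G Ω (Cyc t) →* Cyc t).ker) ⊥
      (H.map X.inY) inferInstance inferInstance bot_le bot_le ?_ ?_ ?_ ?_ t ?_ ?_
    · rintro _ ⟨x, hx, rfl⟩
      exact X.mem_cg.2 ⟨1, fun ω => rfl⟩
    · intro g
      let c : Cyc t := (powCoprime hcop').symm (X.tot g)
      have hc : c ^ (Nat.card Ω) = X.tot g := (powCoprime hcop').apply_symm_apply (X.tot g)
      refine ⟨⟨fun ω => g.k ω * c⁻¹, 1⟩, ?_, ⟨fun _ => c, g.y⟩, X.mem_cg.2 ⟨c, fun ω => rfl⟩, ?_⟩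
      · rw [Subgroup.mem_inf]
        refine ⟨X.mem_ker.2 rfl, ?_⟩
        rw [MonoidHom.mem_ker, X.tot_apply]
        simp only [Finset.prod_mul_distrib, Finset.prod_const, Finset.card_univ]
        rw [hcard, inv_pow, hc, X.tot_apply, mul_inv_cancel]
      · apply X.ext
        · funext ω; simp
        · simp
    · intro x hx y hy
      rw [Subgroup.mem_bot]
      exact hfncomm x y (X.mem_ker.1 hx.1) (X.mem_ker.1 hy.1)
    · intro n hn hv
      rw [Subgroup.mem_bot]
      have hny : n.y = 1 := X.mem_ker.1 hn.1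
      have h1 : ∀ x ∈ H, ∀ ω, n.k (x⁻¹ • ω) = n.k ω := by
        intro x hx ω
        have h2 := hv (X.inY x) ⟨x, hx, rfl⟩
        rw [Subgroup.mem_bot, mul_inv_eq_one] at h2
        have h3 := congrArg (fun z : X G Ω (Cyc t) => z.k ω) h2
        simpa [hny] using h3
      have h2 : ∀ ω, n.k ω = n.k ((1 : G) : Ω) := by
        intro ω
        obtain ⟨x, hx, rfl⟩ := htr ω
        have h3 := h1 x hx (x • ((1 : G) : Ω))
        rw [inv_smul_smul] at h3
        exact h3.symm
      have h3 : X.tot n = 1 := hn.2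
      rw [X.tot_apply] at h3
      simp only [h2] at h3
      rw [Finset.prod_const, Finset.card_univ, hcard] at h3
      have h4 : n.k ((1 : G) : Ω) = 1 := by
        apply (powCoprime hcop').injective
        show n.k ((1 : G) : Ω) ^ (Nat.card Ω) = 1 ^ (Nat.card Ω)
        rw [h3, one_pow]
      apply X.ext
      · funext ω
        rw [h2, h4]; rfl
      · exact hny
    · intro n hn
      rw [Subgroup.mem_bot]
      have hny : n.y = 1 := X.mem_ker.1 hn.1
      apply X.ext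
      · funext ω
        rw [X_pow_k, hny]
        simp only [one_pow, inv_one, one_smul, Finset.prod_const, Finset.card_range, X.one_k]
        exact hSt _
      · rw [X_pow_y, hny]; simp
    · rw [Subgroup.card_map_of_injective X.inY_inj]
      exact ((Nat.Prime.coprime_iff_not_dvd htp).2 htH).symm
  -- the preimage of the normaliser
  set B₀ := Subgroup.normalizer (R : Set G) with hB₀
  have hRB : (R : Subgroup G) ≤ B₀ := Subgroup.le_normalizer
  have hRc : ∀ y ∈ B₀, ∀ x ∈ (R : Subgroup G), y * x * y⁻¹ ∈ (R : Subgroup G) := by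
    intro y hy x hx
    exact (Subgroup.mem_normalizer_iff.1 hy x).1 hx
  let B : Subgroup (X G Ω (Cyc t)) := B₀.comap X.pr
  have hB : Abn B := abn_comap X.pr X.pr_surj (abn_sylow R)
  have hFB : F B := by
    refine h.join (N := (H ⊓ B₀).map X.inY) (M := (R : Subgroup G).comap X.pr) ?_ ?_ ?_ ?_ ?_ ?_ ?_
    · rintro _ ⟨x, hx, rfl⟩
      exact hx.2
    · exact Subgroup.comap_mono hRB
    · rintro b hb _ ⟨x, hx, rfl⟩
      have hx1 : b.y * x * b.y⁻¹ ∈ H ⊓ B₀ :=
        ⟨hCn x hx.1 hx.2 b.y hb, B₀.mul_mem (B₀.mul_mem hb hx.2) (B₀.inv_mem hb)⟩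
      refine ⟨b.y * x * b.y⁻¹, hx1, ?_⟩
      apply X.ext
      · funext ω
        have e : b.y • x⁻¹ • b.y⁻¹ • ω = ω := by
          have h5 : (b.y * x * b.y⁻¹)⁻¹ ∈ N := N.inv_mem (hC _ hx1.1 hx1.2)
          have h6 := hNt _ h5 ω
          have h7 : (b.y * x * b.y⁻¹)⁻¹ • ω = b.y • x⁻¹ • b.y⁻¹ • ω := by
            simp only [mul_smul, mul_inv_rev, inv_inv]
          rw [← h7]; exact h6
        simp [mul_smul, e]
      · rfl
    · intro b hb x hx
      exact hRc b.y hb x.y hx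
    · exact h.of_equiv ((H ⊓ B₀).equivMapOfInjective X.inY X.inY_inj) hFC
    · -- the normal `t`-subgroup
      let f : ↥((R : Subgroup G).comap (X.pr : X G Ω (Cyc t) →* G)) →* G :=
        X.pr.comp (Subgroup.subtype _)
      refine hW _ f.ker inferInstance ?_ ?_
      · intro x
        refine ⟨1, ?_⟩
        rw [pow_one]
        have hx : (x : ↥((R : Subgroup G).comap (X.pr : X G Ω (Cyc t) →* G))).1.y = 1 := x.2
        apply Subtype.ext
        apply Subtype.ext
        apply X.ext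
        · funext ω
          show ((x.1.1) ^ t).k ω = 1
          rw [X_pow_k, hx]
          simp only [one_pow, inv_one, one_smul, Finset.prod_const, Finset.card_range]
          exact hSt _
        · show ((x.1.1) ^ t).y = 1
          rw [X_pow_y, hx]; simp
      · rw [Subgroup.index_ker]
        have e : f.range = (R : Subgroup G) := by
          apply le_antisymm
          · rintro _ ⟨x, rfl⟩
            exact x.2
          · intro y hy
            exact ⟨⟨X.inY y, hy⟩, rfl⟩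
        have e2 : Nat.card f.range = Nat.card (R : Subgroup G) := by rw [e]
        rw [e2]; exact hR
    · intro b hb
      obtain ⟨x, hx, y, hy, hxy⟩ := hHR b.y
      have hxB : x ∈ B₀ := by
        have e : x = b.y * y⁻¹ := by rw [hxy]; group
        rw [e]
        exact mul_mem hb (inv_mem (hRB hy))
      refine ⟨X.inY x, ⟨x, ⟨hx, hxB⟩, rfl⟩, (X.inY x)⁻¹ * b, ?_, (mul_inv_cancel_left _ _).symm⟩
      show x⁻¹ * b.y ∈ (R : Subgroup G)
      rw [hxy]
      have e : x⁻¹ * (x * y) = y := by group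
      rw [e]; exact hy
  refine h.af _ solX A B hA hB hFA hFB ?_
  intro g
  refine ⟨X.inY g.y, X.mem_cg.2 ⟨1, fun ω => rfl⟩, (X.inY g.y)⁻¹ * g, ?_, mul_inv_cancel_left _ _⟩
  show g.y⁻¹ * g.y ∈ B₀
  rw [inv_mul_cancel]; exact one_mem _

end

section

variable {F : (G : Type) → [Group G] → Prop} (h : FC F)

include h

lemma FC.core2 {t : ℕ} [Fact t.Prime] {G Ω : Type} [Group G] [Finite G] [Finite Ω] [Nonempty Ω]
    [MulAction G Ω] (H N : Subgroup G) (hH : H.Normal) (hN : N.Normal) (hNH : N ≤ H) (hlt : N ≠ H)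
    (hab : ∀ x ∈ H, ∀ y ∈ H, x * y * x⁻¹ * y⁻¹ ∈ N) (hNt : ∀ n ∈ N, ∀ ω : Ω, n • ω = ω)
    (hsr : ∀ x ∈ H, ∀ ω : Ω, x • ω = ω → x ∈ N) (hK : ∀ K : Subgroup G, K ≤ H → F K)
    (hX : F (X G Ω (Cyc t))) : ∃ s, s.Prime ∧ s ∣ Nat.card H ∧ E F t s := by
  classical
  let q := QuotientGroup.mk' N
  have hq : ∀ x, q x = 1 ↔ x ∈ N := fun x => QuotientGroup.eq_one_iff x
  have hc1 : Nat.card (H.map q) ≠ 1 := by
    intro h1
    apply hlt
    refine le_antisymm hNH ?_
    intro x hx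
    have h2 : H.map q = ⊥ := Subgroup.eq_bot_of_card_eq _ h1
    have h3 : q x ∈ H.map q := ⟨x, hx, rfl⟩
    rw [h2, Subgroup.mem_bot, hq] at h3
    exact h3
  obtain ⟨s, hs, hsd⟩ := Nat.exists_prime_and_dvd hc1
  have : Fact s.Prime := ⟨hs⟩
  obtain ⟨⟨x, hx⟩, hxs⟩ := exists_prime_orderOf_dvd_card' s hsd
  have hxs' : orderOf x = s := by rw [← hxs, ← Subgroup.orderOf_coe]
  refine ⟨s, hs, hsd.trans (Subgroup.card_map_dvd _ _), ?_⟩
  let H₀ : Subgroup G := (Subgroup.zpowers x).comap q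
  have hH₀ : H₀ ≤ H := by
    intro y hy
    have h1 : q y ∈ H.map q := (Subgroup.zpowers_le.2 hx) hy
    obtain ⟨z, hz, hzy⟩ := h1
    have h2 : z⁻¹ * y ∈ N := by rw [← hq, map_mul, map_inv, hzy, inv_mul_cancel]
    have e : y = z * (z⁻¹ * y) := by group
    rw [e]
    exact H.mul_mem hz (hNH h2)
  have hcomm : ∀ a ∈ H, ∀ b ∈ H, q (a * b * a⁻¹) = q b := by
    intro a ha b hb
    have h1 := (hq _).2 (hab a ha b hb)
    rw [map_mul, map_inv, mul_inv_eq_one] at h1
    exact h1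
  have hFH : F (H.comap (X.pr : X G Ω (Cyc t) →* G)) := h.sn _ _ (hH.comap _) hX
  have hFH₀ : F (H₀.comap (X.pr : X G Ω (Cyc t) →* G)) := by
    refine h.nsub (Subgroup.comap_mono hH₀) ?_ hFH
    intro a ha b hb
    show q (b.y * a.y * b.y⁻¹) ∈ Subgroup.zpowers x
    rw [hcomm b.y hb a.y (hH₀ ha)]
    exact ha
  let C : Subgroup (Equiv.Perm Ω) := H₀.map (MulAction.toPermHom G Ω)
  refine ⟨Ω, inferInstance, inferInstance, C, ?_, ?_, ?_⟩
  · let φ' := (MulAction.toPermHom G Ω).comp H₀.subtype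
    let q' := q.comp H₀.subtype
    have e1 : φ'.range = C := by
      apply le_antisymm
      · rintro _ ⟨y, rfl⟩
        exact ⟨y, y.2, rfl⟩
      · rintro _ ⟨y, hy, rfl⟩
        exact ⟨⟨y, hy⟩, rfl⟩
    have e2 : q'.range = Subgroup.zpowers x := by
      apply le_antisymm
      · rintro _ ⟨y, rfl⟩
        exact y.2
      · intro z hz
        obtain ⟨y, hy⟩ := QuotientGroup.mk'_surjective N z
        refine ⟨⟨y, ?_⟩, hy⟩
        show q y ∈ Subgroup.zpowers x
        rw [show q y = z from hy]; exact hz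
    have e3 : φ'.ker = q'.ker := by
      ext y
      rw [MonoidHom.mem_ker, MonoidHom.mem_ker]
      constructor
      · intro h1
        obtain ⟨ω⟩ := (inferInstance : Nonempty Ω)
        have h2 : (y : G) • ω = ω := by
          have := congrArg (fun f : Equiv.Perm Ω => f ω) h1
          exact this
        exact (hq _).2 (hsr y (hH₀ y.2) ω h2)
      · intro h1
        apply Equiv.ext
        intro ω
        exact hNt y ((hq _).1 h1) ω
    rw [← e1, ← Subgroup.index_ker, e3, Subgroup.index_ker, e2, Nat.card_zpowers, hxs']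
  · rintro _ ⟨y, hy, rfl⟩ ω hω
    have h1 : y ∈ N := hsr y (hH₀ hy) ω hω
    apply Equiv.ext
    intro ω'
    exact hNt y h1 ω'
  · let f₁ : ↥(H₀.comap (X.pr : X G Ω (Cyc t) →* G)) →* H₀ := X.pr.subgroupComap H₀
    let f₂ : ↥(H₀.comap (X.pr : X G Ω (Cyc t) →* G)) →* X C Ω (Cyc t) :=
      MonoidHom.mk' (fun a => ⟨a.1.k, ⟨MulAction.toPermHom G Ω a.1.y, a.1.y, a.2, rfl⟩⟩) (by
        intro a b
        apply X.ext
        · funext ω; rfl
        · apply Subtype.ext
          exact map_mul (MulAction.toPermHom G Ω) a.1.y b.1.y)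
    refine h.quasi f₁ f₂ ?_ ?_ ?_ ?_ hFH₀ (hK H₀ hH₀)
    · rintro ⟨y, hy⟩
      exact ⟨⟨X.inY y, hy⟩, rfl⟩
    · rintro ⟨k, ⟨_, y, hy, rfl⟩⟩
      exact ⟨⟨⟨k, y⟩, hy⟩, rfl⟩
    · rintro ⟨a, ha⟩ h1 h2
      have h3 : a.k = fun _ => 1 := congrArg (fun z : X C Ω (Cyc t) => z.k) h2
      have h4 : a.y = 1 := congrArg Subtype.val h1
      apply Subtype.ext
      exact X.ext h3 h4
    · rintro ⟨a, ha⟩ ⟨b, hb⟩
      have hn : a.y * b.y * a.y⁻¹ * b.y⁻¹ ∈ N := hab _ (hH₀ ha) _ (hH₀ hb)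
      have hn' : a.y * b.y * a.y⁻¹ * b.y⁻¹ ∈ H₀ := by
        show q (a.y * b.y * a.y⁻¹ * b.y⁻¹) ∈ Subgroup.zpowers x
        rw [(hq _).2 hn]; exact one_mem _
      set c := (⟨a, ha⟩ : ↥(H₀.comap (X.pr : X G Ω (Cyc t) →* G))) * ⟨b, hb⟩ *
        (⟨a, ha⟩ : ↥(H₀.comap (X.pr : X G Ω (Cyc t) →* G)))⁻¹ *
        (⟨b, hb⟩ : ↥(H₀.comap (X.pr : X G Ω (Cyc t) →* G)))⁻¹ with hcdef
      have hcy : c.1.y = a.y * b.y * a.y⁻¹ * b.y⁻¹ := rfl
      have e : c = (⟨⟨c.1.k, 1⟩, H₀.one_mem⟩ : ↥(H₀.comap (X.pr : X G Ω (Cyc t) →* G))) *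
          ⟨X.inY c.1.y, by rw [hcy]; exact hn'⟩ := by
        apply Subtype.ext
        exact X_decomp c.1
      rw [e]
      refine Subgroup.mul_mem_sup ?_ ?_
      · rw [MonoidHom.mem_ker]
        apply Subtype.ext
        rfl
      · rw [MonoidHom.mem_ker]
        apply X.ext
        · rfl
        · apply Subtype.ext
          apply Equiv.ext
          intro ω
          show c.1.y • ω = ω
          rw [hcy]
          exact hNt _ hn ω

end

end Pool.Agent.Helper813.AF
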