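import Pool.Agent.Helper813.AF.Ep

set_option autoImplicit false
set_option linter.unusedSectionVars false
set_option linter.unusedVariables false

namespace Pool.Agent.Helper813.AF

open scoped commutatorElement

/-- structure of a nonnormal maximal subgroup in a `p`-by-(abelian `q`-group) -/
lemma decomp {p q : ℕ} [Fact p.Prime] [Fact q.Prime] {G Q : Type} [Group G] [Finite G]
    [CommGroup Q] (π : G →* Q) (hπ : Function.Surjective π) (hQ : IsPGroup q Q)
    (hP : IsPGroup p π.ker) (hn : ¬ Group.IsNilpotent G) :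
    ∃ M : Subgroup G, Nat.card M < Nat.card G ∧ (∀ g : G, ∃ x ∈ π.ker, ∃ a ∈ M, g = x * a) ∧
      (π.ker ⊓ M).Normal ∧ (∀ x ∈ π.ker, ∀ y ∈ π.ker, x * y * x⁻¹ * y⁻¹ ∈ π.ker ⊓ M) ∧
      ∃ V : Subgroup G, V ≤ M ∧ IsPGroup q V ∧
        ∀ x ∈ π.ker, (∀ v ∈ V, v * x * v⁻¹ * x⁻¹ ∈ π.ker ⊓ M) → x ∈ π.ker ⊓ M := by
  classical
  obtain ⟨M, hM, hMn⟩ : ∃ M : Subgroup G, IsCoatom M ∧ ¬ M.Normal := by
    by_contra hcon
    push Not at hcon
    exact hn ((Group.isNilpotent_of_finite_tfae.out 0 2).2 hcon)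
  set P := π.ker with hPdef
  have hPn : P.Normal := π.normal_ker
  have hcomP : ∀ x y : G, x * y * x⁻¹ * y⁻¹ ∈ P := by
    intro x y
    rw [hPdef, MonoidHom.mem_ker]
    simp only [map_mul, map_inv]
    rw [mul_comm (π x) (π y)]; group
  have hPM : ¬ P ≤ M := by
    intro hle
    apply hMn
    constructor
    intro n hn g
    have e : g * n * g⁻¹ = (g * n * g⁻¹ * n⁻¹) * n := by group
    rw [e]
    exact M.mul_mem (hle (hcomP g n)) hn
  have hsup : ∀ E : Subgroup G, ¬ E ≤ M → E ⊔ M = ⊤ := by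
    intro E hE
    refine hM.2 _ (lt_of_le_of_ne le_sup_right ?_)
    intro heq
    exact hE (le_sup_left.trans heq.symm.le)
  have hdecE : ∀ E : Subgroup G, E.Normal → ¬ E ≤ M → ∀ g : G, ∃ x ∈ E, ∃ a ∈ M, g = x * a := by
    intro E hEn hE g
    have h1 : g ∈ E ⊔ M := by rw [hsup E hE]; trivial
    obtain ⟨x, hx, a, ha, hxa⟩ := Subgroup.mem_sup_of_normal_left.1 h1
    exact ⟨x, hx, a, ha, hxa.symm⟩
  have hdec := hdecE P hPn hPM
  -- the intersection is normal
  have hDn : (P ⊓ M).Normal := by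
    rw [← Subgroup.normalizer_eq_top_iff]
    by_contra hne
    have hMle : M ≤ Subgroup.normalizer ((P ⊓ M : Subgroup G) : Set G) := by
      intro a ha
      rw [Subgroup.mem_normalizer_iff]
      intro x
      constructor
      · rintro ⟨h1, h2⟩
        exact ⟨hPn.conj_mem x h1 a, M.mul_mem (M.mul_mem ha h2) (M.inv_mem ha)⟩
      · rintro ⟨h1, h2⟩
        have h3 := hPn.conj_mem _ h1 a⁻¹
        have h4 := M.mul_mem (M.mul_mem (M.inv_mem ha) h2) ha
        have e1 : a⁻¹ * (a * x * a⁻¹) * a⁻¹⁻¹ = x := by group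
        have e2 : a⁻¹ * (a * x * a⁻¹) * a = x := by group
        rw [e1] at h3; rw [e2] at h4
        exact ⟨h3, h4⟩
    have hMeq : Subgroup.normalizer ((P ⊓ M : Subgroup G) : Set G) = M := by
      by_contra hne'
      exact hne (hM.2 _ (lt_of_le_of_ne hMle (Ne.symm hne')))
    have hnil : Group.IsNilpotent P := hP.isNilpotent
    have hnc : NormalizerCondition P := (Group.isNilpotent_of_finite_tfae.out 0 1).1 hnil
    have hlt : M.subgroupOf P < ⊤ := by
      rw [lt_top_iff_ne_top]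
      intro h1
      exact hPM (Subgroup.subgroupOf_eq_top.1 h1)
    obtain ⟨x, hx, hxM⟩ := SetLike.exists_of_lt (hnc _ hlt)
    apply hxM
    show (x : G) ∈ M
    rw [← hMeq, Subgroup.mem_normalizer_iff]
    intro y
    rw [Subgroup.mem_normalizer_iff] at hx
    constructor
    · rintro ⟨h1, h2⟩
      have h3 := (hx ⟨y, h1⟩).1 h2
      exact ⟨hPn.conj_mem y h1 x, h3⟩
    · rintro ⟨h1, h2⟩
      have h3 : y ∈ P := by
        have h4 := hPn.conj_mem _ h1 (x : G)⁻¹
        have e1 : (x : G)⁻¹ * (x * y * (x : G)⁻¹) * (x : G)⁻¹⁻¹ = y := by group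
        rwa [e1] at h4
      exact ⟨h3, (hx ⟨y, h3⟩).2 h2⟩
  set D := P ⊓ M with hD
  have hmin : ∀ E : Subgroup G, E.Normal → E ≤ P → (∃ x ∈ E, x ∉ D) → P ≤ E ⊔ D := by
    rintro E hEn hEP ⟨x, hx, hxD⟩
    have hEM : ¬ E ≤ M := fun hle => hxD ⟨hEP hx, hle hx⟩
    intro y hy
    obtain ⟨e, he, m, hm, rfl⟩ := hdecE E hEn hEM y
    refine Subgroup.mul_mem_sup he ?_
    refine ⟨?_, hm⟩
    have e1 : m = e⁻¹ * (e * m) := by group
    rw [e1]
    exact P.mul_mem (P.inv_mem (hEP he)) hy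
  let qt := QuotientGroup.mk' D
  have hq : ∀ x, qt x = 1 ↔ x ∈ D := fun x => QuotientGroup.eq_one_iff x
  have hqs : Function.Surjective qt := QuotientGroup.mk'_surjective D
  have hDP : D ≤ P := inf_le_left
  have hPD : ∃ x ∈ P, x ∉ D := by
    by_contra hcon
    push Not at hcon
    exact hPM (fun x hx => (hcon x hx).2)
  have hPbn : (P.map qt).Normal := hPn.map qt hqs
  have habel : ∀ x ∈ P, ∀ y ∈ P, x * y * x⁻¹ * y⁻¹ ∈ D := by
    let E : Subgroup G := P ⊓ (Subgroup.centralizer ((P.map qt : Subgroup (G ⧸ D)) : Set (G ⧸ D))).comap qt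
    have hEn : E.Normal := inferInstance
    have hEx : ∃ x ∈ E, x ∉ D := by
      have hPbp : IsPGroup p (P.map qt) := hP.map qt
      have hPbnt : Nontrivial (P.map qt) := by
        obtain ⟨x, hx, hxD⟩ := hPD
        refine ⟨⟨⟨qt x, x, hx, rfl⟩, 1, ?_⟩⟩
        intro h1
        exact hxD ((hq x).1 (congrArg Subtype.val h1))
      have hcnt := hPbp.center_nontrivial
      obtain ⟨⟨⟨_, x, hx, rfl⟩, hz⟩, hz1⟩ := exists_ne (1 : Subgroup.center (P.map qt))
      refine ⟨x, ⟨hx, ?_⟩, ?_⟩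
      · show qt x ∈ Subgroup.centralizer _
        rw [Subgroup.mem_centralizer_iff]
        intro y hy
        rw [Subgroup.mem_center_iff] at hz
        exact congrArg Subtype.val (hz ⟨y, hy⟩)
      · intro hxD
        apply hz1
        apply Subtype.ext
        apply Subtype.ext
        exact (hq x).2 hxD
    have hDE : D ≤ E := by
      intro x hx
      refine ⟨hDP hx, ?_⟩
      show qt x ∈ Subgroup.centralizer _
      rw [(hq x).2 hx]; exact one_mem _
    have hPE : P ≤ E := (hmin E hEn inf_le_left hEx).trans (sup_le le_rfl hDE)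
    intro x hx y hy
    have h1 : qt x ∈ Subgroup.centralizer ((P.map qt : Subgroup (G ⧸ D)) : Set (G ⧸ D)) :=
      (hPE hx).2
    rw [Subgroup.mem_centralizer_iff] at h1
    have h2 := h1 (qt y) ⟨y, hy, rfl⟩
    rw [← hq]
    simp only [map_mul, map_inv]
    rw [← h2]; group
  have hcent : ∀ x ∈ P, (∀ g : G, g * x * g⁻¹ * x⁻¹ ∈ D) → x ∈ D := by
    intro x hx hxg
    by_contra hxD
    let E : Subgroup G := P ⊓ (Subgroup.center (G ⧸ D)).comap qt
    have hEn : E.Normal := inferInstance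
    have hxE : x ∈ E := by
      refine ⟨hx, ?_⟩
      show qt x ∈ Subgroup.center _
      rw [Subgroup.mem_center_iff]
      intro g
      obtain ⟨g, rfl⟩ := hqs g
      have h1 := (hq _).2 (hxg g)
      rw [map_mul, map_mul, map_mul, map_inv, map_inv, mul_inv_eq_one, mul_inv_eq_iff_eq_mul] at h1
      exact h1
    have hDE : D ≤ E := by
      intro x hx
      refine ⟨hDP hx, ?_⟩
      show qt x ∈ Subgroup.center _
      rw [(hq x).2 hx]; exact one_mem _
    have hPE : P ≤ E := (hmin E hEn inf_le_left ⟨x, hxE, hxD⟩).trans (sup_le le_rfl hDE)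
    apply hMn
    constructor
    intro m hm g
    obtain ⟨y, hy, a, ha, rfl⟩ := hdec g
    have h1 : a * m * a⁻¹ ∈ M := M.mul_mem (M.mul_mem ha hm) (M.inv_mem ha)
    have h2 : qt y ∈ Subgroup.center (G ⧸ D) := (hPE hy).2
    rw [Subgroup.mem_center_iff] at h2
    have h3 : y * (a * m * a⁻¹) * y⁻¹ * (a * m * a⁻¹)⁻¹ ∈ D := by
      rw [← hq]
      have h4 := h2 (qt (a * m * a⁻¹))
      rw [map_mul, map_mul, map_mul, map_inv, map_inv, ← h4]; group
    have e : y * a * m * (y * a)⁻¹ = (y * (a * m * a⁻¹) * y⁻¹ * (a * m * a⁻¹)⁻¹) * (a * m * a⁻¹) := by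
      group
    rw [e]
    exact M.mul_mem h3.2 h1
  -- the Sylow subgroup
  obtain ⟨V₀⟩ : Nonempty (Sylow q M) := inferInstance
  have hsM : Function.Surjective (π.comp M.subtype) := by
    intro z
    obtain ⟨g, rfl⟩ := hπ z
    obtain ⟨x, hx, a, ha, rfl⟩ := hdec g
    refine ⟨⟨a, ha⟩, ?_⟩
    have h1 : π x = 1 := hx
    rw [map_mul, h1, one_mul]; rfl
  have hV₀ : ∀ z : Q, ∃ v ∈ (V₀ : Subgroup M), π v = z := by
    have fQ : Finite Q := Finite.of_surjective π hπ
    intro z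
    have h1 : ((Sylow.mapSurjective hsM V₀ : Sylow q Q) : Subgroup Q) = ⊤ := by
      have h2 : IsPGroup q (⊤ : Subgroup Q) := hQ.to_subgroup _
      exact ((Sylow.mapSurjective hsM V₀).is_maximal' h2 le_top).symm
    have h2 : z ∈ ((Sylow.mapSurjective hsM V₀ : Sylow q Q) : Subgroup Q) := by rw [h1]; trivial
    rw [Sylow.coe_mapSurjective] at h2
    obtain ⟨v, hv, hvz⟩ := h2
    exact ⟨v, hv, hvz⟩
  refine ⟨M, ?_, hdec, hDn, habel, (V₀ : Subgroup M).map M.subtype, ?_, ?_, ?_⟩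
  · refine lt_of_le_of_ne (Subgroup.card_le_card_group _) ?_
    intro h5
    exact hM.1 ((Subgroup.card_eq_iff_eq_top _).1 h5)
  · rintro _ ⟨v, hv, rfl⟩
    exact v.2
  · exact V₀.isPGroup'.map M.subtype
  · intro x hx hv
    apply hcent x hx
    intro g
    obtain ⟨v, hv₀, hvg⟩ := hV₀ (π g)
    have h1 := hv v ⟨v, hv₀, rfl⟩
    have h2 : g * (v : G)⁻¹ ∈ P := by
      rw [hPdef, MonoidHom.mem_ker, map_mul, map_inv, hvg, mul_inv_cancel]
    have h3 := hDn.conj_mem _ h1 (g * (v : G)⁻¹)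
    have h4 := habel _ h2 x hx
    have e : g * x * g⁻¹ * x⁻¹ = (g * (v : G)⁻¹ * (v * x * (v : G)⁻¹ * x⁻¹) * (g * (v : G)⁻¹)⁻¹) *
        (g * (v : G)⁻¹ * x * (g * (v : G)⁻¹)⁻¹ * x⁻¹) := by group
    rw [e]
    exact D.mul_mem h3 h4

end Pool.Agent.Helper813.AF
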