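import Pool.Agent.Helper813.AF.Core

set_option autoImplicit false
set_option linter.unusedSectionVars false
set_option linter.unusedVariables false

namespace Pool.Agent.Helper813.AF

open scoped commutatorElement

/-- fixed points in an abelian normal subgroup -/
lemma fixed_triv {G : Type} [Group G] [Finite G] (A : Subgroup G) (hA : A.Normal)
    (hcomm : ∀ a ∈ A, ∀ b ∈ A, a * b = b * a) (g : G)
    (hgen : ∀ x : G, ∃ a ∈ A, ∃ k : ℤ, x = a * g ^ k) (hint : ∀ k : ℤ, g ^ k ∈ A → g ^ k = 1)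
    (hnc : Subgroup.normalClosure {g} = ⊤) : ∀ a ∈ A, a * g = g * a → a = 1 := by
  -- the commutator map
  let φ : A →* A := MonoidHom.mk' (fun a => ⟨a * g * (a : G)⁻¹ * g⁻¹, by
      have : a * g * (a : G)⁻¹ * g⁻¹ = a * (g * (a : G)⁻¹ * g⁻¹) := by group
      rw [this]
      exact A.mul_mem a.2 (hA.conj_mem _ (A.inv_mem a.2) g)⟩) (by
    intro a b
    apply Subtype.ext
    show (a * b : G) * g * (a * b : G)⁻¹ * g⁻¹ = (a * g * (a : G)⁻¹ * g⁻¹) * (b * g * (b : G)⁻¹ * g⁻¹)
    have h1 : (b * g * (b : G)⁻¹ * g⁻¹) ∈ A := by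
      have : b * g * (b : G)⁻¹ * g⁻¹ = b * (g * (b : G)⁻¹ * g⁻¹) := by group
      rw [this]
      exact A.mul_mem b.2 (hA.conj_mem _ (A.inv_mem b.2) g)
    have h2 : (a * g * (a : G)⁻¹ * g⁻¹) ∈ A := by
      have : a * g * (a : G)⁻¹ * g⁻¹ = a * (g * (a : G)⁻¹ * g⁻¹) := by group
      rw [this]
      exact A.mul_mem a.2 (hA.conj_mem _ (A.inv_mem a.2) g)
    rw [hcomm _ h2 _ h1]
    have h3 := hcomm _ h1 _ a.2
    calc (a * b : G) * g * (a * b : G)⁻¹ * g⁻¹
        = a * (b * g * (b : G)⁻¹ * g⁻¹) * (g * (a : G)⁻¹ * g⁻¹) := by group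
      _ = (b * g * (b : G)⁻¹ * g⁻¹) * a * (g * (a : G)⁻¹ * g⁻¹) := by rw [h3]
      _ = _ := by group)
  have hφ : ∀ a : A, ((φ a : A) : G) = a * g * (a : G)⁻¹ * g⁻¹ := fun a => rfl
  let I : Subgroup G := φ.range.map A.subtype
  have hIA : I ≤ A := by
    rintro _ ⟨x, -, rfl⟩
    exact x.2
  have hI : ∀ a ∈ A, a * g * a⁻¹ * g⁻¹ ∈ I := fun a ha => ⟨φ ⟨a, ha⟩, ⟨⟨a, ha⟩, rfl⟩, rfl⟩
  have hIn : I.Normal := by
    constructor
    rintro _ ⟨_, ⟨a, rfl⟩, rfl⟩ x
    obtain ⟨b, hb, k, rfl⟩ := hgen x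
    show b * g ^ k * (φ a : A) * (b * g ^ k)⁻¹ ∈ I
    rw [hφ]
    have h1 : g ^ k * a * (g ^ k)⁻¹ ∈ A := hA.conj_mem _ a.2 _
    have h2 := hI _ h1
    have e : b * g ^ k * (a * g * (a : G)⁻¹ * g⁻¹) * (b * g ^ k)⁻¹ =
        b * (g ^ k * a * (g ^ k)⁻¹ * g * (g ^ k * a * (g ^ k)⁻¹)⁻¹ * g⁻¹) * b⁻¹ := by
      group
    rw [e, hcomm b hb _ (hIA h2), mul_inv_cancel_right]
    exact h2
  -- the quotient is abelian
  let q := QuotientGroup.mk' I
  have hq : ∀ x, q x = 1 ↔ x ∈ I := fun x => QuotientGroup.eq_one_iff x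
  have hc1 : ∀ a ∈ A, Commute (q a) (q g) := by
    intro a ha
    have h1 := (hq _).2 (hI a ha)
    rw [map_mul, map_mul, map_mul, map_inv, map_inv, mul_inv_eq_one, mul_inv_eq_iff_eq_mul] at h1
    exact h1
  have hc2 : ∀ a ∈ A, ∀ b ∈ A, Commute (q a) (q b) := by
    intro a ha b hb
    show q a * q b = q b * q a
    rw [← map_mul, hcomm a ha b hb, map_mul]
  have hab : ∀ x y : G, x * y * x⁻¹ * y⁻¹ ∈ I := by
    intro x y
    obtain ⟨a, ha, k, rfl⟩ := hgen x
    obtain ⟨b, hb, l, rfl⟩ := hgen y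
    rw [← hq]
    have h1 : Commute (q (a * g ^ k)) (q (b * g ^ l)) := by
      rw [map_mul, map_mul, map_zpow, map_zpow]
      refine Commute.mul_left ?_ ?_
      · exact Commute.mul_right (hc2 a ha b hb) ((hc1 a ha).zpow_right l)
      · exact Commute.mul_right ((hc1 b hb).symm.zpow_left k)
          ((Commute.refl (q g)).zpow_zpow k l)
    simp only [map_mul, map_inv] at h1 ⊢
    rw [h1.eq]; group
  let J : Subgroup G := I ⊔ Subgroup.zpowers g
  have hJn : J.Normal := by
    constructor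
    intro n hn x
    have e : x * n * x⁻¹ = (x * n * x⁻¹ * n⁻¹) * n := by group
    rw [e]
    exact J.mul_mem ((le_sup_left : I ≤ J) (hab x n)) hn
  have hJt : J = ⊤ := by
    rw [← top_le_iff, ← hnc]
    apply Subgroup.normalClosure_le_normal
    rintro _ rfl
    exact (le_sup_right : _ ≤ J) (Subgroup.mem_zpowers _)
  have hsurj : Function.Surjective φ := by
    rintro ⟨a, ha⟩
    have h1 : a ∈ J := by rw [hJt]; trivial
    obtain ⟨i, hi, z, hz, hiz⟩ := Subgroup.mem_sup_of_normal_left.1 h1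
    obtain ⟨k, rfl⟩ := Subgroup.mem_zpowers_iff.1 hz
    have h2 : g ^ k ∈ A := by
      have e : g ^ k = i⁻¹ * a := by rw [← hiz]; group
      rw [e]
      exact A.mul_mem (A.inv_mem (hIA hi)) ha
    rw [hint k h2, mul_one] at hiz
    obtain ⟨_, ⟨b, rfl⟩, hb⟩ := hi
    exact ⟨b, Subtype.ext (hb.trans hiz)⟩
  have hinj : Function.Injective φ := Finite.injective_iff_surjective.2 hsurj
  intro a ha hag
  have h1 : φ ⟨a, ha⟩ = φ 1 := by
    apply Subtype.ext
    rw [map_one, hφ]
    show a * g * a⁻¹ * g⁻¹ = 1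
    rw [hag]; group
  exact congrArg Subtype.val (hinj h1)

lemma cent_le {r : ℕ} [Fact r.Prime] {G : Type} [Group G] [Finite G] (H N : Subgroup G)
    (hH : H.Normal) (hN : N.Normal) (hNH : N ≤ H)
    (hab : ∀ x ∈ H, ∀ y ∈ H, x * y * x⁻¹ * y⁻¹ ∈ N) (R : Sylow r G) (hR : Nat.card R = r)
    (hHR : ∀ g : G, ∃ x ∈ H, ∃ y ∈ (R : Subgroup G), g = x * y)
    (hHRd : ∀ x, x ∈ H → x ∈ (R : Subgroup G) → x = 1)
    (hG1 : Subgroup.normalClosure ((R : Subgroup G) : Set G) = ⊤) :
    ∀ x ∈ H, x ∈ Subgroup.normalizer (R : Set G) → x ∈ N := by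
  obtain ⟨g₀, hg₀, hg₀R⟩ : ∃ g₀ ∈ (R : Subgroup G), ∀ y ∈ (R : Subgroup G), ∃ k : ℤ, g₀ ^ k = y := by
    have hcyc : IsCyclic (R : Subgroup G) := isCyclic_of_prime_card hR
    obtain ⟨g, hg⟩ := hcyc.exists_generator
    refine ⟨g, g.2, ?_⟩
    intro y hy
    obtain ⟨k, hk⟩ := hg ⟨y, hy⟩
    exact ⟨k, congrArg Subtype.val hk⟩
  let q := QuotientGroup.mk' N
  have hq : ∀ x, q x = 1 ↔ x ∈ N := fun x => QuotientGroup.eq_one_iff x
  have hqs : Function.Surjective q := QuotientGroup.mk'_surjective N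
  have hfix : ∀ a ∈ H.map q, a * q g₀ = q g₀ * a → a = 1 := by
    refine fixed_triv (H.map q) (hH.map q hqs) ?_ (q g₀) ?_ ?_ ?_
    · rintro _ ⟨x, hx, rfl⟩ _ ⟨y, hy, rfl⟩
      have h1 := (hq _).2 (hab x hx y hy)
      rw [map_mul, map_mul, map_mul, map_inv, map_inv, mul_inv_eq_one, mul_inv_eq_iff_eq_mul]
        at h1
      exact h1
    · intro x
      obtain ⟨x, rfl⟩ := hqs x
      obtain ⟨a, ha, y, hy, rfl⟩ := hHR x
      obtain ⟨k, rfl⟩ := hg₀R y hy
      exact ⟨q a, ⟨a, ha, rfl⟩, k, by rw [map_mul, map_zpow]⟩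
    · intro k hk
      obtain ⟨a, ha, hak⟩ := hk
      rw [← map_zpow] at hak ⊢
      have h1 : a⁻¹ * g₀ ^ k ∈ N := by rw [← hq, map_mul, map_inv, hak, inv_mul_cancel]
      have h2 : g₀ ^ k ∈ H := by
        have e : g₀ ^ k = a * (a⁻¹ * g₀ ^ k) := by group
        rw [e]
        exact H.mul_mem ha (hNH h1)
      rw [hHRd _ h2 (zpow_mem hg₀ k), map_one]
    · have h1 : (Subgroup.normalClosure {q g₀}).comap q = ⊤ := by
        rw [← top_le_iff, ← hG1]
        apply Subgroup.normalClosure_le_normal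
        intro y hy
        obtain ⟨k, rfl⟩ := hg₀R y hy
        show q (g₀ ^ k) ∈ Subgroup.normalClosure {q g₀}
        rw [map_zpow]
        exact Subgroup.zpow_mem _ (Subgroup.subset_normalClosure (Set.mem_singleton _)) k
      rw [eq_top_iff]
      intro x _
      obtain ⟨x, rfl⟩ := hqs x
      have h2 : x ∈ (Subgroup.normalClosure {q g₀}).comap q := by rw [h1]; trivial
      exact h2
  intro x hx hxn
  have h1 : x * g₀ * x⁻¹ * g₀⁻¹ = 1 := by
    apply hHRd
    · have e : x * g₀ * x⁻¹ * g₀⁻¹ = x * (g₀ * x⁻¹ * g₀⁻¹) := by group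
      rw [e]
      exact H.mul_mem hx (hH.conj_mem _ (H.inv_mem hx) g₀)
    · exact mul_mem ((Subgroup.mem_normalizer_iff.1 hxn g₀).1 hg₀) (inv_mem hg₀)
  rw [mul_inv_eq_one, mul_inv_eq_iff_eq_mul] at h1
  rw [← hq]
  refine hfix (q x) ⟨x, hx, rfl⟩ ?_
  rw [← map_mul, h1, map_mul]

section

variable {F : (G : Type) → [Group G] → Prop} (h : FC F)

include h

theorem FC.Eprime {r t : ℕ} [Fact r.Prime] [Fact t.Prime] (ht : F (Cyc t))
    (hW : ∀ (W : Type) [Group W] [Finite W] (T : Subgroup W), T.Normal → IsPGroup t T →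
      T.index = r → F W) :
    ∀ n, ∀ (G : Type) [Group G] (H : Subgroup G), Nat.card G = n → F G → H.Normal → H.index = r →
      ¬ r ∣ Nat.card H → ¬ t ∣ Nat.card H → (∀ K : Subgroup G, K ≤ H → F K) →
      (∀ T : Subgroup G, T.Normal → Nat.card T ≠ r) →
      ∃ s, s.Prime ∧ s ∣ Nat.card H ∧ E F t s := by
  classical
  intro n
  induction n using Nat.strong_induction_on with
  | _ n ih =>
  intro G _ H hn hG hH hHi hrH htH hK hT
  have hrp : r.Prime := Fact.out
  have htp : t.Prime := Fact.out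
  have fG := (h.fin G hG).1
  have sG := (h.fin G hG).2
  have hcG : Nat.card H * r = Nat.card G := by rw [← hHi]; exact H.card_mul_index
  obtain ⟨R⟩ : Nonempty (Sylow r G) := inferInstance
  have hR : Nat.card R = r := by
    rw [R.card_eq_multiplicity, ← hcG, Nat.factorization_mul Nat.card_pos.ne' hrp.ne_zero]
    simp [Nat.factorization_eq_zero_of_not_dvd hrH, hrp.factorization_self]
  have hcompl : H.IsComplement' (R : Subgroup G) := by
    refine Subgroup.isComplement'_of_coprime ?_ ?_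
    · have e : Nat.card (R : Subgroup G) = r := hR
      rw [e]; exact hcG
    · have e : Nat.card (R : Subgroup G) = r := hR
      rw [e]
      exact ((Nat.Prime.coprime_iff_not_dvd hrp).2 hrH).symm
  have hHR : ∀ g : G, ∃ x ∈ H, ∃ y ∈ (R : Subgroup G), g = x * y := by
    intro g
    obtain ⟨⟨x, y⟩, hxy⟩ := hcompl.2 g
    exact ⟨x, x.2, y, y.2, hxy.symm⟩
  have hHRd : ∀ x, x ∈ H → x ∈ (R : Subgroup G) → x = 1 := by
    intro x hx hx'
    exact (Subgroup.disjoint_def.1 hcompl.disjoint) hx hx'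
  by_cases hG1 : Subgroup.normalClosure ((R : Subgroup G) : Set G) = ⊤
  · -- the main case
    have hHb : H ≠ ⊥ := by
      rintro rfl
      rw [Subgroup.card_bot, one_mul] at hcG
      exact hT ⊤ inferInstance (by rw [Subgroup.card_top]; exact hcG.symm)
    let N : Subgroup G := ⁅H, H⁆
    have hN : N.Normal := inferInstance
    have hNlt : N < H := Group.IsSolvable.commutator_lt_of_ne_bot hHb
    have hab : ∀ x ∈ H, ∀ y ∈ H, x * y * x⁻¹ * y⁻¹ ∈ N := by
      intro x hx y hy
      exact Subgroup.commutator_mem_commutator hx hy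
    have hC := cent_le H N hH hN hNlt.le hab R hR hHR hHRd hG1
    have hNt : ∀ n ∈ N, ∀ ω : G ⧸ (N ⊔ (R : Subgroup G)), n • ω = ω := by
      intro n hn ω
      induction ω using QuotientGroup.induction_on with
      | _ x =>
        show ((n * x : G) : G ⧸ (N ⊔ (R : Subgroup G))) = (x : G ⧸ (N ⊔ (R : Subgroup G)))
        rw [eq_comm, QuotientGroup.eq]
        have e : x⁻¹ * (n * x) = x⁻¹ * n * (x⁻¹)⁻¹ := by group
        rw [e]
        exact (le_sup_left : N ≤ _) (hN.conj_mem n hn x⁻¹)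
    have hsr : ∀ x ∈ H, ∀ ω : G ⧸ (N ⊔ (R : Subgroup G)), x • ω = ω → x ∈ N := by
      intro x hx ω hω
      induction ω using QuotientGroup.induction_on with
      | _ g =>
        have h1 : ((x * g : G) : G ⧸ (N ⊔ (R : Subgroup G))) = (g : G ⧸ (N ⊔ (R : Subgroup G))) := hω
        rw [eq_comm, QuotientGroup.eq] at h1
        obtain ⟨n, hn, y, hy, hny⟩ := Subgroup.mem_sup_of_normal_left.1 h1
        have h2 : g⁻¹ * (x * g) ∈ H := by
          have := hH.conj_mem x hx g⁻¹
          rwa [inv_inv, mul_assoc] at this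
        have h3 : y = 1 := by
          apply hHRd y _ hy
          have e : y = n⁻¹ * (g⁻¹ * (x * g)) := by rw [← hny]; group
          rw [e]
          exact H.mul_mem (H.inv_mem (hNlt.le hn)) h2
        rw [h3, mul_one] at hny
        have e : x = g * n * g⁻¹ := by rw [hny]; group
        rw [e]
        exact hN.conj_mem n hn g
    have hcop : (Nat.card (G ⧸ (N ⊔ (R : Subgroup G)))).Coprime t := by
      rw [Nat.coprime_comm, Nat.Prime.coprime_iff_not_dvd htp]
      intro hd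
      apply htH
      refine hd.trans ?_
      have h1 : Nat.card (G ⧸ (N ⊔ (R : Subgroup G))) * Nat.card ↥(N ⊔ (R : Subgroup G)) =
          Nat.card G := (Subgroup.card_eq_card_quotient_mul_card_subgroup _).symm
      have h2 : r ∣ Nat.card ↥(N ⊔ (R : Subgroup G)) := by
        have := Subgroup.card_dvd_of_le (le_sup_right : (R : Subgroup G) ≤ N ⊔ R)
        have e : Nat.card (R : Subgroup G) = r := hR
        rwa [e] at this
      obtain ⟨d, hd'⟩ := h2
      rw [hd', ← hcG] at h1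
      refine ⟨d, ?_⟩
      have h3 : r * (Nat.card (G ⧸ (N ⊔ (R : Subgroup G))) * d) = r * Nat.card H := by
        rw [mul_comm r (Nat.card H), ← h1]; ring
      exact (Nat.eq_of_mul_eq_mul_left hrp.pos h3).symm
    have hX := h.core sG H N R hG ht hW hN hNlt.le hR hHR htH hcop hC
      (fun x hx _ y _ => hH.conj_mem x hx y) (hK _ inf_le_left)
    exact h.core2 H N hH hN hNlt.le hNlt.ne hab hNt hsr hK hX
  · -- pass to the normal closure
    set G₁ := Subgroup.normalClosure ((R : Subgroup G) : Set G) with hG₁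
    have hG₁n : G₁.Normal := Subgroup.normalClosure_normal
    have hRG₁ : (R : Subgroup G) ≤ G₁ := Subgroup.subset_normalClosure
    have hmapH : ∀ K : Subgroup G₁, K ≤ H.subgroupOf G₁ → K.map G₁.subtype ≤ H := by
      rintro K hKH _ ⟨x, hx, rfl⟩
      exact hKH hx
    have hcardH : Nat.card (H.subgroupOf G₁) ∣ Nat.card H := by
      have h1 := Subgroup.card_dvd_of_le (hmapH _ le_rfl)
      rwa [Subgroup.card_map_of_injective G₁.subtype_injective] at h1
    have hsup : H ⊔ G₁ = ⊤ := by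
      rw [eq_top_iff, ← hcompl.sup_eq_top]
      exact sup_le_sup le_rfl hRG₁
    have hidx : (H.subgroupOf G₁).index = r := by
      have h1 : H.relIndex (G₁ ⊔ H) = H.relIndex G₁ := Subgroup.relIndex_sup_right G₁ H
      rw [sup_comm, hsup, Subgroup.relIndex_top_right, hHi] at h1
      exact h1.symm
    have hlt : Nat.card G₁ < n := by
      rw [← hn]
      refine lt_of_le_of_ne (Subgroup.card_le_card_group _) ?_
      intro h5
      exact hG1 ((Subgroup.card_eq_iff_eq_top _).1 h5)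
    have hkey := ih (Nat.card G₁) hlt G₁ (H.subgroupOf G₁) rfl (h.sn G G₁ hG₁n hG)
      (hH.subgroupOf G₁) hidx (fun hd => hrH (hd.trans hcardH)) (fun hd => htH (hd.trans hcardH))
      ?_ ?_
    · obtain ⟨s, hs, hsd, hE⟩ := hkey
      exact ⟨s, hs, hsd.trans hcardH, hE⟩
    · intro K hKH
      exact h.of_equiv (K.equivMapOfInjective G₁.subtype G₁.subtype_injective).symm
        (hK _ (hmapH K hKH))
    · intro T hTn hTc
      have hcG₁ : Nat.card (H.subgroupOf G₁) * r = Nat.card G₁ := by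
        rw [← hidx]; exact (H.subgroupOf G₁).card_mul_index
      have hTi : T.index = Nat.card (H.subgroupOf G₁) := by
        have h1 := T.card_mul_index
        rw [hTc, ← hcG₁, mul_comm] at h1
        exact Nat.eq_of_mul_eq_mul_right hrp.pos h1
      have hcop : Nat.Coprime r (T.index) := by
        rw [hTi, Nat.Prime.coprime_iff_not_dvd hrp]
        exact fun hd => hrH (hd.trans hcardH)
      have hTmem : ∀ x : G₁, x ∈ T ↔ x ^ r = 1 := by
        intro x
        constructor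
        · intro hx
          have h1 : (⟨x, hx⟩ : T) ^ Nat.card T = 1 := pow_card_eq_one'
          rw [hTc] at h1
          exact congrArg Subtype.val h1
        · intro hx
          rw [← QuotientGroup.eq_one_iff (N := T)]
          have h1 : ((x : G₁ ⧸ T)) ^ r = 1 := by
            rw [← QuotientGroup.mk_pow, hx, QuotientGroup.mk_one]
          have h2 : ((x : G₁ ⧸ T)) ^ T.index = 1 := by
            have : ((x : G₁ ⧸ T)) ^ Nat.card (G₁ ⧸ T) = 1 := pow_card_eq_one'
            exact this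
          have h3 : orderOf (x : G₁ ⧸ T) ∣ Nat.gcd r T.index :=
            Nat.dvd_gcd (orderOf_dvd_of_pow_eq_one h1) (orderOf_dvd_of_pow_eq_one h2)
          rw [hcop] at h3
          exact orderOf_eq_one_iff.1 (Nat.dvd_one.1 h3)
      refine hT (T.map G₁.subtype) ?_ ?_
      · constructor
        rintro _ ⟨x, hx, rfl⟩ g
        refine ⟨⟨g * x * g⁻¹, hG₁n.conj_mem x x.2 g⟩, ?_, rfl⟩
        show _ ∈ T
        rw [hTmem]
        apply Subtype.ext
        show (g * x * g⁻¹) ^ r = 1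
        have h1 := congrArg Subtype.val ((hTmem x).1 hx)
        have h2 : (x : G) ^ r = 1 := h1
        rw [conj_pow, h2]; group
      · rw [Subgroup.card_map_of_injective G₁.subtype_injective]
        exact hTc

end

end Pool.Agent.Helper813.AF
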