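import Pool.Agent.Helper813.AF.Rel

set_option autoImplicit false
set_option linter.unusedSectionVars false
set_option linter.unusedVariables false

namespace Pool.Agent.Helper813.AF

open scoped commutatorElement

lemma card_sup_dvd {G : Type} [Group G] [Finite G] (A B : Subgroup G) (hA : A.Normal) :
    Nat.card ↥(A ⊔ B) ∣ Nat.card A * Nat.card B := by
  have h1 := (A.subgroupOf (A ⊔ B)).card_mul_index
  have h2 : Nat.card (A.subgroupOf (A ⊔ B)) = Nat.card A :=
    Nat.card_congr (Subgroup.subgroupOfEquivOfLe le_sup_left).toEquiv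
  have h3 : (A.subgroupOf (A ⊔ B)).index = A.relIndex B := by
    have h4 : A.relIndex (B ⊔ A) = A.relIndex B := Subgroup.relIndex_sup_right B A
    rw [sup_comm] at h4
    exact h4
  rw [← h1, h2, h3]
  exact Nat.mul_dvd_mul_left _ (Subgroup.relIndex_dvd_card A B)

/-- decomposition along a set of primes -/
def Dcp (σ : Set ℕ) (G : Type) [Group G] : Prop :=
  ∃ S T : Subgroup G, S.Normal ∧ T.Normal ∧ S ⊔ T = ⊤ ∧
    (∀ p, p.Prime → p ∣ Nat.card S → p ∈ σ) ∧ (∀ p, p.Prime → p ∣ Nat.card T → p ∉ σ)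

lemma coprime_of_sets {σ : Set ℕ} {a b : ℕ} (ha : ∀ p, p.Prime → p ∣ a → p ∈ σ)
    (hb : ∀ p, p.Prime → p ∣ b → p ∉ σ) : Nat.Coprime a b := by
  rw [Nat.coprime_iff_gcd_eq_one]
  by_contra hne
  obtain ⟨p, hp, hd⟩ := Nat.exists_prime_and_dvd hne
  exact hb p hp (hd.trans (Nat.gcd_dvd_right _ _)) (ha p hp (hd.trans (Nat.gcd_dvd_left _ _)))

/-- components of a product decomposition are powers -/
lemma comp_pow {G : Type} [Group G] {S T : Subgroup G} (hS : S.Normal) (hT : T.Normal)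
    (hcop : (Nat.card S).Coprime (Nat.card T)) {x s t : G} (hs : s ∈ S) (ht : t ∈ T)
    (hx : x = s * t) : ∃ m : ℤ, s = x ^ m ∧ ∃ n : ℤ, t = x ^ n := by
  have hd : Disjoint S T := Subgroup.disjoint_of_coprime_natCard hcop
  have hc : Commute s t := Subgroup.commute_of_normal_of_disjoint S T hS hT hd s t hs ht
  have hsa : s ^ Nat.card S = 1 := by
    have h3 : (⟨s, hs⟩ : S) ^ Nat.card S = 1 := pow_card_eq_one'
    exact congrArg Subtype.val h3
  have htb : t ^ Nat.card T = 1 := by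
    have h3 : (⟨t, ht⟩ : T) ^ Nat.card T = 1 := pow_card_eq_one'
    exact congrArg Subtype.val h3
  have hbez : (1 : ℤ) = Nat.card S * Nat.gcdA (Nat.card S) (Nat.card T) +
      Nat.card T * Nat.gcdB (Nat.card S) (Nat.card T) := by
    have := Nat.gcd_eq_gcd_ab (Nat.card S) (Nat.card T)
    rw [hcop] at this
    simpa using this
  have e1 : ∀ k : ℤ, s ^ ((Nat.card S : ℤ) * k) = 1 := by
    intro k; rw [zpow_mul, zpow_natCast, hsa, one_zpow]
  have e2 : ∀ k : ℤ, t ^ ((Nat.card T : ℤ) * k) = 1 := by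
    intro k; rw [zpow_mul, zpow_natCast, htb, one_zpow]
  have e3 : s = s ^ ((Nat.card T : ℤ) * Nat.gcdB (Nat.card S) (Nat.card T)) := by
    calc s = s ^ (1 : ℤ) := (zpow_one s).symm
      _ = _ := by rw [hbez, zpow_add, e1, one_mul]
  have e4 : t = t ^ ((Nat.card S : ℤ) * Nat.gcdA (Nat.card S) (Nat.card T)) := by
    calc t = t ^ (1 : ℤ) := (zpow_one t).symm
      _ = _ := by rw [hbez, zpow_add, e2, mul_one]
  refine ⟨(Nat.card T : ℤ) * Nat.gcdB (Nat.card S) (Nat.card T), ?_,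
    (Nat.card S : ℤ) * Nat.gcdA (Nat.card S) (Nat.card T), ?_⟩
  · rw [hx, hc.mul_zpow, e2, mul_one, ← e3]
  · rw [hx, hc.mul_zpow, e1, one_mul, ← e4]

lemma mem_iff_pow {G : Type} [Group G] {S T : Subgroup G} (hS : S.Normal) (hT : T.Normal)
    (hsup : S ⊔ T = ⊤) (hcop : (Nat.card S).Coprime (Nat.card T)) (x : G) :
    x ∈ S ↔ x ^ Nat.card S = 1 := by
  constructor
  · intro hx
    have h3 : (⟨x, hx⟩ : S) ^ Nat.card S = 1 := pow_card_eq_one'
    exact congrArg Subtype.val h3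
  · intro hx
    have h1 : x ∈ S ⊔ T := by rw [hsup]; trivial
    obtain ⟨s, hs, t, ht, hst⟩ := Subgroup.mem_sup_of_normal_left.1 h1
    obtain ⟨m, -, n, hn⟩ := comp_pow hS hT hcop hs ht hst.symm
    have h2 : t ^ Nat.card S = 1 := by
      rw [hn, ← zpow_natCast, ← zpow_mul, mul_comm, zpow_mul, zpow_natCast, hx, one_zpow]
    have h3 : t ^ Nat.card T = 1 := by
      have h3 : (⟨t, ht⟩ : T) ^ Nat.card T = 1 := pow_card_eq_one'
      exact congrArg Subtype.val h3
    have h4 : orderOf t ∣ Nat.gcd (Nat.card S) (Nat.card T) :=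
      Nat.dvd_gcd (orderOf_dvd_of_pow_eq_one h2) (orderOf_dvd_of_pow_eq_one h3)
    rw [hcop] at h4
    have h5 := orderOf_eq_one_iff.1 (Nat.dvd_one.1 h4)
    rw [← hst, h5, mul_one]
    exact hs

lemma Dcp.surj {σ : Set ℕ} {G H : Type} [Group G] [Group H] (hG : Dcp σ G) (f : G →* H)
    (hf : Function.Surjective f) : Dcp σ H := by
  obtain ⟨S, T, hS, hT, hsup, h1, h2⟩ := hG
  refine ⟨S.map f, T.map f, hS.map f hf, hT.map f hf, ?_, ?_, ?_⟩
  · rw [← Subgroup.map_sup, hsup, Subgroup.map_top_of_surjective f hf]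
  · intro p hp hd
    exact h1 p hp (hd.trans (Subgroup.card_map_dvd _ _))
  · intro p hp hd
    exact h2 p hp (hd.trans (Subgroup.card_map_dvd _ _))

lemma Dcp.inj {σ : Set ℕ} {G K : Type} [Group G] [Group K] (hG : Dcp σ G) (f : K →* G)
    (hf : Function.Injective f) : Dcp σ K := by
  obtain ⟨S, T, hS, hT, hsup, h1, h2⟩ := hG
  have hcop := coprime_of_sets h1 h2
  refine ⟨S.comap f, T.comap f, hS.comap f, hT.comap f, ?_, ?_, ?_⟩
  · rw [eq_top_iff]
    intro x _
    have h3 : f x ∈ S ⊔ T := by rw [hsup]; trivial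
    obtain ⟨s, hs, t, ht, hst⟩ := Subgroup.mem_sup_of_normal_left.1 h3
    obtain ⟨m, hm, n, hn⟩ := comp_pow hS hT hcop hs ht hst.symm
    have e : x = x ^ m * x ^ n := by
      apply hf
      rw [map_mul, map_zpow, map_zpow, ← hm, ← hn, hst]
    rw [e]
    refine Subgroup.mul_mem_sup ?_ ?_
    · rw [Subgroup.mem_comap, map_zpow, ← hm]; exact hs
    · rw [Subgroup.mem_comap, map_zpow, ← hn]; exact ht
  · intro p hp hd
    exact h1 p hp (hd.trans (Subgroup.card_comap_dvd_of_injective _ _ hf))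
  · intro p hp hd
    exact h2 p hp (hd.trans (Subgroup.card_comap_dvd_of_injective _ _ hf))

lemma Dcp.prod {σ : Set ℕ} {G H : Type} [Group G] [Group H] (hG : Dcp σ G) (hH : Dcp σ H) :
    Dcp σ (G × H) := by
  obtain ⟨S, T, hS, hT, hsup, h1, h2⟩ := hG
  obtain ⟨S', T', hS', hT', hsup', h1', h2'⟩ := hH
  have hcard : ∀ (A : Subgroup G) (B : Subgroup H), Nat.card (A.prod B) = Nat.card A * Nat.card B := by
    intro A B
    rw [Nat.card_congr (Subgroup.prodEquiv A B).toEquiv, Nat.card_prod]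
  refine ⟨S.prod S', T.prod T', inferInstance, inferInstance, ?_, ?_, ?_⟩
  · rw [eq_top_iff]
    rintro ⟨g, k⟩ _
    have h3 : g ∈ S ⊔ T := by rw [hsup]; trivial
    have h4 : k ∈ S' ⊔ T' := by rw [hsup']; trivial
    obtain ⟨s, hs, t, ht, hst⟩ := Subgroup.mem_sup_of_normal_left.1 h3
    obtain ⟨s', hs', t', ht', hst'⟩ := Subgroup.mem_sup_of_normal_left.1 h4
    have e : ((g, k) : G × H) = (s, s') * (t, t') := by
      rw [Prod.mk_mul_mk, hst, hst']
    rw [e]
    exact Subgroup.mul_mem_sup (Subgroup.mem_prod.2 ⟨hs, hs'⟩) (Subgroup.mem_prod.2 ⟨ht, ht'⟩)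
  · intro p hp hd
    rw [hcard, hp.dvd_mul] at hd
    rcases hd with hd | hd
    · exact h1 p hp hd
    · exact h1' p hp hd
  · intro p hp hd
    rw [hcard, hp.dvd_mul] at hd
    rcases hd with hd | hd
    · exact h2 p hp hd
    · exact h2' p hp hd

lemma Dcp.top {σ : Set ℕ} {G : Type} [Group G] (hG : ∀ p, p.Prime → p ∣ Nat.card G → p ∈ σ) :
    Dcp σ G := by
  refine ⟨⊤, ⊥, inferInstance, inferInstance, by simp, ?_, ?_⟩
  · intro p hp hd
    rw [Subgroup.card_top] at hd
    exact hG p hp hd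
  · intro p hp hd
    rw [Subgroup.card_bot] at hd
    exact absurd (Nat.dvd_one.1 hd) hp.one_lt.ne'

lemma Dcp.bot {σ : Set ℕ} {G : Type} [Group G] (hG : ∀ p, p.Prime → p ∣ Nat.card G → p ∉ σ) :
    Dcp σ G := by
  refine ⟨⊥, ⊤, inferInstance, inferInstance, by simp, ?_, ?_⟩
  · intro p hp hd
    rw [Subgroup.card_bot] at hd
    exact absurd (Nat.dvd_one.1 hd) hp.one_lt.ne'
  · intro p hp hd
    rw [Subgroup.card_top] at hd
    exact hG p hp hd

/-- the components of a normal subgroup are normal in the whole group -/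
lemma map_comp_normal {G : Type} [Group G] {N : Subgroup G} (hN : N.Normal) {S T : Subgroup N}
    (hS : S.Normal) (hT : T.Normal)
    (hsup : S ⊔ T = ⊤) (hcop : (Nat.card S).Coprime (Nat.card T)) :
    (S.map N.subtype).Normal := by
  constructor
  rintro _ ⟨x, hx, rfl⟩ g
  refine ⟨⟨g * x * g⁻¹, hN.conj_mem x x.2 g⟩, ?_, rfl⟩
  show _ ∈ S
  rw [mem_iff_pow hS hT hsup hcop]
  have h1 := (mem_iff_pow hS hT hsup hcop x).1 hx
  have h2 : (x : G) ^ Nat.card S = 1 := congrArg Subtype.val h1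
  apply Subtype.ext
  show (g * x * g⁻¹) ^ Nat.card S = 1
  rw [conj_pow, h2]; group

lemma Dcp.join {σ : Set ℕ} {G : Type} [Group G] [Finite G] {N M : Subgroup G} (hN : N.Normal)
    (hM : M.Normal) (hNM : N ⊔ M = ⊤) (h1 : Dcp σ N) (h2 : Dcp σ M) : Dcp σ G := by
  obtain ⟨S, T, hS, hT, hsup, hs, ht⟩ := h1
  obtain ⟨S', T', hS', hT', hsup', hs', ht'⟩ := h2
  have hcop := coprime_of_sets hs ht
  have hcop' := coprime_of_sets hs' ht'
  have n1 := map_comp_normal hN hS hT hsup hcop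
  have n2 := map_comp_normal hM hS' hT' hsup' hcop'
  have n3 := map_comp_normal hN hT hS (by rw [sup_comm]; exact hsup) hcop.symm
  have n4 := map_comp_normal hM hT' hS' (by rw [sup_comm]; exact hsup') hcop'.symm
  refine ⟨S.map N.subtype ⊔ S'.map M.subtype, T.map N.subtype ⊔ T'.map M.subtype, inferInstance,
    inferInstance, ?_, ?_, ?_⟩
  · have e1 : N = S.map N.subtype ⊔ T.map N.subtype := by
      rw [← Subgroup.map_sup, hsup, ← MonoidHom.range_eq_map, Subgroup.range_subtype]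
    have e2 : M = S'.map M.subtype ⊔ T'.map M.subtype := by
      rw [← Subgroup.map_sup, hsup', ← MonoidHom.range_eq_map, Subgroup.range_subtype]
    rw [sup_sup_sup_comm, ← e1, ← e2, hNM]
  · intro p hp hd
    have h3 := hd.trans (card_sup_dvd _ _ n1)
    rw [Subgroup.card_map_of_injective N.subtype_injective,
      Subgroup.card_map_of_injective M.subtype_injective, hp.dvd_mul] at h3
    rcases h3 with h3 | h3
    · exact hs p hp h3
    · exact hs' p hp h3
  · intro p hp hd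
    have h3 := hd.trans (card_sup_dvd _ _ n3)
    rw [Subgroup.card_map_of_injective N.subtype_injective,
      Subgroup.card_map_of_injective M.subtype_injective, hp.dvd_mul] at h3
    rcases h3 with h3 | h3
    · exact ht p hp h3
    · exact ht' p hp h3

/-- closed sets of primes -/
def Clo (F : (G : Type) → [Group G] → Prop) (σ : Set ℕ) : Prop :=
  ∀ p q, rel F p q → p ∈ σ → q ∈ σ

/-- the class attached to the relation -/
def Lam (F : (G : Type) → [Group G] → Prop) (G : Type) [Group G] : Prop :=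
  ∀ σ, Clo F σ → Dcp σ G

end Pool.Agent.Helper813.AF
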