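import Pool.Agent.Helper813.AF.Abn
import Pool.Agent.Helper813.Wreath

set_option autoImplicit false
set_option linter.unusedSectionVars false

namespace Pool.Agent.Helper813.AF

open scoped commutatorElement

/-- cyclic group of order `n` -/
abbrev Cyc (n : ℕ) : Type := Multiplicative (ZMod n)

lemma card_Cyc (n : ℕ) : Nat.card (Cyc n) = n := by
  rw [Nat.card_congr (Multiplicative.toAdd : Multiplicative (ZMod n) ≃ ZMod n), Nat.card_zmod]

section

variable {F : (G : Type) → [Group G] → Prop} (h : FC F)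

include h

lemma FC.of_card {p : ℕ} [Fact p.Prime] {G : Type} [Group G] (hG : Nat.card G = p)
    (hc : F (Cyc p)) : F G :=
  h.of_equiv (mulEquivOfPrimeCardEq (card_Cyc p) hG) hc

lemma FC.to_cyc {p : ℕ} [Fact p.Prime] {G : Type} [Group G] (hG : Nat.card G = p)
    (hc : F G) : F (Cyc p) :=
  h.of_equiv (mulEquivOfPrimeCardEq hG (card_Cyc p)) hc

lemma FC.nsub {G : Type} [Group G] {K H : Subgroup G} (hKH : K ≤ H)
    (hn : ∀ x ∈ K, ∀ y ∈ H, y * x * y⁻¹ ∈ K) (hH : F H) : F K := by
  refine h.of_inj (Subgroup.inclusion hKH) (Subgroup.inclusion_injective hKH) ?_ hH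
  constructor
  rintro _ ⟨x, rfl⟩ y
  exact ⟨⟨y * x * y⁻¹, hn x x.2 y y.2⟩, rfl⟩

lemma FC.join {G : Type} [Group G] [Finite G] {N M B : Subgroup G} (hN : N ≤ B) (hM : M ≤ B)
    (nN : ∀ b ∈ B, ∀ x ∈ N, b * x * b⁻¹ ∈ N) (nM : ∀ b ∈ B, ∀ x ∈ M, b * x * b⁻¹ ∈ M)
    (FN : F N) (FM : F M) (hB : ∀ b ∈ B, ∃ x ∈ N, ∃ y ∈ M, b = x * y) : F B := by
  refine h.prod_top (N := N.subgroupOf B) (M := M.subgroupOf B) ?_ ?_
    (h.of_equiv (Subgroup.subgroupOfEquivOfLe hN).symm FN)
    (h.of_equiv (Subgroup.subgroupOfEquivOfLe hM).symm FM) ?_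
  · constructor
    intro x hx b
    exact nN b b.2 x hx
  · constructor
    intro x hx b
    exact nM b b.2 x hx
  · rw [eq_top_iff]
    rintro b _
    obtain ⟨x, hx, y, hy, hb⟩ := hB b b.2
    have : b = (⟨x, hN hx⟩ : B) * ⟨y, hM hy⟩ := Subtype.ext hb
    rw [this]
    exact Subgroup.mul_mem_sup hx hy

/-- prime divisors of orders of members of `F` -/
lemma FC.char {p : ℕ} [Fact p.Prime] : ∀ n, ∀ (G : Type) [Group G], Nat.card G = n → F G →
    p ∣ Nat.card G → F (Cyc p) := by
  intro n
  induction n using Nat.strong_induction_on with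
  | _ n ih =>
  intro G _ hn hG hp
  have fG := (h.fin G hG).1
  have sG := (h.fin G hG).2
  by_cases h1 : p ∣ Nat.card (Abelianization G)
  · have hq : F (Abelianization G) :=
      h.abq (Abelianization.of) (QuotientGroup.mk'_surjective _)
        (fun x y => mul_comm x y) hG
    obtain ⟨x, hx⟩ := exists_prime_orderOf_dvd_card' p h1
    have hxn : (Subgroup.zpowers x).Normal := inferInstance
    exact h.to_cyc (G := Subgroup.zpowers x) (by rw [Nat.card_zpowers, hx]) (h.sn _ _ hxn hq)
  · have h2 : p ∣ Nat.card (commutator G) := by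
      have h3 := Subgroup.card_eq_card_quotient_mul_card_subgroup (commutator G)
      rw [h3] at hp
      rcases (Fact.out : p.Prime).dvd_mul.1 hp with h4 | h4
      · exact absurd h4 h1
      · exact h4
    have hnt : Nontrivial G := by
      by_contra hcon
      rw [not_nontrivial_iff_subsingleton] at hcon
      have h5 : Nat.card G = 1 := Nat.card_of_subsingleton 1
      rw [h5] at hp
      exact (Fact.out : p.Prime).one_lt.ne' (Nat.dvd_one.1 hp)
    have h3 : Nat.card (commutator G) < Nat.card G := by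
      have h4 := Group.IsSolvable.commutator_lt_top_of_nontrivial G
      refine lt_of_le_of_ne (Subgroup.card_le_card_group _) ?_
      intro h5
      exact h4.ne ((Subgroup.card_eq_iff_eq_top _).1 h5)
    rw [hn] at h3
    exact ih _ h3 (commutator G) rfl (h.sn _ _ inferInstance hG) h2

/-- every group with all coatoms normal is in `F`, given the cyclic ones -/
lemma FC.of_cyclic {p : ℕ} [Fact p.Prime] (k : ℕ)
    (hc : ∀ (C : Type) [Group C], IsCyclic C → (∃ j ≤ k, Nat.card C = p ^ j) → F C) :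
    ∀ n, ∀ (P : Type) [Group P] [Finite P], Nat.card P = n → IsPGroup p P →
      (∀ x : P, x ^ (p ^ k) = 1) → F P := by
  intro n
  induction n using Nat.strong_induction_on with
  | _ n ih =>
  intro P _ _ hn hP hx
  by_cases hcyc : IsCyclic P
  · refine hc P hcyc ?_
    obtain ⟨g, hg⟩ := hcyc.exists_ofOrder_eq_natCard
    obtain ⟨j, hj⟩ := IsPGroup.iff_card.1 hP
    refine ⟨j, ?_, hj⟩
    have h1 : orderOf g ∣ p ^ k := orderOf_dvd_of_pow_eq_one (hx g)
    rw [hg, hj] at h1
    exact (Nat.pow_dvd_pow_iff_le_right (Fact.out : p.Prime).one_lt).1 h1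
  · have hnil : Group.IsNilpotent P := hP.isNilpotent
    have hmax : ∀ M : Subgroup P, IsCoatom M → M.Normal :=
      (Group.isNilpotent_of_finite_tfae.out 0 2).1 hnil
    have hlt : ∀ M : Subgroup P, IsCoatom M → F M := by
      intro M hM
      refine ih (Nat.card M) ?_ M rfl (hP.to_subgroup M) ?_
      · rw [← hn]
        refine lt_of_le_of_ne (Subgroup.card_le_card_group _) ?_
        intro h5
        exact hM.1 ((Subgroup.card_eq_iff_eq_top _).1 h5)
      · intro x
        apply Subtype.ext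
        simpa using hx x
    -- two distinct coatoms
    have hnt : (⊥ : Subgroup P) ≠ ⊤ := by
      intro hbt
      apply hcyc
      have : Subsingleton P := by
        refine ⟨fun a b => ?_⟩
        have ha : a ∈ (⊥ : Subgroup P) := by rw [hbt]; trivial
        have hb : b ∈ (⊥ : Subgroup P) := by rw [hbt]; trivial
        rw [Subgroup.mem_bot] at ha hb
        rw [ha, hb]
      infer_instance
    obtain ⟨M, hM, -⟩ := (eq_top_or_exists_le_coatom (⊥ : Subgroup P)).resolve_left hnt
    obtain ⟨x, hxM⟩ : ∃ x : P, x ∉ M := by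
      by_contra hcon
      push Not at hcon
      exact hM.1 (eq_top_iff.2 (fun x _ => hcon x))
    have hz : Subgroup.zpowers x ≠ ⊤ := by
      intro hz
      apply hcyc
      exact ⟨x, fun y => by
        have : y ∈ Subgroup.zpowers x := by rw [hz]; trivial
        exact this⟩
    obtain ⟨M', hM', hxM'⟩ := (eq_top_or_exists_le_coatom (Subgroup.zpowers x)).resolve_left hz
    have hne : M ≠ M' := by
      intro hne
      apply hxM
      rw [hne]
      exact hxM' (Subgroup.mem_zpowers x)
    exact h.prod_top (hmax M hM) (hmax M' hM') (hlt M hM) (hlt M' hM')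
      (hM.sup_eq_top_of_ne hM' hne)

end

lemma X_decomp {Y Ω S : Type} [Group Y] [Group S] [MulAction Y Ω] (x : X Y Ω S) :
    x = ⟨x.k, 1⟩ * ⟨fun _ => 1, x.y⟩ := by
  apply X.ext
  · funext ω; simp
  · simp

lemma X_decomp' {Y Ω S : Type} [Group Y] [Group S] [MulAction Y Ω] (x : X Y Ω S) :
    x = ⟨fun _ => 1, x.y⟩ * ⟨fun ω => x.k (x.y • ω), 1⟩ := by
  apply X.ext
  · funext ω; simp
  · simp

lemma X_pow_y {Y Ω S : Type} [Group Y] [Group S] [MulAction Y Ω] (x : X Y Ω S) (n : ℕ) :
    (x ^ n).y = x.y ^ n := map_pow X.pr x n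

lemma X_pow_k {Y Ω S : Type} [Group Y] [CommGroup S] [MulAction Y Ω] (x : X Y Ω S) (n : ℕ) (ω : Ω) :
    (x ^ n).k ω = ∏ i ∈ Finset.range n, x.k ((x.y ^ i)⁻¹ • ω) := by
  induction n with
  | zero => simp
  | succ n ih => rw [pow_succ, X.mul_k, ih, X_pow_y, Finset.prod_range_succ]

/-- the product of all coordinates -/
def X.tot {Y Ω S : Type} [Group Y] [CommGroup S] [MulAction Y Ω] [Fintype Ω] : X Y Ω S →* S where
  toFun x := ∏ ω, x.k ω
  map_one' := by simp
  map_mul' := by
    intro a b
    simp only [X.mul_k, Finset.prod_mul_distrib]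
    congr 1
    exact Fintype.prod_equiv (MulAction.toPerm a.y⁻¹) _ _ (fun _ => rfl)

lemma X.tot_apply {Y Ω S : Type} [Group Y] [CommGroup S] [MulAction Y Ω] [Fintype Ω]
    (x : X Y Ω S) : X.tot x = ∏ ω, x.k ω := rfl

/-- constant functions -/
def X.cst {Y Ω S : Type} [Group Y] [Group S] [MulAction Y Ω] : S →* X Y Ω S where
  toFun s := ⟨fun _ => s, 1⟩
  map_one' := rfl
  map_mul' a b := by
    apply X.ext
    · funext ω; simp
    · simp

@[simp] lemma X.cst_k {Y Ω S : Type} [Group Y] [Group S] [MulAction Y Ω] (s : S) (ω : Ω) :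
    (X.cst s : X Y Ω S).k ω = s := rfl
@[simp] lemma X.cst_y {Y Ω S : Type} [Group Y] [Group S] [MulAction Y Ω] (s : S) :
    (X.cst s : X Y Ω S).y = 1 := rfl

lemma X_pow_p {p : ℕ} [Fact p.Prime] {S : Type} [CommGroup S] (x : X (Cyc p) (Cyc p) S)
    (hy : x.y ≠ 1) : x ^ p = X.cst (X.tot x) := by
  apply X.ext
  · funext ω
    rw [X_pow_k, X.cst_k, X.tot_apply]
    have hord : orderOf x.y = p := by
      have h1 : orderOf x.y ∣ p := by
        have := orderOf_dvd_natCard x.y
        rwa [card_Cyc] at this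
      rcases (Nat.dvd_prime (Fact.out : p.Prime)).1 h1 with h2 | h2
      · exact absurd (orderOf_eq_one_iff.1 h2) hy
      · exact h2
    rw [Finset.prod_range]
    have hb : Function.Bijective (fun i : Fin p => (x.y ^ (i : ℕ))⁻¹ • ω) := by
      rw [Fintype.bijective_iff_injective_and_card]
      constructor
      · intro i j hij
        have h1 : (x.y ^ (i : ℕ))⁻¹ = (x.y ^ (j : ℕ))⁻¹ := mul_right_cancel hij
        have h2 := inv_injective h1
        apply Fin.ext
        refine pow_injOn_Iio_orderOf (x := x.y) ?_ ?_ h2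
        · rw [hord]; exact i.2
        · rw [hord]; exact j.2
      · rw [Fintype.card_fin, ← Nat.card_eq_fintype_card, card_Cyc]
    exact Function.Bijective.prod_comp hb x.k
  · rw [X_pow_y]
    have : x.y ^ Nat.card (Cyc p) = 1 := pow_card_eq_one'
    rw [card_Cyc] at this
    exact this

section

variable {F : (G : Type) → [Group G] → Prop} (h : FC F)

include h

lemma FC.sub_nil : ∀ n, ∀ (G : Type) [Group G] [Finite G], Nat.card G = n →
    Group.IsNilpotent G → F G → ∀ K : Subgroup G, F K := by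
  intro n
  induction n using Nat.strong_induction_on with
  | _ n ih =>
  intro G _ _ hn hG hF K
  by_cases hK : K = ⊤
  · subst hK
    exact h.of_equiv Subgroup.topEquiv.symm hF
  · obtain ⟨M, hM, hKM⟩ := (eq_top_or_exists_le_coatom K).resolve_left hK
    have hmax : ∀ M : Subgroup G, IsCoatom M → M.Normal :=
      (Group.isNilpotent_of_finite_tfae.out 0 2).1 hG
    have hMn : M.Normal := hmax M hM
    have h1 : F M := h.sn _ M hMn hF
    have h2 : Nat.card M < n := by
      rw [← hn]
      refine lt_of_le_of_ne (Subgroup.card_le_card_group _) ?_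
      intro h5
      exact hM.1 ((Subgroup.card_eq_iff_eq_top _).1 h5)
    have h3 := ih _ h2 M rfl inferInstance h1 (K.subgroupOf M)
    exact h.of_equiv (Subgroup.subgroupOfEquivOfLe hKM) h3

lemma FC.cyc_step {p : ℕ} [Fact p.Prime] (j : ℕ)
    (ih : ∀ (P : Type) [Group P] [Finite P], IsPGroup p P → (∀ x : P, x ^ (p ^ (j + 1)) = 1) → F P)
    (S : Type) [CommGroup S] [Finite S] (hSp : ∀ s : S, s ^ (p ^ (j + 1)) = 1) (w : S)
    (hw : w ^ (p ^ j) ≠ 1) (C : Type) [Group C] (hC : IsCyclic C) (hCi : Nat.card C = p ^ (j + 2)) :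
    F C := by
  have hpp : p.Prime := Fact.out
  let W := X (Cyc p) (Cyc p) S
  have hYp : ∀ s : Cyc p, s ^ p = 1 := by
    intro s
    have : s ^ Nat.card (Cyc p) = 1 := pow_card_eq_one'
    rw [card_Cyc] at this
    exact this
  have hbase : ∀ x : W, x.y = 1 → x ^ (p ^ (j + 1)) = 1 := by
    intro x hx
    apply X.ext
    · funext ω
      rw [X_pow_k, hx]
      simp only [one_pow, inv_one, one_smul, Finset.prod_const, Finset.card_range, X.one_k]
      exact hSp _
    · rw [X_pow_y, hx]; simp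
  have hWp : IsPGroup p W := by
    intro x
    refine ⟨j + 2, ?_⟩
    rw [pow_succ', pow_mul]
    apply hbase
    rw [X_pow_y]
    exact hYp _
  let M' : Subgroup W := (powMonoidHom (p ^ j) : S →* S).ker.comap X.tot
  have hM' : ∀ x : W, x ∈ M' → x ^ (p ^ (j + 1)) = 1 := by
    intro x hx
    by_cases hy : x.y = 1
    · exact hbase x hy
    · rw [pow_succ', pow_mul, X_pow_p x hy, ← map_pow]
      have : (X.tot x) ^ (p ^ j) = 1 := hx
      rw [this, map_one]
  have hFM' : F M' := by
    refine ih M' (hWp.to_subgroup _) ?_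
    intro x
    apply Subtype.ext
    exact hM' x x.2
  have hFB : F (X.pr : W →* Cyc p).ker := by
    refine ih _ (hWp.to_subgroup _) ?_
    intro x
    apply Subtype.ext
    exact hbase x (X.mem_ker.1 x.2)
  have hFW : F W := by
    refine h.prod_top (N := (X.pr : W →* Cyc p).ker) (M := M') inferInstance inferInstance hFB
      hFM' ?_
    rw [eq_top_iff]
    intro x _
    rw [X_decomp x]
    refine Subgroup.mul_mem_sup (X.mem_ker.2 rfl) ?_
    show (X.tot (⟨fun _ => 1, x.y⟩ : W)) ^ (p ^ j) = 1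
    rw [X.tot_apply]
    simp only [Finset.prod_const_one, one_pow]
  -- a cyclic subgroup of order `p ^ (j + 2)`
  obtain ⟨y, hy⟩ : ∃ y : Cyc p, y ≠ 1 := by
    have : Nontrivial (Cyc p) := by
      have : Fact (1 < p) := ⟨hpp.one_lt⟩
      infer_instance
    exact exists_ne 1
  let x : W := ⟨Pi.mulSingle 1 w, y⟩
  have hxt : X.tot x = w := by
    rw [X.tot_apply]
    exact Fintype.prod_pi_mulSingle' 1 w
  have hxp : x ^ p = X.cst w := by rw [X_pow_p x hy, hxt]
  have hxo : orderOf x = p ^ (j + 2) := by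
    refine orderOf_eq_prime_pow ?_ ?_
    · rw [pow_succ', pow_mul, hxp, ← map_pow]
      intro hcon
      exact hw (congrArg (fun z : W => z.k 1) hcon)
    · rw [pow_succ', pow_mul, hxp, ← map_pow, hSp, map_one]
  have hFx : F (Subgroup.zpowers x) := h.sub_nil _ W rfl hWp.isNilpotent hFW _
  refine h.of_equiv (mulEquivOfCyclicCardEq ?_) hFx
  rw [Nat.card_zpowers, hxo, hCi]

lemma FC.cyc_pow {p : ℕ} [Fact p.Prime] (hp : F (Cyc p)) : ∀ k : ℕ, 1 ≤ k →
    ∀ (P : Type) [Group P] [Finite P], IsPGroup p P → (∀ x : P, x ^ (p ^ k) = 1) → F P := by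
  have hpp : p.Prime := Fact.out
  intro k hk
  induction k, hk using Nat.le_induction with
  | base =>
    intro P _ _ hP hx
    refine h.of_cyclic 1 ?_ _ P rfl hP hx
    rintro C _ hC ⟨j, hj, hCj⟩
    rcases Nat.le_one_iff_eq_zero_or_eq_one.1 hj with rfl | rfl
    · -- trivial group
      have h1 : F (⊥ : Subgroup (Cyc p)) := h.sn _ _ inferInstance hp
      have h2 : Subsingleton C := (Nat.card_eq_one_iff_unique.1 (by simpa using hCj)).1
      let _ : Unique C := { default := 1, uniq := fun _ => Subsingleton.elim _ _ }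
      exact h.of_equiv (G := (⊥ : Subgroup (Cyc p))) (H := C) MulEquiv.ofUnique h1
    · exact h.of_card (by simpa using hCj) hp
  | succ k hk ih =>
    obtain ⟨j, rfl⟩ : ∃ j, k = j + 1 := ⟨k - 1, by omega⟩
    have hppos : ∀ m, 0 < p ^ m := fun m => pow_pos hpp.pos m
    have : NeZero (p ^ (j + 1)) := ⟨(hppos _).ne'⟩
    intro P _ _ hP hx
    refine h.of_cyclic (j + 2) ?_ _ P rfl hP hx
    rintro C _ hC ⟨i, hi, hCi⟩
    have fC : Finite C := Nat.finite_of_card_ne_zero (by rw [hCi]; exact (hppos i).ne')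
    rcases Nat.lt_or_ge i (j + 2) with h1 | h1
    · refine ih C (IsPGroup.of_card hCi) ?_
      intro c
      have h2 : c ^ Nat.card C = 1 := pow_card_eq_one'
      rw [hCi] at h2
      obtain ⟨d, hd⟩ := Nat.pow_dvd_pow p (show i ≤ j + 1 by omega)
      rw [hd, pow_mul, h2, one_pow]
    · obtain rfl : i = j + 2 := le_antisymm hi h1
      refine h.cyc_step j ih (Cyc (p ^ (j + 1))) ?_ (Multiplicative.ofAdd 1) ?_ C hC hCi
      · intro s
        have : s ^ Nat.card (Cyc (p ^ (j + 1))) = 1 := pow_card_eq_one'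
        rw [card_Cyc] at this
        exact this
      · refine pow_ne_one_of_lt_orderOf (hppos j).ne' ?_
        rw [orderOf_ofAdd_eq_addOrderOf, ZMod.addOrderOf_one]
        exact Nat.pow_lt_pow_right hpp.one_lt (Nat.lt_succ_self j)

/-- all `p`-groups -/
lemma FC.pgrp {p : ℕ} [Fact p.Prime] (hp : F (Cyc p)) (P : Type) [Group P] [Finite P]
    (hP : IsPGroup p P) : F P := by
  obtain ⟨n, hn⟩ := IsPGroup.iff_card.1 hP
  refine h.cyc_pow hp (n + 1) (by omega) P hP ?_
  intro x
  have : x ^ Nat.card P = 1 := pow_card_eq_one'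
  rw [hn] at this
  rw [pow_succ, pow_mul, this, one_pow]

/-- all nilpotent groups -/
lemma FC.nil : ∀ n, ∀ (G : Type) [Group G] [Finite G], Nat.card G = n → Group.IsNilpotent G →
    (∀ p, p.Prime → p ∣ Nat.card G → F (Cyc p)) → (∀ (T : Type) [Group T], Nat.card T = 1 → F T) →
    F G := by
  intro n
  induction n using Nat.strong_induction_on with
  | _ n ih =>
  intro G _ _ hn hG hp h1
  by_cases hc1 : Nat.card G = 1
  · exact h1 G hc1
  obtain ⟨p, hpp, hpG⟩ := Nat.exists_prime_and_dvd hc1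
  have : Fact p.Prime := ⟨hpp⟩
  obtain ⟨P⟩ : Nonempty (Sylow p G) := inferInstance
  have hsyl : ∀ (p : ℕ), Fact (Nat.Prime p) → ∀ (P : Sylow p G), (P : Subgroup G).Normal :=
    (Group.isNilpotent_of_finite_tfae.out 0 3).1 hG
  have hPn : (P : Subgroup G).Normal := hsyl p this P
  by_cases hPt : (P : Subgroup G) = ⊤
  · refine h.pgrp (hp p hpp hpG) G ?_
    have h2 := P.isPGroup'
    rw [hPt] at h2
    exact h2.of_equiv Subgroup.topEquiv
  · obtain ⟨K, hK⟩ := Subgroup.exists_right_complement'_of_coprime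
      (N := (P : Subgroup G)) P.card_coprime_index
    have hKt : K ≠ ⊤ := by
      intro hKt
      have h2 := hK.disjoint
      rw [hKt, disjoint_top] at h2
      have h3 := P.card_eq_multiplicity
      rw [h2, Subgroup.card_bot] at h3
      have h4 : 1 ≤ (Nat.card G).factorization p :=
        (hpp.dvd_iff_one_le_factorization Nat.card_pos.ne').1 hpG
      have h5 : p ^ 1 ≤ p ^ (Nat.card G).factorization p := Nat.pow_le_pow_right hpp.pos h4
      rw [← h3, pow_one] at h5
      exact absurd hpp.one_lt (by omega)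
    obtain ⟨M, hM, hPM⟩ := (eq_top_or_exists_le_coatom (P : Subgroup G)).resolve_left hPt
    obtain ⟨M', hM', hKM'⟩ := (eq_top_or_exists_le_coatom K).resolve_left hKt
    have hmax : ∀ M : Subgroup G, IsCoatom M → M.Normal :=
      (Group.isNilpotent_of_finite_tfae.out 0 2).1 hG
    have hlt : ∀ M : Subgroup G, IsCoatom M → F M := by
      intro M hM
      refine ih (Nat.card M) ?_ M rfl inferInstance ?_ h1
      · rw [← hn]
        refine lt_of_le_of_ne (Subgroup.card_le_card_group _) ?_
        intro h5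
        exact hM.1 ((Subgroup.card_eq_iff_eq_top _).1 h5)
      · intro q hq hqM
        exact hp q hq (hqM.trans (Subgroup.card_subgroup_dvd_card M))
    refine h.prod_top (hmax M hM) (hmax M' hM') (hlt M hM) (hlt M' hM') ?_
    rw [eq_top_iff, ← hK.sup_eq_top]
    exact sup_le_sup hPM hKM'

end

end Pool.Agent.Helper813.AF
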