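import Pool.Agent.Helper813.AF.Z3

set_option autoImplicit false
set_option linter.unusedSectionVars false
set_option linter.unusedVariables false

namespace Pool.Agent.Helper813.AF

open scoped commutatorElement

section

variable {F : (G : Type) → [Group G] → Prop} (h : FC F)

include h

lemma FC.E_left {p q : ℕ} [Fact p.Prime] (hE : E F p q) : F (Cyc p) := by
  classical
  obtain ⟨Ω, _, ⟨ω₀⟩, C, hC, hfree, hX⟩ := hE
  have fX := (h.fin _ hX).1
  refine h.char _ _ rfl hX ?_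
  have h1 := Subgroup.card_dvd_of_injective (X.sgHom ω₀ : Cyc p →* X C Ω (Cyc p))
    (X.sgHom_inj (Y := C) ω₀)
  rwa [card_Cyc] at h1

lemma FC.E_right {p q : ℕ} [Fact q.Prime] (hE : E F p q) : F (Cyc q) := by
  classical
  obtain ⟨Ω, _, ⟨ω₀⟩, C, hC, hfree, hX⟩ := hE
  have fX := (h.fin _ hX).1
  refine h.char _ _ rfl hX ?_
  have h1 := Subgroup.card_dvd_of_surjective (X.pr : X C Ω (Cyc p) →* C) X.pr_surj
  rwa [hC] at h1

/-- `q`-by-`C_p` groups -/
lemma FC.ZE1 {p q : ℕ} [Fact p.Prime] [Fact q.Prime] (hpq : p ≠ q) (hE : E F p q)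
    (G : Type) [Group G] [Finite G] (π : G →* Cyc p) (hπ : Function.Surjective π)
    (hP : IsPGroup q π.ker) : F G := by
  classical
  have hp := h.E_left hE
  have hq := h.E_right hE
  obtain ⟨Ω, _, _, C, hC, hfree, hX⟩ := hE
  have := Fintype.ofFinite C
  refine h.Z (p := q) (q := p) (Ne.symm hpq) (C := C) (Ω := Ω) hC ?_
    (IsPGroup.of_card (n := 1) (by rw [card_Cyc, pow_one])) hq hp ?_ _ G π rfl hπ hP
  · intro u hu ω hω
    apply hu
    apply Subtype.ext
    exact hfree u u.2 ω hω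
  · exact h.sn _ _ (MonoidHom.normal_ker _) hX

/-- `p`-by-(abelian `q`) groups -/
lemma FC.ZE2 {p q : ℕ} [Fact p.Prime] [Fact q.Prime] (hpq : p ≠ q) (hE : E F p q)
    {Q : Type} [CommGroup Q] (hQ : IsPGroup q Q)
    (G : Type) [Group G] [Finite G] (π : G →* Q) (hπ : Function.Surjective π)
    (hP : IsPGroup p π.ker) : F G := by
  classical
  have hp := h.E_left hE
  have hq := h.E_right hE
  have : NeZero p := ⟨(Fact.out : p.Prime).ne_zero⟩
  have fQ : Finite Q := Finite.of_surjective π hπ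
  refine h.Z (p := p) (q := q) hpq (C := Cyc p) (Ω := Cyc p) (card_Cyc p) ?_
    hQ hp hq ?_ _ G π rfl hπ hP
  · intro u hu ω hω
    apply hu
    exact mul_eq_right.1 hω
  · let f : ↥(XO (Cyc p) (Cyc p) (MonoidHom.id Q)) →* Cyc p := X.pr.comp (Subgroup.subtype _)
    refine h.ZE1 hpq hE _ f ?_ ?_
    · intro y
      exact ⟨⟨X.inY y, mem_XO_of_ker (fun ω => one_mem _)⟩, rfl⟩
    · exact kin_isPGroup_base (K := ⊤) (hQ.to_subgroup _) _ _
        (fun x hx => ⟨fun ω => Subgroup.mem_top _, hx⟩)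

lemma FC.EE {p r t : ℕ} [Fact p.Prime] [Fact r.Prime] [Fact t.Prime] (hpr : p ≠ r) (htp : t ≠ p)
    (hE : E F p r) (ht : F (Cyc t))
    (hW : ∀ (W : Type) [Group W] [Finite W] (T : Subgroup W), T.Normal → IsPGroup t T →
      T.index = r → F W) : E F t p := by
  classical
  have hp := h.E_left hE
  have hpp : p.Prime := Fact.out
  have hrp : r.Prime := Fact.out
  have htpp : t.Prime := Fact.out
  obtain ⟨Ω, _, ⟨ω₀⟩, C, hC, hfree, hX⟩ := hE
  have fX := (h.fin _ hX).1
  set H := (X.pr : X C Ω (Cyc p) →* C).ker with hH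
  have hHp : IsPGroup p H := by
    have hb : Nat.card (⊤ : Subgroup (Cyc p)) = p ^ 1 := by
      rw [Subgroup.card_top, card_Cyc, pow_one]
    refine isPGroup_of_pow hb ?_
    intro x
    apply Subtype.ext
    exact X.pow_card_base (fun ω => Subgroup.mem_top _) (X.mem_ker.1 x.2)
  obtain ⟨n, hn⟩ := IsPGroup.iff_card.1 hHp
  have hnd : ∀ u : ℕ, u.Prime → u ∣ Nat.card H → u = p := by
    intro u hu hd
    rw [hn] at hd
    exact (Nat.prime_dvd_prime_iff_eq hu hpp).1 (hu.dvd_of_dvd_pow hd)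
  obtain ⟨s, hs, hsd, hsE⟩ := h.Eprime (r := r) (t := t) ht hW _ (X C Ω (Cyc p)) H rfl hX
    (MonoidHom.normal_ker _)
    (by rw [hH, Subgroup.index_ker, MonoidHom.range_eq_top.2 X.pr_surj, Subgroup.card_top, hC])
    (fun hd => hpr (hnd r hrp hd).symm) (fun hd => htp (hnd t htpp hd))
    (fun K hK => h.pgrp hp K (hHp.to_le hK)) (by
      intro T hT hTc
      have hd : Disjoint T H := by
        refine Subgroup.disjoint_of_coprime_natCard ?_
        rw [hTc, hn]
        exact Nat.Coprime.pow_right _ ((Nat.coprime_primes hrp hpp).2 (Ne.symm hpr))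
      obtain ⟨x, hxT, hx1⟩ : ∃ x ∈ T, x ≠ 1 := by
        by_contra hcon
        push Not at hcon
        have h1 : T = ⊥ := (Subgroup.eq_bot_iff_forall T).2 hcon
        rw [h1, Subgroup.card_bot] at hTc
        exact hrp.one_lt.ne hTc
      have hxy : x.y ≠ 1 := by
        intro hy
        exact hx1 (Subgroup.disjoint_def.1 hd hxT (X.mem_ker.2 hy))
      obtain ⟨a, ha⟩ : ∃ a : Cyc p, a ≠ 1 := by
        have : Nontrivial (Cyc p) := by
          have : Fact (1 < p) := ⟨hpp.one_lt⟩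
          infer_instance
        exact exists_ne 1
      have h1 : x * X.sg ω₀ a * x⁻¹ * (X.sg ω₀ a)⁻¹ = 1 := by
        refine Subgroup.disjoint_def.1 hd ?_ ?_
        · have e : x * X.sg ω₀ a * x⁻¹ * (X.sg ω₀ a)⁻¹ =
              x * (X.sg ω₀ a * x⁻¹ * (X.sg ω₀ a)⁻¹) := by group
          rw [e]
          exact T.mul_mem hxT (hT.conj_mem _ (T.inv_mem hxT) _)
        · exact H.mul_mem ((MonoidHom.normal_ker _).conj_mem _ (X.mem_ker.2 rfl) x)
            (H.inv_mem (X.mem_ker.2 rfl))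
      rw [X.conj_sg, mul_inv_eq_one] at h1
      have h2 := congrArg (fun z : X C Ω (Cyc p) => z.k ω₀) h1
      simp only [X.sg_k_self] at h2
      have h3 : x.y • ω₀ = ω₀ := by
        by_contra hne
        rw [X.sg_k_ne (Ne.symm hne)] at h2
        exact ha h2.symm
      apply hxy
      apply Subtype.ext
      exact hfree x.y x.y.2 ω₀ h3)
  rw [hnd s hs hsd] at hsE
  exact hsE

lemma FC.E_symm {p q : ℕ} [Fact p.Prime] [Fact q.Prime] (hpq : p ≠ q) (hE : E F p q) :
    E F q p := by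
  have hq := h.E_right hE
  refine h.EE hpq (Ne.symm hpq) hE hq ?_
  intro W _ _ T hT hTq hTi
  refine h.pgrp hq W ?_
  obtain ⟨n, hn⟩ := IsPGroup.iff_card.1 hTq
  refine IsPGroup.of_card (n := n + 1) ?_
  rw [← T.card_mul_index, hn, hTi, pow_succ]

lemma FC.E_trans {p q r : ℕ} [Fact p.Prime] [Fact q.Prime] [Fact r.Prime] (hpr : p ≠ r)
    (hrq : r ≠ q) (hpq : p ≠ q) (h1 : E F p r) (h2 : E F r q) : E F p q := by
  have hq := h.E_right h2
  have h3 : E F q p := by
    refine h.EE hpr (Ne.symm hpq) h1 hq ?_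
    intro W _ _ T hT hTq hTi
    have hc : Nat.card (W ⧸ T) = r := hTi
    let e : (W ⧸ T) ≃* Cyc r := mulEquivOfPrimeCardEq hc (card_Cyc r)
    refine h.ZE1 hrq h2 W (e.toMonoidHom.comp (QuotientGroup.mk' T)) ?_ ?_
    · exact e.surjective.comp (QuotientGroup.mk'_surjective T)
    · have he : (e.toMonoidHom.comp (QuotientGroup.mk' T)).ker = T := by
        ext x
        rw [MonoidHom.mem_ker]
        show e (QuotientGroup.mk' T x) = 1 ↔ x ∈ T
        rw [EmbeddingLike.map_eq_one_iff]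
        exact QuotientGroup.eq_one_iff x
      rw [he]; exact hTq
  exact h.E_symm (Ne.symm hpq) h3

end

/-- the relation on primes -/
def rel (F : (G : Type) → [Group G] → Prop) (p q : ℕ) : Prop :=
  p = q ∨ (p.Prime ∧ q.Prime ∧ E F p q)

section

variable {F : (G : Type) → [Group G] → Prop} (h : FC F)

include h

lemma FC.rel_symm {p q : ℕ} (hr : rel F p q) : rel F q p := by
  rcases hr with h1 | ⟨hp, hq, hE⟩
  · exact Or.inl h1.symm
  · by_cases hpq : p = q
    · exact Or.inl hpq.symm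
    · have : Fact p.Prime := ⟨hp⟩
      have : Fact q.Prime := ⟨hq⟩
      exact Or.inr ⟨hq, hp, h.E_symm hpq hE⟩

lemma FC.rel_trans {p q r : ℕ} (h1 : rel F p r) (h2 : rel F r q) : rel F p q := by
  by_cases hpr : p = r
  · rw [hpr]; exact h2
  by_cases hrq : r = q
  · rw [← hrq]; exact h1
  by_cases hpq : p = q
  · exact Or.inl hpq
  obtain ⟨hp, hr, hE1⟩ := h1.resolve_left hpr
  obtain ⟨_, hq, hE2⟩ := h2.resolve_left hrq
  have : Fact p.Prime := ⟨hp⟩
  have : Fact q.Prime := ⟨hq⟩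
  have : Fact r.Prime := ⟨hr⟩
  exact Or.inr ⟨hp, hq, h.E_trans hpr hrq hpq hE1 hE2⟩

end

end Pool.Agent.Helper813.AF
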