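import Pool.Agent.Helper813.AF.Lam

set_option autoImplicit false
set_option linter.unusedSectionVars false
set_option linter.unusedVariables false

namespace Pool.Agent.Helper813.AF

open scoped commutatorElement

lemma exists_normal_pgroup {G : Type} [Group G] [Finite G] [Nontrivial G]
    (hG : Group.IsSolvable G) : ∃ p : ℕ, p.Prime ∧ ∃ N : Subgroup G, N.Normal ∧ N ≠ ⊥ ∧
      IsPGroup p N := by
  classical
  have hex := hG.solvable
  have hfind := Nat.find_spec hex
  set n := Nat.find hex with hn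
  have hn0 : n ≠ 0 := by
    intro h0
    rw [h0, derivedSeries_zero] at hfind
    exact top_ne_bot hfind
  obtain ⟨m, hm⟩ : ∃ m, n = m + 1 := ⟨n - 1, by omega⟩
  set D := derivedSeries G m with hD
  have hDb : D ≠ ⊥ := Nat.find_min hex (show m < n by omega)
  have hDn : D.Normal := derivedSeries_normal G m
  have hDc : ∀ x ∈ D, ∀ y ∈ D, x * y = y * x := by
    intro x hx y hy
    rw [hm, derivedSeries_succ] at hfind
    have h1 : ⁅x, y⁆ ∈ (⊥ : Subgroup G) := by
      rw [← hfind]; exact Subgroup.commutator_mem_commutator hx hy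
    rw [Subgroup.mem_bot, commutatorElement_def, mul_inv_eq_one, mul_inv_eq_iff_eq_mul] at h1
    exact h1
  have hDcard : Nat.card D ≠ 1 := fun h1 => hDb (Subgroup.card_eq_one.1 h1)
  obtain ⟨p, hp, hpD⟩ := Nat.exists_prime_and_dvd hDcard
  have : Fact p.Prime := ⟨hp⟩
  obtain ⟨⟨x, hx⟩, hxp⟩ := exists_prime_orderOf_dvd_card' p hpD
  let N : Subgroup G :=
    { carrier := {y | y ∈ D ∧ y ^ p = 1}
      one_mem' := ⟨D.one_mem, one_pow p⟩
      mul_mem' := by
        rintro a b ⟨ha, ha'⟩ ⟨hb, hb'⟩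
        refine ⟨D.mul_mem ha hb, ?_⟩
        have hc : Commute a b := hDc a ha b hb
        rw [hc.mul_pow, ha', hb', one_mul]
      inv_mem' := by
        rintro a ⟨ha, ha'⟩
        refine ⟨D.inv_mem ha, ?_⟩
        rw [inv_pow, ha', inv_one] }
  refine ⟨p, hp, N, ?_, ?_, ?_⟩
  · constructor
    rintro a ⟨ha, ha'⟩ g
    refine ⟨hDn.conj_mem a ha g, ?_⟩
    rw [conj_pow, ha']; group
  · intro hNb
    have hxN : x ∈ N := by
      refine ⟨hx, ?_⟩
      have h1 := pow_orderOf_eq_one (⟨x, hx⟩ : D)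
      rw [hxp] at h1
      exact congrArg Subtype.val h1
    rw [hNb, Subgroup.mem_bot] at hxN
    have h1 : (⟨x, hx⟩ : D) = 1 := Subtype.ext hxN
    rw [h1, orderOf_one] at hxp
    exact hp.one_lt.ne hxp
  · intro y
    refine ⟨1, ?_⟩
    rw [pow_one]
    apply Subtype.ext
    exact y.2.2

lemma maxSyl {G : Type} [Group G] [Finite G] (hG : Group.IsSolvable G) (A : Subgroup G)
    (hA : IsCoatom A) : ∃ p : ℕ, ∃ _ : Fact p.Prime, ∃ P : Sylow p G,
      ∀ g : G, ∃ a ∈ A, ∃ x ∈ (P : Subgroup G), g = a * x := by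
  classical
  let K := A.normalCore
  have hKA : K ≤ A := A.normalCore_le
  let q := QuotientGroup.mk' K
  have hq : ∀ x, q x = 1 ↔ x ∈ K := fun x => QuotientGroup.eq_one_iff x
  have hqs : Function.Surjective q := QuotientGroup.mk'_surjective K
  have hnt : Nontrivial (G ⧸ K) := by
    by_contra hcon
    rw [not_nontrivial_iff_subsingleton] at hcon
    apply hA.1
    rw [eq_top_iff]
    intro x _
    exact hKA ((hq x).1 (Subsingleton.elim _ _))
  have hsol : Group.IsSolvable (G ⧸ K) := inferInstance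
  obtain ⟨p, hp, N, hNn, hNb, hNp⟩ := exists_normal_pgroup hsol
  have hpF : Fact p.Prime := ⟨hp⟩
  obtain ⟨Q, hNQ⟩ := hNp.exists_le_sylow
  obtain ⟨P, hP⟩ := Sylow.mapSurjective_surjective hqs p Q
  refine ⟨p, hpF, P, ?_⟩
  have hNA : ¬ N.comap q ≤ A := by
    intro hle
    have h1 : N.comap q ≤ K := (Subgroup.normal_le_normalCore (hN := hNn.comap q)).2 hle
    apply hNb
    rw [Subgroup.eq_bot_iff_forall]
    intro x hx
    obtain ⟨x, rfl⟩ := hqs x
    exact (hq x).2 (h1 hx)
  have hsup : A ⊔ N.comap q = ⊤ := by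
    refine hA.2 _ (lt_of_le_of_ne le_sup_left ?_)
    intro heq
    exact hNA (le_sup_right.trans heq.symm.le)
  intro g
  have h1 : g ∈ A ⊔ N.comap q := by rw [hsup]; trivial
  have hNcn : (N.comap q).Normal := hNn.comap q
  obtain ⟨a, ha, n, hn, rfl⟩ := Subgroup.mem_sup_of_normal_right.1 h1
  have h2 : q n ∈ (Q : Subgroup (G ⧸ K)) := hNQ hn
  rw [← hP, Sylow.coe_mapSurjective] at h2
  obtain ⟨x, hx, hxn⟩ := h2
  have h3 : n * x⁻¹ ∈ K := by
    rw [← hq, map_mul, map_inv, hxn, mul_inv_cancel]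
  exact ⟨a * (n * x⁻¹), A.mul_mem ha (hKA h3), x, hx, by group⟩

section

variable {F : (G : Type) → [Group G] → Prop} (h : FC F)

include h

theorem FC.L (h1 : ∀ (T : Type) [Group T], Nat.card T = 1 → F T) :
    ∀ n, ∀ (G : Type) [Group G] [Finite G], Nat.card G = n → Group.IsSolvable G → Lam F G →
      (∀ p, p.Prime → p ∣ Nat.card G → F (Cyc p)) → F G := by
  classical
  intro n
  induction n using Nat.strong_induction_on with
  | _ n ih =>
  intro G _ _ hn hsol hLam hpr
  by_contra hFG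
  have hK : ∀ K : Subgroup G, K ≠ ⊤ → F K := by
    intro K hKt
    refine ih (Nat.card K) ?_ K rfl inferInstance
      (fun σ hσ => (hLam σ hσ).inj K.subtype K.subtype_injective) ?_
    · rw [← hn]
      refine lt_of_le_of_ne (Subgroup.card_le_card_group _) ?_
      intro h5
      exact hKt ((Subgroup.card_eq_iff_eq_top _).1 h5)
    · intro p hp hd
      exact hpr p hp (hd.trans (Subgroup.card_subgroup_dvd_card K))
  have hi : ∀ N M : Subgroup G, N.Normal → M.Normal → N ≠ ⊤ → M ≠ ⊤ → N ⊔ M ≠ ⊤ := by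
    intro N M hN hM hNt hMt hs
    exact hFG (h.prod_top hN hM (hK N hNt) (hK M hMt) hs)
  have hii : ∀ A B : Subgroup G, Abn A → Abn B → A ≠ ⊤ → B ≠ ⊤ →
      ¬ (∀ g : G, ∃ a ∈ A, ∃ b ∈ B, a * b = g) := by
    intro A B hA hB hAt hBt hs
    exact hFG (h.af G hsol A B hA hB (hK A hAt) (hK B hBt) hs)
  have hnil : ¬ Group.IsNilpotent G := fun hnil => hFG (h.nil _ G rfl hnil hpr h1)
  obtain ⟨A, hA, hAn⟩ : ∃ M : Subgroup G, IsCoatom M ∧ ¬ M.Normal := by
    by_contra hcon
    push Not at hcon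
    exact hnil ((Group.isNilpotent_of_finite_tfae.out 0 2).2 hcon)
  have hAbn := abn_of_max hA hAn
  obtain ⟨p, hpF, P, hAP⟩ := maxSyl hsol A hA
  have hpp : p.Prime := hpF.out
  have hPn : (P : Subgroup G).Normal := by
    rw [← Subgroup.normalizer_eq_top_iff]
    by_contra hne
    refine hii A _ hAbn (abn_sylow P) hA.1 hne ?_
    intro g
    obtain ⟨a, ha, x, hx, rfl⟩ := hAP g
    exact ⟨a, ha, x, Subgroup.le_normalizer hx, rfl⟩
  let qt := QuotientGroup.mk' (P : Subgroup G)
  have hqs : Function.Surjective qt := QuotientGroup.mk'_surjective _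
  have hqk : ∀ x, qt x = 1 ↔ x ∈ (P : Subgroup G) := fun x => QuotientGroup.eq_one_iff x
  have hcomap_ne : ∀ B : Subgroup (G ⧸ (P : Subgroup G)), B ≠ ⊤ → B.comap qt ≠ ⊤ := by
    intro B hB hBt
    apply hB
    rw [eq_top_iff]
    intro x _
    obtain ⟨x, rfl⟩ := hqs x
    have : x ∈ B.comap qt := by rw [hBt]; trivial
    exact this
  have hmax : ∀ B : Subgroup (G ⧸ (P : Subgroup G)), IsCoatom B → B.Normal := by
    intro B hB
    by_contra hBn
    refine hii A (B.comap qt) hAbn (abn_comap qt hqs (abn_of_max hB hBn)) hA.1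
      (hcomap_ne B hB.1) ?_
    intro g
    obtain ⟨a, ha, x, hx, rfl⟩ := hAP g
    refine ⟨a, ha, x, ?_, rfl⟩
    rw [Subgroup.mem_comap, (hqk x).2 hx]; exact B.one_mem
  have huniq : ∀ B B' : Subgroup (G ⧸ (P : Subgroup G)), IsCoatom B → IsCoatom B' → B = B' := by
    intro B B' hB hB'
    by_contra hne
    refine hi (B.comap qt) (B'.comap qt) ((hmax B hB).comap qt) ((hmax B' hB').comap qt)
      (hcomap_ne B hB.1) (hcomap_ne B' hB'.1) ?_
    have h2 : B ⊔ B' = ⊤ := hB.sup_eq_top_of_ne hB' hne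
    have hBn := hmax B hB
    rw [eq_top_iff]
    intro x _
    have h3 : qt x ∈ B ⊔ B' := by rw [h2]; trivial
    obtain ⟨b, hb, c, hc, hbc⟩ := Subgroup.mem_sup_of_normal_left.1 h3
    obtain ⟨b, rfl⟩ := hqs b
    have e : x = b * (b⁻¹ * x) := by group
    rw [e]
    refine Subgroup.mul_mem_sup hb ?_
    rw [Subgroup.mem_comap, map_mul, map_inv, ← hbc, inv_mul_cancel_left]
    exact hc
  have hnilq : Group.IsNilpotent (G ⧸ (P : Subgroup G)) :=
    (Group.isNilpotent_of_finite_tfae.out 0 2).2 hmax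
  have hPp : IsPGroup p P := P.isPGroup'
  -- the quotient is nontrivial
  have hcardq : Nat.card (G ⧸ (P : Subgroup G)) ≠ 1 := by
    intro hc
    apply hnil
    have hPt : (P : Subgroup G) = ⊤ := Subgroup.index_eq_one.1 hc
    have h2 : IsPGroup p G := by
      have h3 := P.isPGroup'
      rw [hPt] at h3
      exact h3.of_equiv Subgroup.topEquiv
    exact h2.isNilpotent
  obtain ⟨q, hq, hqd⟩ := Nat.exists_prime_and_dvd hcardq
  have hqF : Fact q.Prime := ⟨hq⟩
  have hbot : (⊥ : Subgroup (G ⧸ (P : Subgroup G))) ≠ ⊤ := by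
    intro hbt
    apply hcardq
    rw [← Subgroup.card_top, ← hbt, Subgroup.card_bot]
  obtain ⟨M, hM, -⟩ := (eq_top_or_exists_le_coatom
    (⊥ : Subgroup (G ⧸ (P : Subgroup G)))).resolve_left hbot
  have hle : ∀ B : Subgroup (G ⧸ (P : Subgroup G)), B ≠ ⊤ → B ≤ M := by
    intro B hB
    obtain ⟨M', hM', hBM'⟩ := (eq_top_or_exists_le_coatom B).resolve_left hB
    rw [huniq M M' hM hM']
    exact hBM'
  have hcomm : ∀ x y : G ⧸ (P : Subgroup G), x * y = y * x := by
    obtain ⟨z, hzM⟩ : ∃ z, z ∉ M := by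
      by_contra hcon
      push Not at hcon
      exact hM.1 (eq_top_iff.2 (fun x _ => hcon x))
    have hz : Subgroup.zpowers z = ⊤ := by
      by_contra hz
      exact hzM (hle _ hz (Subgroup.mem_zpowers z))
    intro x y
    have hx : x ∈ Subgroup.zpowers z := by rw [hz]; trivial
    have hy : y ∈ Subgroup.zpowers z := by rw [hz]; trivial
    obtain ⟨i, rfl⟩ := Subgroup.mem_zpowers_iff.1 hx
    obtain ⟨j, rfl⟩ := Subgroup.mem_zpowers_iff.1 hy
    rw [← zpow_add, ← zpow_add, add_comm]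
  have hQq : IsPGroup q (G ⧸ (P : Subgroup G)) := by
    obtain ⟨Q⟩ : Nonempty (Sylow q (G ⧸ (P : Subgroup G))) := inferInstance
    have hsyl : ∀ (p' : ℕ), Fact (Nat.Prime p') → ∀ (P' : Sylow p' (G ⧸ (P : Subgroup G))),
        (P' : Subgroup (G ⧸ (P : Subgroup G))).Normal :=
      (Group.isNilpotent_of_finite_tfae.out 0 3).1 hnilq
    have hQn : (Q : Subgroup (G ⧸ (P : Subgroup G))).Normal := hsyl q hqF Q
    obtain ⟨K, hKc⟩ := Subgroup.exists_right_complement'_of_coprime
      (N := (Q : Subgroup (G ⧸ (P : Subgroup G)))) Q.card_coprime_index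
    have hKt : K ≠ ⊤ := by
      intro hKt
      have h2 := hKc.disjoint
      rw [hKt, disjoint_top] at h2
      have h3 := Q.card_eq_multiplicity
      rw [h2, Subgroup.card_bot] at h3
      have h4 : 1 ≤ (Nat.card (G ⧸ (P : Subgroup G))).factorization q :=
        (hq.dvd_iff_one_le_factorization Nat.card_pos.ne').1 hqd
      have h5 : q ^ 1 ≤ q ^ (Nat.card (G ⧸ (P : Subgroup G))).factorization q :=
        Nat.pow_le_pow_right hq.pos h4
      rw [← h3, pow_one] at h5
      exact absurd hq.one_lt (by omega)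
    have hQt : (Q : Subgroup (G ⧸ (P : Subgroup G))) = ⊤ := by
      by_contra hne
      apply hM.1
      rw [eq_top_iff, ← hKc.sup_eq_top]
      exact sup_le (hle _ hne) (hle _ hKt)
    have h3 := Q.isPGroup'
    rw [hQt] at h3
    exact h3.of_equiv Subgroup.topEquiv
  have hpq : p ≠ q := by
    rintro rfl
    apply hnil
    have h2 : IsPGroup p G := by
      obtain ⟨a, ha⟩ := IsPGroup.iff_card.1 hPp
      obtain ⟨b, hb⟩ := IsPGroup.iff_card.1 hQq
      refine IsPGroup.of_card (n := b + a) ?_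
      rw [Subgroup.card_eq_card_quotient_mul_card_subgroup (P : Subgroup G), hb, ha, pow_add]
    exact h2.isNilpotent
  -- the two primes are related
  have hpG : p ∣ Nat.card G := by
    by_contra hnd
    have h2 := P.card_eq_multiplicity
    rw [Nat.factorization_eq_zero_of_not_dvd hnd, pow_zero] at h2
    have h3 : (P : Subgroup G) = ⊥ := Subgroup.card_eq_one.1 h2
    apply hA.1
    rw [eq_top_iff]
    intro g _
    obtain ⟨a, ha, x, hx, rfl⟩ := hAP g
    rw [h3, Subgroup.mem_bot] at hx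
    rw [hx, mul_one]; exact ha
  have hqG : q ∣ Nat.card G := by
    rw [Subgroup.card_eq_card_quotient_mul_card_subgroup (P : Subgroup G)]
    exact hqd.mul_right _
  have hrel : rel F p q := by
    have hσ : Clo F {u | rel F p u} := fun a b hab ha => h.rel_trans ha hab
    obtain ⟨S, T, hS, hT, hsup, hs, ht⟩ := hLam _ hσ
    by_cases hTt : T = ⊤
    · exfalso
      rw [hTt] at ht
      exact ht p hpp (by rw [Subgroup.card_top]; exact hpG) (Or.inl rfl)
    · by_cases hSt : S = ⊤
      · rw [hSt] at hs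
        exact hs q hq (by rw [Subgroup.card_top]; exact hqG)
      · exact absurd hsup (hi S T hS hT hSt hTt)
  obtain ⟨-, -, hE⟩ := hrel.resolve_left hpq
  let _ : CommGroup (G ⧸ (P : Subgroup G)) :=
    { (inferInstance : Group (G ⧸ (P : Subgroup G))) with mul_comm := hcomm }
  refine hFG (h.ZE2 hpq hE (Q := G ⧸ (P : Subgroup G)) hQq G qt hqs ?_)
  have hker : qt.ker = (P : Subgroup G) := QuotientGroup.ker_mk' _
  rw [hker]
  exact hPp

end

end Pool.Agent.Helper813.AF
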