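import Pool.Agent.Helper813.AF.ThL

set_option autoImplicit false
set_option linter.unusedSectionVars false
set_option linter.unusedVariables false

namespace Pool.Agent.Helper813.AF

open scoped commutatorElement

lemma exists_prime_index {G : Type} [Group G] [Finite G] [Nontrivial G]
    (hG : Group.IsSolvable G) : ∃ M : Subgroup G, M.Normal ∧ IsCoatom M ∧ (M.index).Prime := by
  classical
  have hne : (⊥ : Subgroup (Abelianization G)) ≠ ⊤ := by
    intro hbt
    have h1 := Group.IsSolvable.commutator_lt_top_of_nontrivial G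
    apply h1.ne
    rw [eq_top_iff]
    intro x _
    have h2 : Abelianization.of x ∈ (⊥ : Subgroup (Abelianization G)) := by rw [hbt]; trivial
    rw [Subgroup.mem_bot] at h2
    exact (QuotientGroup.eq_one_iff x).1 h2
  obtain ⟨M, hM, -⟩ := (eq_top_or_exists_le_coatom
    (⊥ : Subgroup (Abelianization G))).resolve_left hne
  have hsurj : Function.Surjective (Abelianization.of : G →* Abelianization G) :=
    QuotientGroup.mk'_surjective _
  have hsimple : IsSimpleGroup (Abelianization G ⧸ M) := by
    have hnt : Nontrivial (Abelianization G ⧸ M) := by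
      rw [← not_subsingleton_iff_nontrivial]
      intro hs
      apply hM.1
      rw [eq_top_iff]
      intro x _
      exact (QuotientGroup.eq_one_iff x).1 (Subsingleton.elim _ _)
    refine ⟨fun H _ => ?_⟩
    have hle : M ≤ H.comap (QuotientGroup.mk' M) := by
      intro x hx
      rw [Subgroup.mem_comap, (QuotientGroup.eq_one_iff x).2 hx |> (fun e => (e : QuotientGroup.mk' M x = 1))]
      exact H.one_mem
    rcases eq_or_lt_of_le hle with h1 | h1
    · left
      rw [Subgroup.eq_bot_iff_forall]
      intro x hx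
      obtain ⟨x, rfl⟩ := QuotientGroup.mk'_surjective M x
      have h2 : x ∈ M := by rw [h1]; exact hx
      exact (QuotientGroup.eq_one_iff x).2 h2
    · right
      have h2 := hM.2 _ h1
      rw [eq_top_iff]
      intro x _
      obtain ⟨x, rfl⟩ := QuotientGroup.mk'_surjective M x
      have h3 : x ∈ H.comap (QuotientGroup.mk' M) := by rw [h2]; trivial
      exact h3
  have hprime : (Nat.card (Abelianization G ⧸ M)).Prime :=
    CommGroup.is_simple_iff_prime_card.1 hsimple
  refine ⟨M.comap Abelianization.of, inferInstance, ?_, ?_⟩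
  · exact Subgroup.isCoatom_comap_of_surjective hsurj hM
  · rw [Subgroup.index_comap_of_surjective _ hsurj]
    exact hprime

section

variable {F : (G : Type) → [Group G] → Prop} (h : FC F)

include h

lemma FC.lam_of_class {G : Type} [Group G] (r : ℕ)
    (hG : ∀ p, p.Prime → p ∣ Nat.card G → rel F r p) : Lam F G := by
  intro σ hσ
  by_cases hr : r ∈ σ
  · exact Dcp.top (fun p hp hd => hσ r p (hG p hp hd) hr)
  · exact Dcp.bot (fun p hp hd hpσ => hr (hσ p r (h.rel_symm (hG p hp hd)) hpσ))

theorem FC.M (h1 : ∀ (T : Type) [Group T], Nat.card T = 1 → F T) :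
    ∀ n, ∀ (G : Type) [Group G], Nat.card G = n → F G → Lam F G := by
  classical
  intro n
  induction n using Nat.strong_induction_on with
  | _ n ih =>
  intro G _ hn hG
  have fG := (h.fin G hG).1
  have sG := (h.fin G hG).2
  by_cases hc1 : Nat.card G = 1
  · intro σ hσ
    refine Dcp.top ?_
    intro p hp hd
    rw [hc1] at hd
    exact absurd (Nat.dvd_one.1 hd) hp.one_lt.ne'
  have hnt : Nontrivial G := by
    rw [← Finite.one_lt_card_iff_nontrivial]
    have := Nat.card_pos (α := G)
    omega
  obtain ⟨M, hMn, hMc, hMp⟩ := exists_prime_index sG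
  obtain ⟨r, hMr⟩ : ∃ r, M.index = r := ⟨_, rfl⟩
  rw [hMr] at hMp
  have hrF : Fact r.Prime := ⟨hMp⟩
  have hFM : F M := h.sn G M hMn hG
  have hcM : Nat.card M * r = Nat.card G := by rw [← hMr]; exact M.card_mul_index
  have hMlt : Nat.card M < n := by
    rw [← hn]
    refine lt_of_le_of_ne (Subgroup.card_le_card_group _) ?_
    intro h5
    exact hMc.1 ((Subgroup.card_eq_iff_eq_top _).1 h5)
  have hLM := ih (Nat.card M) hMlt M rfl hFM
  have hσ : Clo F {u | rel F r u} := fun a b hab ha => h.rel_trans ha hab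
  obtain ⟨S', T', hS', hT', hsup', hs', ht'⟩ := hLM _ hσ
  have hcop' := coprime_of_sets hs' ht'
  have hSn := map_comp_normal hMn hS' hT' hsup' hcop'
  have hHn := map_comp_normal hMn hT' hS' (by rw [sup_comm]; exact hsup') hcop'.symm
  have hcardS : Nat.card (S'.map M.subtype) = Nat.card S' :=
    Subgroup.card_map_of_injective M.subtype_injective
  have hcardH : Nat.card (T'.map M.subtype) = Nat.card T' :=
    Subgroup.card_map_of_injective M.subtype_injective
  have hMsup : M = S'.map M.subtype ⊔ T'.map M.subtype := by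
    rw [← Subgroup.map_sup, hsup', ← MonoidHom.range_eq_map, Subgroup.range_subtype]
  set S := S'.map M.subtype with hS
  set H := T'.map M.subtype with hH
  have hs : ∀ p, p.Prime → p ∣ Nat.card S → rel F r p := by
    intro p hp hd
    exact hs' p hp (by rw [← hcardS]; exact hd)
  have ht : ∀ p, p.Prime → p ∣ Nat.card H → ¬ rel F r p := by
    intro p hp hd
    exact ht' p hp (by rw [← hcardH]; exact hd)
  have hSM : S ≤ M := by rw [hMsup]; exact le_sup_left
  have hHM : H ≤ M := by rw [hMsup]; exact le_sup_right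
  have hdisj : Disjoint S H := by
    refine Subgroup.disjoint_of_coprime_natCard ?_
    rw [hcardS, hcardH]; exact hcop'
  have hchar : ∀ p, p.Prime → p ∣ Nat.card G → F (Cyc p) := by
    intro p hp hd
    have : Fact p.Prime := ⟨hp⟩
    exact h.char _ G rfl hG hd
  have hFr : F (Cyc r) := hchar r hMp (by rw [← hcM]; exact Dvd.intro_left _ rfl)
  have hLsub : ∀ K : Subgroup G, K ≤ M → Lam F K := by
    intro K hK σ hσ
    exact (hLM σ hσ).inj (Subgroup.inclusion hK) (Subgroup.inclusion_injective hK)
  -- the quotient by `H`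
  have hpH : ∀ p, p.Prime → p ∣ Nat.card (G ⧸ H) → rel F r p := by
    intro p hp hd
    have h2 : Nat.card (G ⧸ H) * Nat.card H = Nat.card G :=
      (Subgroup.card_eq_card_quotient_mul_card_subgroup H).symm
    have h3 : Nat.card M ∣ Nat.card S * Nat.card H := by
      have h4 := card_sup_dvd S H hSn
      rwa [← hMsup] at h4
    have h4 : Nat.card (G ⧸ H) * Nat.card H ∣ (Nat.card S * r) * Nat.card H := by
      rw [h2, ← hcM]
      have e : Nat.card S * r * Nat.card H = (Nat.card S * Nat.card H) * r := by ring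
      rw [e]
      exact Nat.mul_dvd_mul_right h3 r
    have h5 : Nat.card (G ⧸ H) ∣ Nat.card S * r := Nat.dvd_of_mul_dvd_mul_right Nat.card_pos h4
    rcases (hp.dvd_mul).1 (hd.trans h5) with h6 | h6
    · exact hs p hp h6
    · exact Or.inl ((Nat.prime_dvd_prime_iff_eq hp hMp).1 h6).symm
  have hFGH : F (G ⧸ H) := by
    refine h.L h1 _ (G ⧸ H) rfl inferInstance (h.lam_of_class r hpH) ?_
    intro p hp hd
    refine hchar p hp (hd.trans ?_)
    exact Subgroup.card_quotient_dvd_card H
  have hab : ∀ x y : G, x * y * x⁻¹ * y⁻¹ ∈ M := by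
    intro x y
    have hc : Nat.card (G ⧸ M) = r := hMr
    have hcyc : IsCyclic (G ⧸ M) := isCyclic_of_prime_card hc
    obtain ⟨g, hg⟩ := hcyc.exists_generator
    rw [← QuotientGroup.eq_one_iff (N := M)]
    obtain ⟨i, hi⟩ := hg (x : G ⧸ M)
    obtain ⟨j, hj⟩ := hg (y : G ⧸ M)
    have hi' : (x : G ⧸ M) = g ^ i := hi.symm
    have hj' : (y : G ⧸ M) = g ^ j := hj.symm
    rw [QuotientGroup.mk_mul, QuotientGroup.mk_mul, QuotientGroup.mk_mul, QuotientGroup.mk_inv,
      QuotientGroup.mk_inv, hi', hj', ← zpow_add, ← zpow_neg, ← zpow_add, ← zpow_neg, ← zpow_add]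
    have e : i + j + -i + -j = 0 := by ring
    rw [e, zpow_zero]
  have hFGS : F (G ⧸ S) := by
    refine h.quasi (QuotientGroup.mk' H) (QuotientGroup.mk' S) (QuotientGroup.mk'_surjective _)
      (QuotientGroup.mk'_surjective _) ?_ ?_ hG hFGH
    · intro x hx hx'
      exact Subgroup.disjoint_def.1 hdisj ((QuotientGroup.eq_one_iff x).1 hx')
        ((QuotientGroup.eq_one_iff x).1 hx)
    · intro x y
      rw [QuotientGroup.ker_mk', QuotientGroup.ker_mk', sup_comm, ← hMsup]
      exact hab x y
  -- the image of `M`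
  let q := QuotientGroup.mk' S
  have hqs : Function.Surjective q := QuotientGroup.mk'_surjective S
  have hqk : ∀ x, q x = 1 ↔ x ∈ S := fun x => QuotientGroup.eq_one_iff x
  have hMq : M.map q = H.map q := by
    apply le_antisymm
    · rintro _ ⟨x, hx, rfl⟩
      have hx' : x ∈ S ⊔ H := by rw [← hMsup]; exact hx
      obtain ⟨s, hs, t, ht, rfl⟩ := Subgroup.mem_sup_of_normal_left.1 hx'
      refine ⟨t, ht, ?_⟩
      rw [map_mul, (hqk s).2 hs, one_mul]
    · exact Subgroup.map_mono hHM
  have hMqn : (M.map q).Normal := hMn.map q hqs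
  have hMqi : (M.map q).index = r := by
    rw [Subgroup.index_map_eq M hqs ?_, hMr]
    rw [QuotientGroup.ker_mk']; exact hSM
  have hMqc : Nat.card (M.map q) ∣ Nat.card H := by
    rw [hMq]; exact Subgroup.card_map_dvd _ _
  have hrn : ¬ r ∣ Nat.card (M.map q) := fun hd => ht r hMp (hd.trans hMqc) (Or.inl rfl)
  have hKF : ∀ K : Subgroup (G ⧸ S), K ≤ M.map q → F K := by
    intro K hK
    refine h.L h1 _ K rfl inferInstance ?_ ?_
    · intro σ hσ
      have h2 : Dcp σ (M.map q) := (hLM σ hσ).surj (q.subgroupMap M) (q.subgroupMap_surjective M)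
      exact h2.inj (Subgroup.inclusion hK) (Subgroup.inclusion_injective hK)
    · intro p hp hd
      refine hchar p hp (hd.trans ((Subgroup.card_dvd_of_le hK).trans (hMqc.trans ?_)))
      exact Subgroup.card_subgroup_dvd_card H
  by_cases hex : ∃ T : Subgroup (G ⧸ S), T.Normal ∧ Nat.card T = r
  · obtain ⟨T, hTn, hTc⟩ := hex
    have hRn : (T.comap q).Normal := hTn.comap q
    have hRc : ∀ p, p.Prime → p ∣ Nat.card (T.comap q) → rel F r p := by
      intro p hp hd
      have h2 : Nat.card (T.comap q) = Nat.card T * Nat.card S := by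
        have h3 : Nat.card (T.comap q) * (T.comap q).index = Nat.card G := Subgroup.card_mul_index _
        have h4 : (T.comap q).index = T.index := Subgroup.index_comap_of_surjective T hqs
        have h5 : Nat.card T * T.index = Nat.card (G ⧸ S) := Subgroup.card_mul_index _
        have h6 : Nat.card (G ⧸ S) * Nat.card S = Nat.card G :=
          (Subgroup.card_eq_card_quotient_mul_card_subgroup S).symm
        have h7 : 0 < T.index := Nat.pos_of_ne_zero Subgroup.index_ne_zero_of_finite
        refine Nat.eq_of_mul_eq_mul_right h7 ?_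
        rw [← h4, h3, ← h6, ← h5, h4]; ring
      rw [h2, hTc, hp.dvd_mul] at hd
      rcases hd with hd | hd
      · exact Or.inl ((Nat.prime_dvd_prime_iff_eq hp hMp).1 hd).symm
      · exact hs p hp hd
    have hSR : S ≤ T.comap q := by
      intro x hx
      rw [Subgroup.mem_comap, (hqk x).2 hx]; exact T.one_mem
    have hRM : ¬ T.comap q ≤ M := by
      intro hle
      apply hrn
      rw [← hTc]
      refine Subgroup.card_dvd_of_le ?_
      intro x hx
      obtain ⟨x, rfl⟩ := hqs x
      exact ⟨x, hle hx, rfl⟩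
    have hsupR : T.comap q ⊔ H = ⊤ := by
      have hle : M ≤ T.comap q ⊔ H := by
        rw [hMsup]
        exact sup_le_sup hSR le_rfl
      refine hMc.2 _ (lt_of_le_of_ne hle ?_)
      intro heq
      exact hRM (le_sup_left.trans heq.symm.le)
    intro σ hσ
    exact Dcp.join hRn hHn hsupR (h.lam_of_class r hRc σ hσ) (hLsub H hHM σ hσ)
  · exfalso
    push Not at hex
    obtain ⟨s, hsp, hsd, hE⟩ := h.Eprime (r := r) (t := r) hFr (by
      intro W _ _ T hT hTq hTi
      refine h.pgrp hFr W ?_
      obtain ⟨m, hm⟩ := IsPGroup.iff_card.1 hTq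
      refine IsPGroup.of_card (n := m + 1) ?_
      rw [← T.card_mul_index, hm, hTi, pow_succ]) _ (G ⧸ S) (M.map q) rfl hFGS hMqn hMqi hrn hrn
      hKF hex
    exact ht s hsp (hsd.trans hMqc) (Or.inr ⟨hMp, hsp, hE⟩)

/-- the main theorem: quotients -/
theorem FC.quot (G : Type) [Group G] (N : Subgroup G) [N.Normal] (hG : F G) : F (G ⧸ N) := by
  have fG := (h.fin G hG).1
  have sG := (h.fin G hG).2
  have h1 : ∀ (T : Type) [Group T], Nat.card T = 1 → F T := by
    intro T _ hT
    have h2 : F (⊥ : Subgroup G) := h.sn _ _ inferInstance hG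
    have h3 : Subsingleton T := (Nat.card_eq_one_iff_unique.1 hT).1
    let _ : Unique T := { default := 1, uniq := fun _ => Subsingleton.elim _ _ }
    exact h.of_equiv (G := (⊥ : Subgroup G)) (H := T) MulEquiv.ofUnique h2
  refine h.L h1 _ (G ⧸ N) rfl inferInstance ?_ ?_
  · intro σ hσ
    exact (h.M h1 _ G rfl hG σ hσ).surj (QuotientGroup.mk' N) (QuotientGroup.mk'_surjective N)
  · intro p hp hd
    have : Fact p.Prime := ⟨hp⟩
    exact h.char _ G rfl hG (hd.trans (Subgroup.card_quotient_dvd_card N))

/-- the main theorem: subdirect products -/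
theorem FC.subd (G : Type) [Group G] [Finite G] (N M : Subgroup G) [N.Normal] [M.Normal]
    (hNM : N ⊓ M = ⊥) (hN : F (G ⧸ N)) (hM : F (G ⧸ M)) : F G := by
  have s1 := (h.fin _ hN).2
  have s2 := (h.fin _ hM).2
  have h1 : ∀ (T : Type) [Group T], Nat.card T = 1 → F T := by
    intro T _ hT
    have h2 : F (⊥ : Subgroup (G ⧸ N)) := h.sn _ _ inferInstance hN
    have h3 : Subsingleton T := (Nat.card_eq_one_iff_unique.1 hT).1
    let _ : Unique T := { default := 1, uniq := fun _ => Subsingleton.elim _ _ }
    exact h.of_equiv (G := (⊥ : Subgroup (G ⧸ N))) (H := T) MulEquiv.ofUnique h2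
  let f : G →* (G ⧸ N) × (G ⧸ M) := (QuotientGroup.mk' N).prod (QuotientGroup.mk' M)
  have hf : Function.Injective f := by
    rw [injective_iff_map_eq_one]
    intro x hx
    have h2 : x ∈ N := (QuotientGroup.eq_one_iff x).1 (congrArg Prod.fst hx)
    have h3 : x ∈ M := (QuotientGroup.eq_one_iff x).1 (congrArg Prod.snd hx)
    have h4 : x ∈ N ⊓ M := ⟨h2, h3⟩
    rwa [hNM, Subgroup.mem_bot] at h4
  refine h.L h1 _ G rfl (Group.isSolvable_of_isSolvable_injective hf) ?_ ?_
  · intro σ hσ
    exact ((h.M h1 _ _ rfl hN σ hσ).prod (h.M h1 _ _ rfl hM σ hσ)).inj f hf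
  · intro p hp hd
    have : Fact p.Prime := ⟨hp⟩
    have h2 : Nat.card G ∣ Nat.card (G ⧸ N) * Nat.card (G ⧸ M) := by
      rw [← Nat.card_prod]
      exact Subgroup.card_dvd_of_injective f hf
    rcases (hp.dvd_mul).1 (hd.trans h2) with h3 | h3
    · exact h.char _ _ rfl hN h3
    · exact h.char _ _ rfl hM h3

end

end Pool.Agent.Helper813.AF
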