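import Pool.Agent.Helper813.AF.Dec

set_option autoImplicit false
set_option linter.unusedSectionVars false
set_option linter.unusedVariables false

namespace Pool.Agent.Helper813.AF

open scoped commutatorElement

section

variable {Y Ω S : Type} [Group Y] [Group S] [MulAction Y Ω]

/-- elements with all coordinates in a subgroup -/
def X.kin (K : Subgroup S) : Subgroup (X Y Ω S) where
  carrier := {x | ∀ ω, x.k ω ∈ K}
  one_mem' := fun ω => K.one_mem
  mul_mem' := by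
    intro a b ha hb ω
    exact K.mul_mem (ha ω) (hb _)
  inv_mem' := by
    intro a ha ω
    exact K.inv_mem (ha _)

lemma X.mem_kin {K : Subgroup S} {x : X Y Ω S} : x ∈ X.kin K ↔ ∀ ω, x.k ω ∈ K := Iff.rfl

@[simp] lemma X.fn_k (f : Ω → S) (ω : Ω) : (X.fn f : X Y Ω S).k ω = f ω := rfl
@[simp] lemma X.fn_y (f : Ω → S) : (X.fn f : X Y Ω S).y = 1 := rfl

lemma X.eq_fn {x : X Y Ω S} (hx : x.y = 1) : x = X.fn x.k := X.ext rfl hx

lemma X.pow_k_of_y {x : X Y Ω S} (hx : x.y = 1) (n : ℕ) (ω : Ω) : (x ^ n).k ω = (x.k ω) ^ n := by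
  rw [X.eq_fn hx, ← map_pow]; rfl

lemma X.pow_card {K : Subgroup S} {x : X Y Ω S} (hx : x ∈ (X.kin K : Subgroup (X Y Ω S))) :
    x ^ (Nat.card Y * Nat.card K) = 1 := by
  rw [pow_mul]
  have h1 : (x ^ Nat.card Y).y = 1 := by
    rw [X_pow_y]; exact pow_card_eq_one'
  have h2 : x ^ Nat.card Y ∈ (X.kin K : Subgroup (X Y Ω S)) := pow_mem hx _
  apply X.ext
  · funext ω
    rw [X.pow_k_of_y h1]
    have h3 : (⟨(x ^ Nat.card Y).k ω, h2 ω⟩ : K) ^ Nat.card K = 1 := pow_card_eq_one'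
    exact congrArg Subtype.val h3
  · rw [X_pow_y, h1]; simp

lemma isPGroup_of_pow {p : ℕ} {G : Type} [Group G] {n m : ℕ} (h1 : n = p ^ m)
    (h2 : ∀ g : G, g ^ n = 1) : IsPGroup p G := by
  intro g
  exact ⟨m, by rw [← h1]; exact h2 g⟩

lemma X.isPGroup {p : ℕ} [Fact p.Prime] [Finite Y] [Finite S] (hY : IsPGroup p Y)
    (hS : IsPGroup p S) : IsPGroup p (X Y Ω S) := by
  obtain ⟨a, ha⟩ := IsPGroup.iff_card.1 hY
  obtain ⟨b, hb⟩ := IsPGroup.iff_card.1 hS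
  have e : Nat.card Y * Nat.card (⊤ : Subgroup S) = p ^ (a + b) := by
    rw [Subgroup.card_top, ha, hb, pow_add]
  exact isPGroup_of_pow e (fun x => X.pow_card (K := ⊤) (fun ω => Subgroup.mem_top _))

lemma X.kin_isPGroup {p : ℕ} [Fact p.Prime] [Finite Y] [Finite S] (hY : IsPGroup p Y)
    {K : Subgroup S} (hS : IsPGroup p K) (H : Subgroup (X Y Ω S)) (hH : H ≤ X.kin K) :
    IsPGroup p H := by
  obtain ⟨a, ha⟩ := IsPGroup.iff_card.1 hY
  obtain ⟨b, hb⟩ := IsPGroup.iff_card.1 hS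
  have e : Nat.card Y * Nat.card K = p ^ (a + b) := by
    rw [ha, hb, pow_add]
  refine isPGroup_of_pow e ?_
  intro x
  apply Subtype.ext
  exact X.pow_card (hH x.2)

/-- functoriality in the coefficients -/
def X.map {S' : Type} [Group S'] (f : S →* S') : X Y Ω S →* X Y Ω S' where
  toFun x := ⟨fun ω => f (x.k ω), x.y⟩
  map_one' := by
    apply X.ext
    · funext ω; simp
    · rfl
  map_mul' a b := by
    apply X.ext
    · funext ω; simp
    · rfl

@[simp] lemma X.map_k {S' : Type} [Group S'] (f : S →* S') (x : X Y Ω S) (ω : Ω) :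
    (X.map f x).k ω = f (x.k ω) := rfl
@[simp] lemma X.map_y {S' : Type} [Group S'] (f : S →* S') (x : X Y Ω S) :
    (X.map f x).y = x.y := rfl

/-- two coordinates -/
def X.two [DecidableEq Ω] (ω₀ ω₁ : Ω) : S × S →* X Y Ω S :=
  MonoidHom.mk' (fun g => ⟨fun ω => if ω = ω₀ then g.1 else if ω = ω₁ then g.2 else 1, 1⟩) (by
    intro a b
    apply X.ext
    · funext ω
      simp only [X.mul_k, inv_one, one_smul]
      split_ifs <;> simp
    · simp)

lemma X.two_k [DecidableEq Ω] (ω₀ ω₁ : Ω) (g : S × S) (ω : Ω) :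
    (X.two ω₀ ω₁ g : X Y Ω S).k ω = if ω = ω₀ then g.1 else if ω = ω₁ then g.2 else 1 := rfl
@[simp] lemma X.two_y [DecidableEq Ω] (ω₀ ω₁ : Ω) (g : S × S) :
    (X.two ω₀ ω₁ g : X Y Ω S).y = 1 := rfl

lemma X.two_k0 [DecidableEq Ω] (ω₀ ω₁ : Ω) (g : S × S) :
    (X.two ω₀ ω₁ g : X Y Ω S).k ω₀ = g.1 := by simp [X.two_k]
lemma X.two_k1 [DecidableEq Ω] (ω₀ ω₁ : Ω) (hne : ω₁ ≠ ω₀) (g : S × S) :
    (X.two ω₀ ω₁ g : X Y Ω S).k ω₁ = g.2 := by simp [X.two_k, hne]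

end

section

variable {G Q : Type} [Group G] [CommGroup Q] (C Ω : Type) [Group C] [Fintype C] [MulAction C Ω]

/-- orbit products -/
def X.orb (π : G →* Q) : X C Ω G →* (Ω → Q) where
  toFun x ω := ∏ c : C, π (x.k (c • ω))
  map_one' := by funext ω; simp
  map_mul' a b := by
    funext ω
    simp only [X.mul_k, map_mul, Finset.prod_mul_distrib, Pi.mul_apply]
    congr 1
    refine Fintype.prod_equiv (Equiv.mulLeft a.y⁻¹) _ _ ?_
    intro c
    simp [mul_smul]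

/-- elements whose orbit products are trivial -/
def XO (π : G →* Q) : Subgroup (X C Ω G) := (X.orb C Ω π).ker

variable {C Ω}

lemma mem_XO {π : G →* Q} {x : X C Ω G} : x ∈ XO C Ω π ↔ ∀ ω, ∏ c : C, π (x.k (c • ω)) = 1 := by
  unfold XO
  rw [MonoidHom.mem_ker]
  exact funext_iff

lemma mem_XO_congr {G' : Type} [Group G'] {π : G →* Q} {π' : G' →* Q} {x : X C Ω G}
    {x' : X C Ω G'} (hx : ∀ ω, π (x.k ω) = π' (x'.k ω)) : x ∈ XO C Ω π ↔ x' ∈ XO C Ω π' := by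
  rw [mem_XO, mem_XO]
  simp only [hx]

lemma mem_XO_of_ker {π : G →* Q} {x : X C Ω G} (hx : ∀ ω, x.k ω ∈ π.ker) : x ∈ XO C Ω π := by
  rw [mem_XO]
  intro ω
  refine Finset.prod_eq_one ?_
  intro c _
  exact hx _

lemma two_mem [DecidableEq Ω] {π : G →* Q} (ω₀ : Ω) (u : C) (hne : u • ω₀ ≠ ω₀) (g : G × G)
    (hg : π g.1 * π g.2 = 1) : X.two ω₀ (u • ω₀) g ∈ XO C Ω π := by
  classical
  rw [mem_XO]
  intro ω
  have h2 : π g.2 = (π g.1)⁻¹ := by
    rw [mul_comm] at hg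
    exact eq_inv_of_mul_eq_one_left hg
  have h1 : ∀ c : C, π ((X.two ω₀ (u • ω₀) g : X C Ω G).k (c • ω)) =
      (if c • ω = ω₀ then π g.1 else 1) * (if c • ω = u • ω₀ then (π g.1)⁻¹ else 1) := by
    intro c
    rw [X.two_k]
    by_cases h3 : c • ω = ω₀
    · have h4 : c • ω ≠ u • ω₀ := by
        rw [h3]; exact Ne.symm hne
      rw [if_pos h3, if_pos h3, if_neg h4, mul_one]
    · rw [if_neg h3, if_neg h3, one_mul]
      by_cases h4 : c • ω = u • ω₀
      · rw [if_pos h4, if_pos h4, h2]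
      · rw [if_neg h4, if_neg h4, map_one]
  simp only [h1]
  rw [Finset.prod_mul_distrib]
  have h3 : ∏ c : C, (if c • ω = u • ω₀ then (π g.1)⁻¹ else 1) =
      ∏ c : C, (if c • ω = ω₀ then (π g.1)⁻¹ else 1) := by
    refine Fintype.prod_equiv (Equiv.mulLeft u⁻¹) _ _ ?_
    intro c
    have h4 : c • ω = u • ω₀ ↔ (Equiv.mulLeft u⁻¹ c) • ω = ω₀ := by
      rw [Equiv.coe_mulLeft, mul_smul, inv_smul_eq_iff]
    by_cases h5 : c • ω = u • ω₀
    · rw [if_pos h5, if_pos (h4.1 h5)]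
    · rw [if_neg h5, if_neg (fun h6 => h5 (h4.2 h6))]
  rw [h3, ← Finset.prod_mul_distrib]
  refine Finset.prod_eq_one ?_
  intro c _
  by_cases h5 : c • ω = ω₀
  · rw [if_pos h5, if_pos h5, mul_inv_cancel]
  · rw [if_neg h5, if_neg h5, mul_one]

end

/-- base part normality -/
lemma kin_normal {Y Ω S : Type} [Group Y] [Group S] [MulAction Y Ω] {K : Subgroup S}
    (hK : K.Normal) : (X.kin K ⊓ (X.pr : X Y Ω S →* Y).ker).Normal := by
  classical
  constructor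
  rintro x ⟨hx, hx'⟩ g
  refine ⟨?_, (MonoidHom.normal_ker _).conj_mem x hx' g⟩
  intro ω
  rw [X.conj_k _ _ _ (X.mem_ker.1 hx')]
  exact hK.conj_mem _ (hx _) _

end Pool.Agent.Helper813.AF
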