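import Pool.Agent.Helper813.AF.XO

set_option autoImplicit false
set_option linter.unusedSectionVars false
set_option linter.unusedVariables false

namespace Pool.Agent.Helper813.AF

open scoped commutatorElement

lemma sylow_surj {q : ℕ} [Fact q.Prime] {G Q : Type} [Group G] [Finite G] [Group Q] (π : G →* Q)
    (hπ : Function.Surjective π) (hQ : IsPGroup q Q) (V : Sylow q G) :
    ∀ z : Q, ∃ v ∈ (V : Subgroup G), π v = z := by
  intro z
  have h1 : ((Sylow.mapSurjective hπ V : Sylow q Q) : Subgroup Q) = ⊤ := by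
    have h2 : IsPGroup q (⊤ : Subgroup Q) := hQ.to_subgroup _
    exact ((Sylow.mapSurjective hπ V).is_maximal' h2 le_top).symm
  have h2 : z ∈ ((Sylow.mapSurjective hπ V : Sylow q Q) : Subgroup Q) := by rw [h1]; trivial
  rw [Sylow.coe_mapSurjective] at h2
  obtain ⟨v, hv, hvz⟩ := h2
  exact ⟨v, hv, hvz⟩

/-- the map of `XO`'s induced by `π` -/
def XOmap {G Q : Type} [Group G] [CommGroup Q] (C Ω : Type) [Group C] [Fintype C] [MulAction C Ω]
    (π : G →* Q) : ↥(XO C Ω π) →* ↥(XO C Ω (MonoidHom.id Q)) :=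
  ((X.map π).comp (XO C Ω π).subtype).codRestrict _ (fun x => (mem_XO_congr (fun ω => rfl)).1 x.2)

lemma XOmap_k {G Q : Type} [Group G] [CommGroup Q] {C Ω : Type} [Group C] [Fintype C]
    [MulAction C Ω] (π : G →* Q) (x : XO C Ω π) (ω : Ω) : (XOmap C Ω π x).1.k ω = π (x.1.k ω) := rfl

lemma XOmap_y {G Q : Type} [Group G] [CommGroup Q] {C Ω : Type} [Group C] [Fintype C]
    [MulAction C Ω] (π : G →* Q) (x : XO C Ω π) : (XOmap C Ω π x).1.y = x.1.y := rfl

lemma XOmap_surj {G Q : Type} [Group G] [CommGroup Q] {C Ω : Type} [Group C] [Fintype C]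
    [MulAction C Ω] (π : G →* Q) (hπ : Function.Surjective π) :
    Function.Surjective (XOmap C Ω π) := by
  rintro ⟨z, hz⟩
  choose g hg using hπ
  refine ⟨⟨⟨fun ω => g (z.k ω), z.y⟩, (mem_XO_congr (fun ω => hg _)).2 hz⟩, ?_⟩
  apply Subtype.ext
  apply X.ext
  · funext ω; exact hg _
  · rfl

section

variable {F : (G : Type) → [Group G] → Prop} (h : FC F)

include h

lemma FC.Z1nil {p q : ℕ} [Fact p.Prime] [Fact q.Prime] (hpq : p ≠ q) {C Ω Q : Type} [Group C]
    [Fintype C] [Finite Ω] [MulAction C Ω] (hC : Nat.card C = p) [CommGroup Q]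
    (hQ : IsPGroup q Q) (hFp : F (Cyc p)) (hid : F ↥(XO C Ω (MonoidHom.id Q)))
    (G : Type) [Group G] [Finite G] (hG : Group.IsNilpotent G) (π : G →* Q)
    (hπ : Function.Surjective π) (hP : IsPGroup p π.ker) : F ↥(XO C Ω π) := by
  obtain ⟨V⟩ : Nonempty (Sylow q G) := inferInstance
  have hsyl : ∀ (p : ℕ), Fact (Nat.Prime p) → ∀ (P : Sylow p G), (P : Subgroup G).Normal :=
    (Group.isNilpotent_of_finite_tfae.out 0 3).1 hG
  have hVn : (V : Subgroup G).Normal := hsyl q ‹_› V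
  have hV := sylow_surj π hπ hQ V
  have hCp : IsPGroup p C := IsPGroup.of_card (n := 1) (by rw [hC, pow_one])
  have hdec : ∀ g : G, ∃ x ∈ π.ker, ∃ v ∈ (V : Subgroup G), g = x * v := by
    intro g
    obtain ⟨v, hv, hvg⟩ := hV (π g)
    refine ⟨g * v⁻¹, ?_, v, hv, by group⟩
    rw [MonoidHom.mem_ker, map_mul, map_inv, hvg, mul_inv_cancel]
  have hCc : ∀ a b : C, a * b * a⁻¹ * b⁻¹ = 1 := by
    intro a b
    have hcyc : IsCyclic C := isCyclic_of_prime_card hC
    obtain ⟨g, hg⟩ := hcyc.exists_generator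
    obtain ⟨i, rfl⟩ := hg a
    obtain ⟨j, rfl⟩ := hg b
    simp only
    rw [← zpow_add, ← zpow_neg, ← zpow_add, ← zpow_neg, ← zpow_add]
    have e : i + j + -i + -j = 0 := by ring
    rw [e, zpow_zero]
  let f₁ : ↥(XO C Ω π) →* X C Ω (G ⧸ (V : Subgroup G)) :=
    (X.map (QuotientGroup.mk' (V : Subgroup G))).comp (XO C Ω π).subtype
  have hquot : IsPGroup p (G ⧸ (V : Subgroup G)) := by
    have hs : Function.Surjective ((QuotientGroup.mk' (V : Subgroup G)).comp π.ker.subtype) := by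
      intro z
      obtain ⟨g, rfl⟩ := QuotientGroup.mk'_surjective _ z
      obtain ⟨x, hx, v, hv, rfl⟩ := hdec g
      refine ⟨⟨x, hx⟩, ?_⟩
      show ((x : G) : G ⧸ (V : Subgroup G)) = ((x * v : G) : G ⧸ (V : Subgroup G))
      rw [QuotientGroup.eq]
      have e : x⁻¹ * (x * v) = v := by group
      rw [e]; exact hv
    exact hP.of_surjective _ hs
  refine h.sub f₁ (XOmap C Ω π) ?_ (XOmap_surj π hπ) ?_ ?_
    (h.pgrp hFp _ (X.isPGroup hCp hquot)) hid
  · intro z
    have h1 : ∀ ω, ∃ x ∈ π.ker, ((x : G) : G ⧸ (V : Subgroup G)) = z.k ω := by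
      intro ω
      obtain ⟨g, hg⟩ := QuotientGroup.mk'_surjective _ (z.k ω)
      obtain ⟨x, hx, v, hv, rfl⟩ := hdec g
      refine ⟨x, hx, ?_⟩
      rw [← hg]
      show ((x : G) : G ⧸ (V : Subgroup G)) = ((x * v : G) : G ⧸ (V : Subgroup G))
      rw [QuotientGroup.eq]
      have e : x⁻¹ * (x * v) = v := by group
      rw [e]; exact hv
    choose x hx hxz using h1
    refine ⟨⟨⟨x, z.y⟩, mem_XO_of_ker hx⟩, ?_⟩
    apply X.ext
    · funext ω; exact hxz ω
    · rfl
  · rintro ⟨x, hx⟩ h1 h2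
    apply Subtype.ext
    have hd : Disjoint (V : Subgroup G) π.ker :=
      IsPGroup.disjoint_of_ne q p (Ne.symm hpq) _ _ V.isPGroup' hP
    apply X.ext
    · funext ω
      have e1 : x.k ω ∈ (V : Subgroup G) :=
        (QuotientGroup.eq_one_iff _).1 (congrArg (fun z : X C Ω (G ⧸ (V : Subgroup G)) => z.k ω) h1)
      have e2 : x.k ω ∈ π.ker :=
        congrArg (fun z : ↥(XO C Ω (MonoidHom.id Q)) => z.1.k ω) h2
      exact Subgroup.disjoint_def.1 hd e1 e2
    · exact congrArg (fun z : X C Ω (G ⧸ (V : Subgroup G)) => z.y) h1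
  · intro x y
    set c := x * y * x⁻¹ * y⁻¹ with hc
    have hcy : c.1.y = 1 := hCc x.1.y y.1.y
    choose a ha v hv hav using fun ω => hdec (c.1.k ω)
    have h1 : (⟨v, 1⟩ : X C Ω G) ∈ XO C Ω π := by
      refine (mem_XO_congr (x' := c.1) ?_).2 c.2
      intro ω
      rw [hav ω, map_mul, show π (a ω) = 1 from ha ω, one_mul]
    have h2 : (⟨a, 1⟩ : X C Ω G) ∈ XO C Ω π := mem_XO_of_ker ha
    have e : c = (⟨⟨a, 1⟩, h2⟩ : ↥(XO C Ω π)) * ⟨⟨v, 1⟩, h1⟩ := by
      apply Subtype.ext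
      apply X.ext
      · funext ω
        show c.1.k ω = a ω * v ((1 : C)⁻¹ • ω)
        rw [hav ω, inv_one, one_smul]
      · show c.1.y = 1 * 1
        rw [hcy, one_mul]
    rw [e, sup_comm]
    refine Subgroup.mul_mem_sup ?_ ?_
    · rw [MonoidHom.mem_ker]
      apply Subtype.ext
      apply X.ext
      · funext ω; exact ha ω
      · rfl
    · rw [MonoidHom.mem_ker]
      apply X.ext
      · funext ω; exact (QuotientGroup.eq_one_iff _).2 (hv ω)
      · rfl

end

end Pool.Agent.Helper813.AF
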