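import Pool.Agent.Helper813.AF.Z1

set_option autoImplicit false
set_option linter.unusedSectionVars false
set_option linter.unusedVariables false

namespace Pool.Agent.Helper813.AF

open scoped commutatorElement

lemma kin_isPGroup' {Y Ω S : Type} [Group Y] [Group S] [MulAction Y Ω] {p : ℕ} [Fact p.Prime]
    [Finite Y] [Finite S] (hY : IsPGroup p Y) {K : Subgroup S} (hS : IsPGroup p K)
    (W : Subgroup (X Y Ω S)) (H : Subgroup W) (hH : ∀ x ∈ H, (x : X Y Ω S) ∈ X.kin K) :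
    IsPGroup p H := by
  obtain ⟨a, ha⟩ := IsPGroup.iff_card.1 hY
  obtain ⟨b, hb⟩ := IsPGroup.iff_card.1 hS
  have e : Nat.card Y * Nat.card K = p ^ (a + b) := by
    rw [ha, hb, pow_add]
  refine isPGroup_of_pow e ?_
  intro x
  apply Subtype.ext
  apply Subtype.ext
  exact X.pow_card (hH x x.2)

lemma X.pow_card_base {Y Ω S : Type} [Group Y] [Group S] [MulAction Y Ω] {K : Subgroup S}
    {x : X Y Ω S} (hx : x ∈ (X.kin K : Subgroup (X Y Ω S))) (hy : x.y = 1) :
    x ^ (Nat.card K) = 1 := by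
  apply X.ext
  · funext ω
    rw [X.pow_k_of_y hy]
    have h3 : (⟨x.k ω, hx ω⟩ : K) ^ Nat.card K = 1 := pow_card_eq_one'
    exact congrArg Subtype.val h3
  · rw [X_pow_y, hy]; simp

lemma kin_isPGroup_base {Y Ω S : Type} [Group Y] [Group S] [MulAction Y Ω] {p : ℕ} [Fact p.Prime]
    [Finite S] {K : Subgroup S} (hS : IsPGroup p K)
    (W : Subgroup (X Y Ω S)) (H : Subgroup W)
    (hH : ∀ x ∈ H, (x : X Y Ω S) ∈ X.kin K ∧ (x : X Y Ω S).y = 1) :
    IsPGroup p H := by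
  obtain ⟨b, hb⟩ := IsPGroup.iff_card.1 hS
  refine isPGroup_of_pow hb ?_
  intro x
  apply Subtype.ext
  apply Subtype.ext
  exact X.pow_card_base (hH x x.2).1 (hH x x.2).2

lemma coprime_of_pgroups {p q : ℕ} [Fact p.Prime] [Fact q.Prime] (hpq : p ≠ q) {A B : Type}
    [Group A] [Group B] [Finite A] [Finite B] (hA : IsPGroup p A) (hB : IsPGroup q B) :
    (Nat.card A).Coprime (Nat.card B) := by
  obtain ⟨a, ha⟩ := IsPGroup.iff_card.1 hA
  obtain ⟨b, hb⟩ := IsPGroup.iff_card.1 hB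
  rw [ha, hb]
  exact Nat.Coprime.pow _ _ ((Nat.coprime_primes (Fact.out : p.Prime) (Fact.out : q.Prime)).2 hpq)

section

variable {p q : ℕ} [Fact p.Prime] [Fact q.Prime] (hpq : p ≠ q) {C Ω Q : Type} [Group C]
    [Fintype C] [Finite Ω] [MulAction C Ω] (hC : Nat.card C = p) [CommGroup Q] [Finite Q]
    (hQ : IsPGroup q Q)

include hpq hC hQ

/-- the complement is abnormal -/
lemma abn_top : Abn (G := ↥(XO C Ω (MonoidHom.id Q))) ((X.kin ⊥).subgroupOf _) := by
  classical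
  have hCp : IsPGroup p C := IsPGroup.of_card (n := 1) (by rw [hC, pow_one])
  have hbot : IsPGroup p (⊥ : Subgroup Q) := IsPGroup.of_bot
  have hk : ∀ (x : ↥(XO C Ω (MonoidHom.id Q))), x ∈ (X.kin ⊥).subgroupOf (XO C Ω (MonoidHom.id Q)) ↔
      ∀ ω, x.1.k ω = 1 := fun x => Iff.rfl
  refine abn_avg ((X.kin ⊥).subgroupOf _) ((X.pr : X C Ω Q →* C).ker.subgroupOf _) ⊥
    ((X.kin ⊥).subgroupOf _) inferInstance inferInstance bot_le bot_le le_rfl ?_ ?_ ?_
    (Nat.card Q) ?_ ?_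
  · rintro ⟨g, hg⟩
    refine ⟨⟨⟨g.k, 1⟩, (mem_XO_congr (fun ω => rfl)).1 hg⟩, ?_,
      ⟨X.inY g.y, mem_XO_of_ker (fun ω => one_mem _)⟩, ?_, ?_⟩
    · exact X.mem_ker.2 rfl
    · exact fun ω => rfl
    · apply Subtype.ext
      exact X_decomp g
  · rintro ⟨x, hx'⟩ hx ⟨y, hy'⟩ hy
    have hx1 : x.y = 1 := X.mem_ker.1 hx
    have hy1 : y.y = 1 := X.mem_ker.1 hy
    rw [Subgroup.mem_bot]
    apply Subtype.ext
    apply X.ext
    · funext ω
      show (x * y * x⁻¹ * y⁻¹).k ω = 1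
      simp only [X.mul_k, X.inv_k, X.mul_y, X.inv_y, hx1, hy1, one_smul, mul_one, inv_one]
      rw [mul_comm (x.k ω) (y.k ω)]; group
    · show (x * y * x⁻¹ * y⁻¹).y = 1
      simp [hx1, hy1]
  · rintro ⟨n, hn'⟩ hn hv
    have hn1 : n.y = 1 := X.mem_ker.1 hn
    have h1 : ∀ (c : C) (ω : Ω), n.k (c • ω) = n.k ω := by
      intro c ω
      have h2 := hv ⟨X.inY c, mem_XO_of_ker (fun ω => one_mem _)⟩ (fun ω => rfl)
      rw [Subgroup.mem_bot, mul_inv_eq_one] at h2
      have h3 := congrArg (fun z : ↥(XO C Ω (MonoidHom.id Q)) => z.1.k (c • ω)) h2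
      have h4 : (X.inY c * n * (X.inY c)⁻¹).k (c • ω) = n.k (c • ω) := h3
      simpa [hn1] using h4.symm
    rw [Subgroup.mem_bot]
    apply Subtype.ext
    apply X.ext
    · funext ω
      show n.k ω = 1
      have h2 := mem_XO.1 hn' ω
      simp only [h1, MonoidHom.id_apply] at h2
      rw [Finset.prod_const, Finset.card_univ, ← Nat.card_eq_fintype_card, hC] at h2
      obtain ⟨b, hb⟩ := hQ (n.k ω)
      have h3 : orderOf (n.k ω) ∣ Nat.gcd p (q ^ b) :=
        Nat.dvd_gcd (orderOf_dvd_of_pow_eq_one h2) (orderOf_dvd_of_pow_eq_one hb)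
      have h4 : Nat.Coprime p (q ^ b) := Nat.Coprime.pow_right _
        ((Nat.coprime_primes (Fact.out : p.Prime) (Fact.out : q.Prime)).2 hpq)
      rw [h4] at h3
      exact orderOf_eq_one_iff.1 (Nat.dvd_one.1 h3)
    · exact hn1
  · rintro ⟨n, hn'⟩ hn
    have hn1 : n.y = 1 := X.mem_ker.1 hn
    rw [Subgroup.mem_bot]
    apply Subtype.ext
    show n ^ Nat.card Q = 1
    have := X.pow_card_base (K := ⊤) (x := n) (fun ω => Subgroup.mem_top _) hn1
    rwa [Subgroup.card_top] at this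
  · refine coprime_of_pgroups hpq ?_ hQ
    exact kin_isPGroup' hCp hbot _ _ (fun x hx => hx)

end

section

variable {F : (G : Type) → [Group G] → Prop} (h : FC F)

include h

theorem FC.Z1 {p q : ℕ} [Fact p.Prime] [Fact q.Prime] (hpq : p ≠ q) {C Ω Q : Type} [Group C]
    [Fintype C] [Finite Ω] [MulAction C Ω] (hC : Nat.card C = p)
    (hfree : ∀ u : C, u ≠ 1 → ∀ ω : Ω, u • ω ≠ ω) [CommGroup Q]
    (hQ : IsPGroup q Q) (hFp : F (Cyc p)) (hid : F ↥(XO C Ω (MonoidHom.id Q))) :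
    ∀ n, ∀ (G : Type) [Group G] [Finite G] (π : G →* Q), Nat.card G = n →
      Function.Surjective π → IsPGroup p π.ker → F ↥(XO C Ω π) := by
  classical
  intro n
  induction n using Nat.strong_induction_on with
  | _ n ih =>
  intro G _ _ π hn hπ hP
  by_cases hnil : Group.IsNilpotent G
  · exact h.Z1nil hpq hC hQ hFp hid G hnil π hπ hP
  have fQ : Finite Q := Finite.of_surjective π hπ
  have hCp : IsPGroup p C := IsPGroup.of_card (n := 1) (by rw [hC, pow_one])
  obtain ⟨M, hMlt, hdec, hDn, hab, V, hVM, hVq, hVfix⟩ := decomp π hπ hQ hP hnil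
  have hdec' : ∀ g : G, ∃ a ∈ M, ∃ x ∈ π.ker, g = a * x := by
    intro g
    obtain ⟨x, hx, a, ha, rfl⟩ := hdec g
    refine ⟨a, ha, a⁻¹ * x * a, ?_, by group⟩
    have := π.normal_ker.conj_mem x hx a⁻¹
    rwa [inv_inv] at this
  -- solvability
  have solC : Group.IsSolvable C := by
    have := hCp.isNilpotent
    infer_instance
  have solP : Group.IsSolvable π.ker := by
    have := hP.isNilpotent
    infer_instance
  have solG : Group.IsSolvable G :=
    Group.isSolvable_of_ker_le_range π.ker.subtype π (by rw [Subgroup.range_subtype])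
  have solX : Group.IsSolvable (X C Ω G) := solv_X
  have solXO : Group.IsSolvable ↥(XO C Ω π) :=
    Group.isSolvable_of_isSolvable_injective (Subgroup.subtype_injective _)
  -- the subgroup `A`
  let A : Subgroup ↥(XO C Ω π) := (X.kin M).subgroupOf _
  have hFA : F A := by
    have hπM : Function.Surjective (π.comp M.subtype) := by
      intro z
      obtain ⟨g, rfl⟩ := hπ z
      obtain ⟨x, hx, a, ha, rfl⟩ := hdec g
      refine ⟨⟨a, ha⟩, ?_⟩
      have h1 : π x = 1 := hx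
      rw [map_mul, h1, one_mul]; rfl
    have hPM : IsPGroup p (π.comp M.subtype).ker := by
      intro x
      obtain ⟨k, hk⟩ := hP ⟨x, x.2⟩
      refine ⟨k, ?_⟩
      have h2 : ((x : M) : G) ^ p ^ k = 1 := congrArg Subtype.val hk
      apply Subtype.ext
      apply Subtype.ext
      exact h2
    have h1 := ih (Nat.card M) (by rw [← hn]; exact hMlt) M (π.comp M.subtype) rfl hπM hPM
    let ψ : ↥(XO C Ω (π.comp M.subtype)) →* ↥(XO C Ω π) :=
      ((X.map M.subtype).comp (XO C Ω (π.comp M.subtype)).subtype).codRestrict _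
        (fun x => (mem_XO_congr (fun ω => rfl)).1 x.2)
    have hψ : Function.Injective ψ := by
      intro x y hxy
      apply Subtype.ext
      apply X.ext
      · funext ω
        apply Subtype.ext
        exact congrArg (fun z : ↥(XO C Ω π) => z.1.k ω) hxy
      · exact congrArg (fun z : ↥(XO C Ω π) => z.1.y) hxy
    have hr : ψ.range = A := by
      apply le_antisymm
      · rintro _ ⟨x, rfl⟩
        intro ω
        exact (x.1.k ω).2
      · intro x hx
        have hx' : ∀ ω, x.1.k ω ∈ M := hx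
        refine ⟨⟨⟨fun ω => ⟨x.1.k ω, hx' ω⟩, x.1.y⟩, (mem_XO_congr (fun ω => rfl)).1 x.2⟩, ?_⟩
        rfl
    rw [← hr]
    exact h.range ψ hψ h1
  have hAbn : Abn A := by
    refine abn_avg A ((X.kin π.ker ⊓ (X.pr : X C Ω G →* C).ker).subgroupOf _)
      ((X.kin (π.ker ⊓ M) ⊓ (X.pr : X C Ω G →* C).ker).subgroupOf _)
      ((X.kin V ⊓ (X.pr : X C Ω G →* C).ker).subgroupOf _)
      ((kin_normal π.normal_ker).subgroupOf _) ((kin_normal hDn).subgroupOf _) ?_ ?_ ?_ ?_ ?_ ?_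
      (Nat.card π.ker) ?_ ?_
    · rintro x ⟨hx, hx'⟩
      exact ⟨fun ω => (hx ω).1, hx'⟩
    · rintro x ⟨hx, hx'⟩
      exact fun ω => (hx ω).2
    · rintro x ⟨hx, hx'⟩
      exact fun ω => hVM (hx ω)
    · rintro ⟨g, hg⟩
      choose x hx a ha hxa using fun ω => hdec (g.k ω)
      have h1 : (⟨a, g.y⟩ : X C Ω G) ∈ XO C Ω π := by
        refine (mem_XO_congr (x' := g) ?_).2 hg
        intro ω
        rw [hxa ω, map_mul, show π (x ω) = 1 from hx ω, one_mul]
      refine ⟨⟨⟨x, 1⟩, mem_XO_of_ker hx⟩, ⟨hx, X.mem_ker.2 rfl⟩, ⟨⟨a, g.y⟩, h1⟩, ha, ?_⟩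
      apply Subtype.ext
      apply X.ext
      · funext ω
        show g.k ω = x ω * a ((1 : C)⁻¹ • ω)
        rw [hxa ω, inv_one, one_smul]
      · show g.y = 1 * g.y
        rw [one_mul]
    · rintro ⟨x, hx'⟩ ⟨hx, hx1⟩ ⟨y, hy'⟩ ⟨hy, hy1⟩
      have hx2 : x.y = 1 := X.mem_ker.1 hx1
      have hy2 : y.y = 1 := X.mem_ker.1 hy1
      refine ⟨?_, ?_⟩
      · intro ω
        show (x * y * x⁻¹ * y⁻¹).k ω ∈ _
        simp only [X.mul_k, X.inv_k, X.mul_y, X.inv_y, hx2, hy2, one_smul, mul_one, inv_one]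
        exact hab _ (hx ω) _ (hy ω)
      · refine X.mem_ker.2 ?_
        show (x * y * x⁻¹ * y⁻¹).y = 1
        simp [hx2, hy2]
    · rintro ⟨n, hn'⟩ ⟨hn, hn1⟩ hv
      have hn2 : n.y = 1 := X.mem_ker.1 hn1
      refine ⟨?_, hn1⟩
      intro ω
      have h1 : n.k ω ∈ π.ker ⊓ M := by
        obtain ⟨u, hu⟩ : ∃ u : C, u ≠ 1 := by
          have : Nontrivial C := by
            rw [← Finite.one_lt_card_iff_nontrivial, hC]
            exact (Fact.out : p.Prime).one_lt
          exact exists_ne 1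
        refine hVfix _ (hn ω) ?_
        intro v hvV
        have h2 : (X.two ω (u • ω) (v, v⁻¹) : X C Ω G) ∈ XO C Ω π :=
          two_mem ω u (hfree u hu ω) _ (by rw [map_inv, mul_inv_cancel])
        have h3 : (X.two ω (u • ω) (v, v⁻¹) : X C Ω G) ∈ (X.kin V ⊓ (X.pr : X C Ω G →* C).ker) := by
          refine ⟨?_, X.mem_ker.2 rfl⟩
          intro ω'
          rw [X.two_k]
          split_ifs
          · exact hvV
          · exact V.inv_mem hvV
          · exact V.one_mem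
        have h4 := (hv ⟨_, h2⟩ h3).1 ω
        have h5 : (X.two ω (u • ω) (v, v⁻¹) * n * (X.two ω (u • ω) (v, v⁻¹))⁻¹ * n⁻¹ : X C Ω G).k ω ∈
          π.ker ⊓ M := h4
        simp only [X.mul_k, X.inv_k, X.mul_y, X.inv_y, X.two_y, hn2, inv_one, one_smul, mul_one,
          X.two_k0] at h5
        exact h5
      exact h1
    · rintro ⟨n, hn'⟩ ⟨hn, hn1⟩
      have hn2 : n.y = 1 := X.mem_ker.1 hn1
      have h1 : (⟨n, hn'⟩ : ↥(XO C Ω π)) ^ Nat.card π.ker = 1 := by
        apply Subtype.ext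
        exact X.pow_card_base hn hn2
      rw [h1]
      exact one_mem _
    · refine coprime_of_pgroups (Ne.symm hpq) ?_ hP
      exact kin_isPGroup_base hVq _ _ (fun x hx => ⟨hx.1, X.mem_ker.1 hx.2⟩)
  -- the subgroup `B`
  let B : Subgroup ↥(XO C Ω π) := (X.kin π.ker).subgroupOf _
  have hFB : F B := by
    refine h.pgrp hFp _ ?_
    exact kin_isPGroup' hCp hP _ _ (fun x hx => hx)
  have hBbn : Abn B := by
    have h1 := abn_comap (XOmap C Ω π) (XOmap_surj π hπ) (abn_top (Ω := Ω) hpq hC hQ)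
    exact h1
  refine h.af _ solXO A B hAbn hBbn hFA hFB ?_
  rintro ⟨g, hg⟩
  choose a ha x hx hxa using fun ω => hdec' (g.k ω)
  have h1 : (⟨a, 1⟩ : X C Ω G) ∈ XO C Ω π := by
    refine (mem_XO_congr (x' := g) ?_).2 hg
    intro ω
    rw [hxa ω, map_mul, show π (x ω) = 1 from hx ω, mul_one]
  refine ⟨⟨⟨a, 1⟩, h1⟩, ha, ⟨⟨x, g.y⟩, mem_XO_of_ker hx⟩, hx, ?_⟩
  apply Subtype.ext
  apply X.ext
  · funext ω
    show a ω * x ((1 : C)⁻¹ • ω) = g.k ω
    rw [hxa ω, inv_one, one_smul]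
  · show 1 * g.y = g.y
    rw [one_mul]

end

end Pool.Agent.Helper813.AF
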