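import Pool.Agent.Helper813.AF.Z2

set_option autoImplicit false
set_option linter.unusedSectionVars false
set_option linter.unusedVariables false

namespace Pool.Agent.Helper813.AF

open scoped commutatorElement

/-- pairs with opposite images -/
def Dm {G Q : Type} [Group G] [CommGroup Q] (π : G →* Q) : Subgroup (G × G) :=
  (π.comp (MonoidHom.fst G G) * π.comp (MonoidHom.snd G G)).ker

lemma mem_Dm {G Q : Type} [Group G] [CommGroup Q] {π : G →* Q} {g : G × G} :
    g ∈ Dm π ↔ π g.1 * π g.2 = 1 := Iff.rfl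

/-- triples -/
def Tr {G Q : Type} [Group G] [CommGroup Q] (π : G →* Q) : Subgroup (G × (G × G)) where
  carrier := {g | π g.1 = π g.2.1 ∧ π g.2.1 * π g.2.2 = 1}
  one_mem' := by simp
  mul_mem' := by
    rintro a b ⟨ha, ha'⟩ ⟨hb, hb'⟩
    refine ⟨?_, ?_⟩
    · simp only [Prod.fst_mul, Prod.snd_mul, map_mul, ha, hb]
    · simp only [Prod.fst_mul, Prod.snd_mul, map_mul]
      rw [mul_mul_mul_comm, ha', hb', one_mul]
  inv_mem' := by
    rintro a ⟨ha, ha'⟩
    refine ⟨?_, ?_⟩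
    · simp only [Prod.fst_inv, Prod.snd_inv, map_inv, ha]
    · simp only [Prod.fst_inv, Prod.snd_inv, map_inv]
      rw [← mul_inv, ha', inv_one]

lemma mem_Tr {G Q : Type} [Group G] [CommGroup Q] {π : G →* Q} {g : G × (G × G)} :
    g ∈ Tr π ↔ π g.1 = π g.2.1 ∧ π g.2.1 * π g.2.2 = 1 := Iff.rfl

section

variable {F : (G : Type) → [Group G] → Prop} (h : FC F)

include h

lemma FC.Dm_mem {C Ω Q : Type} [Group C] [Fintype C] [Finite Ω] [MulAction C Ω] [CommGroup Q]
    {G : Type} [Group G] [Finite G] (π : G →* Q) (ω₀ : Ω) (u : C) (hu : u • ω₀ ≠ ω₀)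
    (hX : F ↥(XO C Ω π)) : F ↥(Dm π) := by
  classical
  have h1 : F ↥(XO C Ω π ⊓ (X.pr : X C Ω G →* C).ker) := by
    refine h.nsub inf_le_left ?_ hX
    rintro x ⟨hx, hx'⟩ y hy
    exact ⟨(XO C Ω π).mul_mem ((XO C Ω π).mul_mem hy hx) ((XO C Ω π).inv_mem hy),
      (MonoidHom.normal_ker _).conj_mem x hx' y⟩
  have hinj : Function.Injective (X.two ω₀ (u • ω₀) : G × G →* X C Ω G) := by
    intro a b hab
    apply Prod.ext
    · have := congrArg (fun z : X C Ω G => z.k ω₀) hab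
      simpa only [X.two_k0] using this
    · have := congrArg (fun z : X C Ω G => z.k (u • ω₀)) hab
      simpa only [X.two_k1 ω₀ (u • ω₀) hu] using this
  have hle : (Dm π).map (X.two ω₀ (u • ω₀) : G × G →* X C Ω G) ≤
      XO C Ω π ⊓ (X.pr : X C Ω G →* C).ker := by
    rintro _ ⟨g, hg, rfl⟩
    exact ⟨two_mem ω₀ u hu g (mem_Dm.1 hg), X.mem_ker.2 rfl⟩
  have h2 : F ↥((Dm π).map (X.two ω₀ (u • ω₀) : G × G →* X C Ω G)) := by
    refine h.nsub hle ?_ h1
    rintro _ ⟨g, hg, rfl⟩ y ⟨hy, hy'⟩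
    have hy1 : y.y = 1 := X.mem_ker.1 hy'
    refine ⟨(y.k ω₀ * g.1 * (y.k ω₀)⁻¹, y.k (u • ω₀) * g.2 * (y.k (u • ω₀))⁻¹), ?_, ?_⟩
    · show π (y.k ω₀ * g.1 * (y.k ω₀)⁻¹) * π (y.k (u • ω₀) * g.2 * (y.k (u • ω₀))⁻¹) = 1
      have h3 : π g.1 * π g.2 = 1 := hg
      simp only [map_mul, map_inv]
      rw [mul_inv_cancel_comm, mul_inv_cancel_comm, h3]
    · apply X.ext
      · funext ω
        rw [X.conj_k _ _ _ rfl, hy1, inv_one, one_smul, X.two_k, X.two_k]
        by_cases h3 : ω = ω₀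
        · rw [if_pos h3, if_pos h3, h3]
        · rw [if_neg h3, if_neg h3]
          by_cases h4 : ω = u • ω₀
          · rw [if_pos h4, if_pos h4, h4]
          · rw [if_neg h4, if_neg h4, mul_one, mul_inv_cancel]
      · simp [hy1]
  exact h.of_equiv ((Dm π).equivMapOfInjective _ hinj).symm h2

/-- `p`-by-(abelian `q`-group) groups -/
theorem FC.Z {p q : ℕ} [Fact p.Prime] [Fact q.Prime] (hpq : p ≠ q) {C Ω Q : Type} [Group C]
    [Fintype C] [Finite Ω] [Nonempty Ω] [MulAction C Ω] (hC : Nat.card C = p)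
    (hfree : ∀ u : C, u ≠ 1 → ∀ ω : Ω, u • ω ≠ ω) [CommGroup Q]
    (hQ : IsPGroup q Q) (hFp : F (Cyc p)) (hFq : F (Cyc q))
    (hid : F ↥(XO C Ω (MonoidHom.id Q))) :
    ∀ n, ∀ (G : Type) [Group G] [Finite G] (π : G →* Q), Nat.card G = n →
      Function.Surjective π → IsPGroup p π.ker → F G := by
  classical
  intro n
  induction n using Nat.strong_induction_on with
  | _ n ih =>
  intro G _ _ π hn hπ hP
  have fQ : Finite Q := Finite.of_surjective π hπ
  by_cases hnil : Group.IsNilpotent G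
  · refine h.nil _ G rfl hnil ?_ ?_
    · intro r hr hrG
      have h1 : Nat.card G = Nat.card π.ker * Nat.card Q := by
        rw [← π.ker.card_mul_index, Subgroup.index_ker, MonoidHom.range_eq_top.2 hπ,
          Subgroup.card_top]
      obtain ⟨a, ha⟩ := IsPGroup.iff_card.1 hP
      obtain ⟨b, hb⟩ := IsPGroup.iff_card.1 hQ
      rw [h1, ha, hb, hr.dvd_mul] at hrG
      rcases hrG with h2 | h2
      · have h3 := (Nat.prime_dvd_prime_iff_eq hr (Fact.out : p.Prime)).1 (hr.dvd_of_dvd_pow h2)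
        rw [h3]; exact hFp
      · have h3 := (Nat.prime_dvd_prime_iff_eq hr (Fact.out : q.Prime)).1 (hr.dvd_of_dvd_pow h2)
        rw [h3]; exact hFq
    · intro T _ hT
      have : Finite T := Nat.finite_of_card_ne_zero (by rw [hT]; exact one_ne_zero)
      exact h.pgrp hFp T (IsPGroup.of_card (n := 0) (by rw [hT, pow_zero]))
  obtain ⟨ω₀⟩ := (inferInstance : Nonempty Ω)
  obtain ⟨u, hu⟩ : ∃ u : C, u ≠ 1 := by
    have : Nontrivial C := by
      rw [← Finite.one_lt_card_iff_nontrivial, hC]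
      exact (Fact.out : p.Prime).one_lt
    exact exists_ne 1
  have hDm : F ↥(Dm π) :=
    h.Dm_mem π ω₀ u (hfree u hu ω₀) (h.Z1 hpq hC hfree hQ hFp hid _ G π rfl hπ hP)
  obtain ⟨M, hMlt, hdec, hDn, hab, V, hVM, hVq, hVfix⟩ := decomp π hπ hQ hP hnil
  -- solvability
  have solP : Group.IsSolvable π.ker := by
    have := hP.isNilpotent
    infer_instance
  have solG : Group.IsSolvable G :=
    Group.isSolvable_of_ker_le_range π.ker.subtype π (by rw [Subgroup.range_subtype])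
  have solT : Group.IsSolvable ↥(Tr π) :=
    Group.isSolvable_of_isSolvable_injective (Subgroup.subtype_injective _)
  have hcomm : ∀ x y : G, x * y * x⁻¹ * y⁻¹ ∈ π.ker := by
    intro x y
    rw [MonoidHom.mem_ker]
    simp only [map_mul, map_inv]
    rw [mul_comm (π x) (π y)]; group
  have hFM : F M := by
    have hπM : Function.Surjective (π.comp M.subtype) := by
      intro z
      obtain ⟨g, rfl⟩ := hπ z
      obtain ⟨x, hx, a, ha, rfl⟩ := hdec g
      refine ⟨⟨a, ha⟩, ?_⟩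
      have h1 : π x = 1 := hx
      rw [map_mul, h1, one_mul]; rfl
    have hPM : IsPGroup p (π.comp M.subtype).ker := by
      intro x
      obtain ⟨k, hk⟩ := hP ⟨x, x.2⟩
      refine ⟨k, ?_⟩
      have h2 : ((x : M) : G) ^ p ^ k = 1 := congrArg Subtype.val hk
      apply Subtype.ext
      apply Subtype.ext
      exact h2
    exact ih (Nat.card M) (by rw [← hn]; exact hMlt) M (π.comp M.subtype) rfl hπM hPM
  -- the subgroup `A`
  let A : Subgroup ↥(Tr π) := (M.comap (MonoidHom.fst G (G × G))).subgroupOf _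
  have hAk : ∀ x : ↥(Tr π), x ∈ A ↔ x.1.1 ∈ M := fun x => Iff.rfl
  have hsM : ∀ z : Q, ∃ a ∈ M, π a = z := by
    intro z
    obtain ⟨g, rfl⟩ := hπ z
    obtain ⟨x, hx, a, ha, rfl⟩ := hdec g
    refine ⟨a, ha, ?_⟩
    have h1 : π x = 1 := hx
    rw [map_mul, h1, one_mul]
  have hFA : F A := by
    let f₁ : A →* M := MonoidHom.mk' (fun x => ⟨x.1.1.1, x.2⟩) (fun a b => rfl)
    let f₂ : A →* Dm π := MonoidHom.mk' (fun x => ⟨x.1.1.2, x.1.2.2⟩) (fun a b => rfl)
    refine h.sub f₁ f₂ ?_ ?_ ?_ ?_ hFM hDm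
    · rintro ⟨a, ha⟩
      exact ⟨⟨⟨(a, (a, a⁻¹)), rfl, by rw [map_inv, mul_inv_cancel]⟩, ha⟩, rfl⟩
    · rintro ⟨⟨b, c⟩, hbc⟩
      obtain ⟨a, ha, hab'⟩ := hsM (π b)
      exact ⟨⟨⟨(a, (b, c)), hab', hbc⟩, ha⟩, rfl⟩
    · rintro ⟨⟨⟨a, b⟩, hx⟩, ha⟩ h1 h2
      apply Subtype.ext
      apply Subtype.ext
      apply Prod.ext
      · exact congrArg Subtype.val h1
      · exact congrArg Subtype.val h2
    · intro x y
      set c := x * y * x⁻¹ * y⁻¹ with hc
      have hc1 : c.1.1.1 ∈ π.ker := hcomm x.1.1.1 y.1.1.1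
      have hc2 : c.1.1.2.1 ∈ π.ker := hcomm x.1.1.2.1 y.1.1.2.1
      have hc3 : c.1.1.2.2 ∈ π.ker := hcomm x.1.1.2.2 y.1.1.2.2
      have e : c = (⟨⟨(1, c.1.1.2), by
          refine ⟨?_, ?_⟩
          · show π 1 = π c.1.1.2.1
            rw [map_one]; exact hc2.symm
          · exact c.1.2.2⟩, M.one_mem⟩ : A) *
          ⟨⟨(c.1.1.1, 1), by
          refine ⟨?_, ?_⟩
          · show π c.1.1.1 = π 1
            rw [map_one]; exact hc1
          · show π 1 * π 1 = 1
            simp⟩, c.2⟩ := by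
        apply Subtype.ext
        apply Subtype.ext
        apply Prod.ext
        · show c.1.1.1 = 1 * c.1.1.1
          rw [one_mul]
        · show c.1.1.2 = c.1.1.2 * 1
          rw [mul_one]
      rw [e]
      refine Subgroup.mul_mem_sup ?_ ?_
      · rw [MonoidHom.mem_ker]; rfl
      · rw [MonoidHom.mem_ker]; rfl
  have hAbn : Abn A := by
    let inc : Subgroup G → Subgroup ↥(Tr π) := fun K =>
      (K.prod (⊥ : Subgroup (G × G))).subgroupOf _
    have hinc : ∀ (K : Subgroup G) (x : ↥(Tr π)), x ∈ inc K ↔ x.1.1 ∈ K ∧ x.1.2 = 1 := by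
      intro K x
      show x.1 ∈ K.prod ⊥ ↔ _
      rw [Subgroup.mem_prod, Subgroup.mem_bot]
    have hincn : ∀ K : Subgroup G, K.Normal → (inc K).Normal := by
      intro K hK
      constructor
      intro x hx g
      rw [hinc] at hx ⊢
      refine ⟨hK.conj_mem _ hx.1 g.1.1, ?_⟩
      show g.1.2 * x.1.2 * (g.1.2)⁻¹ = 1
      rw [hx.2, mul_one, mul_inv_cancel]
    refine abn_avg A (inc π.ker) (inc (π.ker ⊓ M))
      ((V.prod (V.prod V)).subgroupOf _) (hincn _ π.normal_ker) (hincn _ hDn) ?_ ?_ ?_ ?_ ?_ ?_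
      (Nat.card π.ker) ?_ ?_
    · intro x hx
      rw [hinc] at hx ⊢
      exact ⟨hx.1.1, hx.2⟩
    · intro x hx
      rw [hinc] at hx
      exact hx.1.2
    · intro x hx
      exact hVM (Subgroup.mem_prod.1 hx).1
    · rintro ⟨⟨g, b⟩, hg⟩
      obtain ⟨x, hx, a, ha, rfl⟩ := hdec g
      have hx1 : π x = 1 := hx
      refine ⟨⟨(x, 1), by
          refine ⟨?_, ?_⟩
          · show π x = π 1
            rw [map_one]; exact hx
          · show π 1 * π 1 = 1
            simp⟩, (hinc _ _).2 ⟨hx, rfl⟩, ⟨(a, b), by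
          refine ⟨?_, hg.2⟩
          have h2 := hg.1
          show π a = π b.1
          rw [← h2]
          show π a = π (x * a)
          rw [map_mul, hx1, one_mul]⟩, ha, ?_⟩
      apply Subtype.ext
      apply Prod.ext
      · rfl
      · show b = 1 * b
        rw [one_mul]
    · intro x hx y hy
      rw [hinc] at hx hy ⊢
      refine ⟨hab _ hx.1 _ hy.1, ?_⟩
      show x.1.2 * y.1.2 * (x.1.2)⁻¹ * (y.1.2)⁻¹ = 1
      rw [hx.2, hy.2]; simp
    · intro n hn hv
      rw [hinc] at hn ⊢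
      refine ⟨?_, hn.2⟩
      refine hVfix _ hn.1 ?_
      intro v hvV
      have h1 := hv ⟨(v, (v, v⁻¹)), rfl, by rw [map_inv, mul_inv_cancel]⟩
        (Subgroup.mem_prod.2 ⟨hvV, Subgroup.mem_prod.2 ⟨hvV, V.inv_mem hvV⟩⟩)
      exact ((hinc _ _).1 h1).1
    · intro n hn
      rw [hinc] at hn
      have h1 : n ^ Nat.card π.ker = 1 := by
        apply Subtype.ext
        apply Prod.ext
        · have h3 : (⟨n.1.1, hn.1⟩ : π.ker) ^ Nat.card π.ker = 1 := pow_card_eq_one'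
          exact congrArg Subtype.val h3
        · show (n.1.2) ^ Nat.card π.ker = 1
          rw [hn.2, one_pow]
      rw [h1]
      exact one_mem _
    · refine coprime_of_pgroups (Ne.symm hpq) ?_ hP
      obtain ⟨b, hb⟩ := IsPGroup.iff_card.1 hVq
      refine isPGroup_of_pow hb ?_
      rintro ⟨x, hx⟩
      obtain ⟨h1, h2, h3⟩ : x.1.1 ∈ V ∧ x.1.2.1 ∈ V ∧ x.1.2.2 ∈ V := by
        have h4 := Subgroup.mem_prod.1 hx
        exact ⟨h4.1, (Subgroup.mem_prod.1 h4.2).1, (Subgroup.mem_prod.1 h4.2).2⟩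
      have hpow : ∀ y ∈ V, y ^ Nat.card V = 1 := by
        intro y hy
        have h3 : (⟨y, hy⟩ : V) ^ Nat.card V = 1 := pow_card_eq_one'
        exact congrArg Subtype.val h3
      apply Subtype.ext
      apply Subtype.ext
      apply Prod.ext
      · exact hpow _ h1
      · apply Prod.ext
        · exact hpow _ h2
        · exact hpow _ h3
  -- the swap
  have hsw : ∀ x : ↥(Tr π), ((x.1.2.1, (x.1.1, x.1.2.2)) : G × (G × G)) ∈ Tr π := by
    intro x
    refine ⟨x.2.1.symm, ?_⟩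
    show π x.1.1 * π x.1.2.2 = 1
    rw [x.2.1]; exact x.2.2
  let sw : ↥(Tr π) ≃* ↥(Tr π) :=
    { toFun := fun x => ⟨(x.1.2.1, (x.1.1, x.1.2.2)), hsw x⟩
      invFun := fun x => ⟨(x.1.2.1, (x.1.1, x.1.2.2)), hsw x⟩
      left_inv := fun x => rfl
      right_inv := fun x => rfl
      map_mul' := fun x y => rfl }
  let B : Subgroup ↥(Tr π) := A.comap sw.toMonoidHom
  have hBbn : Abn B := abn_comap sw.toMonoidHom sw.surjective hAbn
  have hFB : F B := by
    refine h.of_equiv ?_ hFA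
    have e : A.comap sw.toMonoidHom = A.map sw.symm.toMonoidHom := by
      ext x
      rw [Subgroup.mem_comap, Subgroup.mem_map_equiv]
      rfl
    show A ≃* ↥(A.comap sw.toMonoidHom)
    rw [e]
    exact sw.symm.subgroupMap A
  have hFT : F ↥(Tr π) := by
    refine h.af _ solT A B hAbn hBbn hFA hFB ?_
    rintro ⟨⟨g, b⟩, hg⟩
    obtain ⟨a, ha, hab'⟩ := hsM (π g)
    have h1 : π a = π b.1 := hab'.trans hg.1
    refine ⟨⟨(a, b), h1, hg.2⟩, ha, ⟨(a⁻¹ * g, 1), ?_⟩, ?_, ?_⟩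
    · refine ⟨?_, ?_⟩
      · show π (a⁻¹ * g) = π 1
        rw [map_mul, map_inv, hab', inv_mul_cancel, map_one]
      · show π 1 * π 1 = 1
        simp
    · exact M.one_mem
    · apply Subtype.ext
      apply Prod.ext
      · show a * (a⁻¹ * g) = g
        group
      · show b * 1 = b
        rw [mul_one]
  -- conclusion
  let f₁ : ↥(Tr π) →* Dm π := MonoidHom.mk' (fun x => ⟨x.1.2, x.2.2⟩) (fun a b => rfl)
  let f₂ : ↥(Tr π) →* G := MonoidHom.mk' (fun x => x.1.1) (fun a b => rfl)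
  refine h.quasi f₁ f₂ ?_ ?_ ?_ ?_ hFT hDm
  · rintro ⟨⟨b, c⟩, hbc⟩
    exact ⟨⟨(b, (b, c)), rfl, hbc⟩, rfl⟩
  · intro g
    exact ⟨⟨(g, (g, g⁻¹)), rfl, by rw [map_inv, mul_inv_cancel]⟩, rfl⟩
  · rintro ⟨⟨a, b⟩, hx⟩ h1 h2
    apply Subtype.ext
    apply Prod.ext
    · exact h2
    · exact congrArg Subtype.val h1
  · intro x y
    set c := x * y * x⁻¹ * y⁻¹ with hc
    have hc1 : c.1.1 ∈ π.ker := hcomm x.1.1 y.1.1
    have hc2 : c.1.2.1 ∈ π.ker := hcomm x.1.2.1 y.1.2.1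
    have e : c = (⟨(c.1.1, 1), by
        refine ⟨?_, ?_⟩
        · show π c.1.1 = π 1
          rw [map_one]; exact hc1
        · show π 1 * π 1 = 1
          simp⟩ : ↥(Tr π)) * ⟨(1, c.1.2), by
        refine ⟨?_, ?_⟩
        · show π 1 = π c.1.2.1
          rw [map_one]; exact hc2.symm
        · exact c.2.2⟩ := by
      apply Subtype.ext
      apply Prod.ext
      · show c.1.1 = c.1.1 * 1
        rw [mul_one]
      · show c.1.2 = 1 * c.1.2
        rw [one_mul]
    rw [e]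
    refine Subgroup.mul_mem_sup ?_ ?_
    · rw [MonoidHom.mem_ker]; rfl
    · rw [MonoidHom.mem_ker]; rfl

end

end Pool.Agent.Helper813.AF
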